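import Pool.Agent.Helper75x.NR.Fin

/-!
# Characters of the closed subgroup that are trivial on the lattice part
-/

set_option autoImplicit false

namespace Pool.Agent.Helper75x.NR

open Pool.Agent.TH91.NB Pool.Agent.TH91.RF Finset Topology Filter
open Pool.Agent.Helper509.RD

set_option maxHeartbeats 400000

variable {ι : Type} {N : ℕ}
variable {h : Submodule ℝ (Mt N)} {M : Mt N} {H Λ : Subgroup (Mt N)ˣ} {a : (Mt N)ˣ}
variable (md : MD h M H Λ a)
variable {p : ι → Polynomial ℤ} {D : ℕ} (hD : ∀ i, (p i).natDegree ≤ D)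

/-- if an element of the group has components in `Λ` and its shift is divisible by `k` -/
theorem LK_pow {w : PH md.gF md.gb ι D} (hw : w ∈ LK md.gF md.gb Λ ι D 1)
    (hr : (w : SD ι N).right = Multiplicative.ofAdd 1) (k : ℕ) :
    w ^ k ∈ LK md.gF md.gb Λ ι D k := by
  refine (mem_LK _ _).2 ⟨((mem_LK _ _).1 ((LK md.gF md.gb Λ ι D 1).pow_mem hw k)).1, ?_⟩
  have h1 : ∀ n : ℕ, Multiplicative.toAdd ((w ^ n : PH md.gF md.gb ι D) : SD ι N).right = n := by
    intro n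
    induction n with
    | zero => rfl
    | succ n ih =>
      rw [pow_succ, Subgroup.coe_mul, SemidirectProduct.mul_right, toAdd_mul, ih, hr]
      simp
  rw [h1]

section chr

variable {c : GG md hD →* Circle} (hc : Continuous c)
variable (hcL : ∀ g : GG md hD, (g : PH md.gF md.gb ι D) ∈ LLg md hD → c g = 1)
variable {k : ℕ}
variable (hcΛ : ∀ g : GG md hD, (g : PH md.gF md.gb ι D) ∈ LK md.gF md.gb Λ ι D k → c g = 1)

include hcL in
theorem cE_L {x : PH md.gF md.gb ι D} (hx : x ∈ LLg md hD) : cE md.gF md.gb c x = 1 := by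
  rw [cE_eq _ _ (LLg_le md hD hx)]
  exact hcL _ hx

include hcΛ in
theorem cE_Λ {x : PH md.gF md.gb ι D} (hx : x ∈ GG md hD)
    (hx2 : x ∈ LK md.gF md.gb Λ ι D k) : cE md.gF md.gb c x = 1 := by
  rw [cE_eq _ _ hx]
  exact hcΛ _ hx2

theorem rho_mem : RR md.gF md.gb hD M_mem_gM 1 ∈ LLg md hD :=
  Subgroup.subset_closure (Or.inl rfl)

theorem delta_mem : Eh md.gF md.gb D (Cs ι M) ∈ LLg md hD :=
  Subgroup.subset_closure (Or.inr rfl)

include hc

theorem Ys_K1_h (tD2 : TaskD2) {v w : Mt N} (hv : v ∈ h) (hw : w ∈ h) :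
    Ys p (br v w) ∈ K1 md.gF md.gb c := by
  rw [← br_Ys_Cs]
  exact KK_br _ _ (isClosed_GG md hD) hc tD2 (Ys_KK md hD hv) (Cs_KK md hD hw)

include hcL hcΛ

/-- the character is trivial on the constant sequences -/
theorem cE_Dl (u : H) : cE md.gF md.gb c (Dl md ι D u) = 1 := by
  have h1 : Continuous fun u : H => cE md.gF md.gb c (Dl md ι D u) := by
    rw [continuous_iff_continuousAt]
    intro u
    exact tendsto_cE _ _ hc ((continuous_Dl md).tendsto u) (fun x => Dl_mem md hD x)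
      (Dl_mem md hD u)
  have h2 : IsClosed {u : H | cE md.gF md.gb c (Dl md ι D u) = 1} :=
    isClosed_eq h1 continuous_const
  set s : Set H := {v : H | ∃ n : ℤ, ∃ γ ∈ Λ, (v : (Mt N)ˣ) = a ^ n * γ} with hs
  have h3 : s ⊆ {u : H | cE md.gF md.gb c (Dl md ι D u) = 1} := by
    rintro v ⟨n, γ, hγ, hv⟩
    have e : v = (⟨Eu M, EuM_mem md⟩ : H) ^ n * ⟨γ, md.hΛH hγ⟩ := by
      apply Subtype.ext
      rw [Subgroup.coe_mul, Subgroup.coe_zpow, hv]
      exact congrArg (fun z => z ^ n * γ) md.a_eq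
    change cE md.gF md.gb c (Dl md ι D v) = 1
    rw [e, Dl_mul, Dl_zpow, Dl_M]
    have h4 := (LLg md hD).zpow_mem (delta_mem md hD) n
    rw [cE_mul _ _ (LLg_le md hD h4) (Dl_mem md hD _), cE_L md hD hcL h4, one_mul]
    refine cE_Λ md hD hcΛ (Dl_mem md hD _) ((mem_LK _ _).2 ⟨fun q => hγ, ?_⟩)
    exact dvd_zero _
  have h4 : u ∈ closure s := by
    rw [closure_subtype]
    refine closure_mono ?_ (md.hdense u u.2)
    rintro v ⟨n, γ, hγ, rfl⟩
    have hv : a ^ n * γ ∈ H := by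
      refine H.mul_mem (H.zpow_mem ?_ n) (md.hΛH hγ)
      rw [md.a_eq]
      exact EuM_mem md
    exact ⟨⟨_, hv⟩, ⟨n, γ, hγ, rfl⟩, rfl⟩
  exact (h2.closure_subset_iff.2 h3) h4

theorem Cs_K1 {v : Mt N} (hv : v ∈ h) : Cs ι v ∈ K1 md.gF md.gb c := by
  refine (mem_K1 _ _ (isClosed_GG md hD) hc).2 ⟨Cs_KK md hD hv, fun s => ?_⟩
  rw [← Cs_smul, ← Dl_Eu md (Submodule.smul_mem _ s hv) (Eu_mem md (Submodule.smul_mem _ s hv))]
  exact cE_Dl md hD hc hcL hcΛ _

theorem Ys_K1_M (tD1 : TaskD1) {v : Mt N} (hv : v ∈ h) : Ys p (br M v) ∈ K1 md.gF md.gb c := by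
  have h1 := tD1 N (ι × ℤ) (K1 md.gF md.gb c) M v md.hM (md.hh v hv) D (eP p)
    (fun q => eP_deg hD q) (fun q => eP_zero p q) (fun n => by
      have h2 := AdP_K1 _ _ (isClosed_GG md hD) hc (RR_mem md hD (n : ℤ))
        (Cs_K1 md hD hc hcL hcΛ hv)
      rw [AdP_RR_Cs] at h2
      simpa using h2)
  have e : (fun t => (Polynomial.derivative (eP p t)).eval 0 • br M v) = Ys p (br M v) := by
    funext q
    unfold Ys
    have h := eP_deriv p q 0
    rw [Int.cast_zero, add_zero] at h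
    rw [h]
  rwa [e] at h1

/-- the character is trivial on all the generators `Y v` -/
theorem cE_Ys (tD : TaskD) (tD1 : TaskD1) (tD2 : TaskD2) (tF : TaskF) (hk : 0 < k) {v : Mt N}
    (hv : v ∈ h) : cE md.gF md.gb c (Eh md.gF md.gb D (Ys p v)) = 1 := by
  have hG := isClosed_GG md hD
  have K1_one : ∀ x ∈ K1 md.gF md.gb c, cE md.gF md.gb c (Eh md.gF md.gb D x) = 1 := by
    intro x hx
    have := ((mem_K1 _ _ hG hc).1 hx).2 1
    rwa [one_smul] at this
  have hρ : cE md.gF md.gb c (RR md.gF md.gb hD M_mem_gM 1) = 1 :=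
    cE_L md hD hcL (rho_mem md hD)
  have key : ∀ γ ∈ Λ, ∀ β ∈ h, (γ : Mt N) = IsNilpotent.exp (M + β) →
      ∃ w ∈ GG md hD, cE md.gF md.gb c w = cE md.gF md.gb c (Eh md.gF md.gb D (Ys p β)) ∧
      (w : SD ι N).right = Multiplicative.ofAdd 1 ∧ w ∈ LK md.gF md.gb Λ ι D 1 := by
    intro γ hγ β hβ hγβ
    obtain ⟨w, hw1, hw2, hw3, hw4⟩ := exists_Rb md hD tD tD2 hc hρ hβ
    refine ⟨w, hw1, hw2, hw3, (mem_LK _ _).2 ⟨fun q => ?_, one_dvd _⟩⟩
    have e : Eu (M + β) = γ :=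
      Units.ext (by rw [Eu_val (Submodule.add_mem _ md.hM (md.hh β hβ)), hγβ])
    rw [hw4, e]
    exact Λ.zpow_mem hγ _
  refine tF N h M H Λ a md.hh md.hM md.hbr md.hbM md.hind md.ha md.hH md.hΛH md.hdense md.hγ
    (fun v => cE md.gF md.gb c (Eh md.gF md.gb D (Ys p v))) ?_ ?_ ?_ ?_ k hk ?_ ?_ v hv
  · rw [continuousOn_iff_continuous_domRestrict, continuous_iff_continuousAt]
    intro v
    have h1 : Tendsto (fun v : (h : Set (Mt N)) => Ys p (v : Mt N)) (𝓝 v) (𝓝 (Ys p (v : Mt N))) := by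
      have h2 : Continuous fun v : (h : Set (Mt N)) => (v : Mt N) := continuous_subtype_val
      have h3 : ∀ r : ℝ, Continuous fun v : (h : Set (Mt N)) => r • (v : Mt N) :=
        fun r => h2.const_smul r
      exact Continuous.tendsto (continuous_pi fun q => h3 _) v
    exact tendsto_cE _ _ hc (tendsto_Eh _ _ h1 (fun x => Ys_mem hD (h_le_gM x.2))
      (Ys_mem hD (h_le_gM v.2))) (fun x => KK_Eh _ _ hG (Ys_KK md hD x.2))
      (KK_Eh _ _ hG (Ys_KK md hD v.2))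
  · intro x hx y hy
    change cE md.gF md.gb c (Eh md.gF md.gb D (Ys p (x + y))) = _
    rw [Ys_add]
    exact cE_add _ _ hG hc (Ys_KK md hD hx) (Ys_KK md hD hy)
  · intro x hx y hy
    exact K1_one _ (Ys_K1_h md hD hc tD2 hx hy)
  · intro x hx
    exact K1_one _ (Ys_K1_M md hD hc hcL hcΛ tD1 hx)
  · intro γ hγ β hβ hγβ
    obtain ⟨w, hw1, hw2, hw3, hw4⟩ := key γ hγ β hβ hγβ
    change cE md.gF md.gb c (Eh md.gF md.gb D (Ys p β)) ^ k = 1
    rw [← hw2, ← cE_pow _ _ hw1]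
    exact cE_Λ md hD hcΛ ((GG md hD).pow_mem hw1 k) (LK_pow md hw4 hw3 k)
  · intro γ hγ β hβ γ' hγ' β' hβ' hγβ hγβ'
    obtain ⟨w, hw1, hw2, hw3, hw4⟩ := key γ hγ β hβ hγβ
    obtain ⟨w', hw1', hw2', hw3', hw4'⟩ := key γ' hγ' β' hβ' hγβ'
    change cE md.gF md.gb c (Eh md.gF md.gb D (Ys p β)) =
      cE md.gF md.gb c (Eh md.gF md.gb D (Ys p β'))
    rw [← hw2, ← hw2', ← mul_inv_eq_one, ← cE_inv _ _ hw1', ← cE_mul _ _ hw1
      ((GG md hD).inv_mem hw1')]
    refine cE_Λ md hD hcΛ ((GG md hD).mul_mem hw1 ((GG md hD).inv_mem hw1')) ((mem_LK _ _).2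
      ⟨((mem_LK _ _).1 ((LK md.gF md.gb Λ ι D 1).mul_mem hw4
        ((LK md.gF md.gb Λ ι D 1).inv_mem hw4'))).1, ?_⟩)
    rw [Subgroup.coe_mul, Subgroup.coe_inv, SemidirectProduct.mul_right,
      SemidirectProduct.inv_right, hw3, hw3', mul_inv_cancel]
    exact dvd_zero _

/-- characters trivial on the lattice parts are trivial -/
theorem char_trivial (tD : TaskD) (tD1 : TaskD1) (tD2 : TaskD2) (tF : TaskF) (hk : 0 < k)
    (g : GG md hD) : c g = 1 := by
  have hG := isClosed_GG md hD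
  set Q : Subgroup (PH md.gF md.gb ι D) := (MonoidHom.ker c).map (GG md hD).subtype with hQ
  have hQc : IsClosed (Q : Set (PH md.gF md.gb ι D)) := by
    have h1 : IsClosed ((MonoidHom.ker c : Subgroup (GG md hD)) : Set (GG md hD)) := by
      have : ((MonoidHom.ker c : Subgroup (GG md hD)) : Set (GG md hD)) = c ⁻¹' {1} := rfl
      rw [this]
      exact isClosed_singleton.preimage hc
    exact (IsClosed.isClosedEmbedding_subtypeVal hG).isClosedMap _ h1
  have memQ : ∀ x ∈ GG md hD, cE md.gF md.gb c x = 1 → x ∈ Q := by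
    intro x hx h1
    rw [cE_eq _ _ hx] at h1
    exact ⟨⟨x, hx⟩, h1, rfl⟩
  have h1 : gens md hD ⊆ (Q : Set (PH md.gF md.gb ι D)) := by
    intro y hy
    refine memQ y (gens_sub md hD hy) ?_
    rcases hy with (rfl | hy) | ⟨v, hv, rfl⟩ | ⟨v, hv, rfl⟩
    · exact cE_L md hD hcL (rho_mem md hD)
    · rw [Set.mem_singleton_iff] at hy
      subst hy
      exact cE_L md hD hcL (delta_mem md hD)
    · exact cE_Ys md hD hc hcL hcΛ tD tD1 tD2 tF hk hv
    · rw [← Dl_Eu md hv (Eu_mem md hv)]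
      exact cE_Dl md hD hc hcL hcΛ _
  have h2 : GG md hD ≤ Q := by
    refine Subgroup.topologicalClosure_minimal _ ?_ hQc
    rw [Subgroup.closure_le]
    exact h1
  obtain ⟨g', hg', h3⟩ := h2 g.2
  have h4 : g' = g := Subtype.ext h3
  rw [← h4]
  exact hg'

end chr

end Pool.Agent.Helper75x.NR
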