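import Pool.Agent.Helper75x.NR.Exp

/-!
# Compactness of the polynomial sequences modulo the polynomial sequences with values in `Λ`
-/

set_option autoImplicit false

namespace Pool.Agent.Helper75x.NR

open Pool.Agent.TH91.NB Pool.Agent.TH91.RF Finset Topology Filter

variable {N : ℕ} {g : Submodule ℝ (Mt N)} {D : ℕ}

/-! ### binomial sequences -/

/-- multiplication by `t` -/
def mulT : (ℤ → Mt N) →ₗ[ℝ] (ℤ → Mt N) where
  toFun f := fun t => (t : ℝ) • f t
  map_add' f f' := by funext t; simp [smul_add]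
  map_smul' c f := by funext t; simp [smul_comm c]

theorem mulT_mono (m : ℕ) (x : Mt N) : mulT (mono m x) = mono (m + 1) x := by
  funext t
  change (t : ℝ) • ((t : ℝ) ^ m • x) = (t : ℝ) ^ (m + 1) • x
  rw [smul_smul, pow_succ, mul_comm]

/-- falling factorial sequences -/
noncomputable def dpx (m : ℕ) (x : Mt N) : ℤ → Mt N :=
  fun t => (∏ i ∈ range m, ((t : ℝ) - i)) • x

theorem mulT_dpx (m : ℕ) (x : Mt N) : mulT (dpx m x) = dpx (m + 1) x + (m : ℝ) • dpx m x := by
  funext t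
  change (t : ℝ) • ((∏ i ∈ range m, ((t : ℝ) - i)) • x) =
    (∏ i ∈ range (m + 1), ((t : ℝ) - i)) • x + (m : ℝ) • ((∏ i ∈ range m, ((t : ℝ) - i)) • x)
  rw [prod_range_succ, smul_smul, smul_smul, ← add_smul]
  congr 1
  ring

theorem dpx_zero (x : Mt N) : dpx 0 x = mono 0 x := by
  funext t
  simp [dpx, mono]

theorem dpx_mem_span (m : ℕ) (x : Mt N) :
    dpx m x ∈ Submodule.span ℝ {f | ∃ j ≤ m, f = mono j x} := by
  induction m with
  | zero => rw [dpx_zero]; exact Submodule.subset_span ⟨0, le_rfl, rfl⟩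
  | succ m ih =>
    have h1 : dpx (m + 1) x = mulT (dpx m x) - (m : ℝ) • dpx m x := by
      rw [mulT_dpx, add_sub_cancel_right]
    rw [h1]
    refine Submodule.sub_mem _ ?_ (Submodule.smul_mem _ _ (Submodule.span_mono ?_ ih))
    · have h2 := Submodule.mem_map_of_mem (f := mulT) ih
      rw [Submodule.map_span] at h2
      refine Submodule.span_mono ?_ h2
      rintro _ ⟨f, ⟨j, hj, rfl⟩, rfl⟩
      exact ⟨j + 1, by omega, mulT_mono j x⟩
    · rintro f ⟨j, hj, rfl⟩
      exact ⟨j, by omega, rfl⟩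

theorem mono_mem_span (m : ℕ) (x : Mt N) :
    mono m x ∈ Submodule.span ℝ {f | ∃ j ≤ m, f = dpx j x} := by
  induction m with
  | zero => rw [← dpx_zero]; exact Submodule.subset_span ⟨0, le_rfl, rfl⟩
  | succ m ih =>
    rw [← mulT_mono]
    have h2 := Submodule.mem_map_of_mem (f := mulT) ih
    rw [Submodule.map_span] at h2
    refine (Submodule.span_le.2 ?_ : _ ≤ _) h2
    rintro _ ⟨f, ⟨j, hj, rfl⟩, rfl⟩
    rw [mulT_dpx]
    refine Submodule.add_mem _ (Submodule.subset_span ⟨j + 1, by omega, rfl⟩)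
      (Submodule.smul_mem _ _ (Submodule.subset_span ⟨j, by omega, rfl⟩))

/-- binomial sequences -/
noncomputable def bnx (m : ℕ) (x : Mt N) : ℤ → Mt N := ((m.factorial : ℝ))⁻¹ • dpx m x

theorem bnx_apply (m : ℕ) (x : Mt N) (t : ℤ) :
    bnx m x t = (((m.factorial : ℝ))⁻¹ * ∏ i ∈ range m, ((t : ℝ) - i)) • x := by
  unfold bnx dpx
  rw [Pi.smul_apply, smul_smul]

theorem bn_int (m : ℕ) (t : ℤ) :
    ∃ z : ℤ, ((m.factorial : ℝ))⁻¹ * ∏ i ∈ range m, ((t : ℝ) - i) = z := by
  refine ⟨Ring.choose t m, ?_⟩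
  have h1 := Ring.descPochhammer_eq_factorial_smul_choose t m
  rw [← Polynomial.eval_eq_smeval, descPochhammer_eval_eq_prod_range, nsmul_eq_mul] at h1
  have h2 : (∏ i ∈ range m, ((t : ℝ) - i)) = (m.factorial : ℝ) * (Ring.choose t m : ℤ) := by
    have h3 := congrArg (fun z : ℤ => (z : ℝ)) h1
    simpa using h3
  rw [h2, ← mul_assoc, inv_mul_cancel₀ (by positivity), one_mul]

theorem bnx_int (m : ℕ) (t : ℤ) : ∃ z : ℤ, ∀ x : Mt N, bnx m x t = (z : ℝ) • x := by
  obtain ⟨z, hz⟩ := bn_int m t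
  exact ⟨z, fun x => by rw [bnx_apply, hz]⟩

/-- as a linear map in `x` -/
noncomputable def bnL (m : ℕ) : Mt N →ₗ[ℝ] (ℤ → Mt N) where
  toFun x := bnx m x
  map_add' x y := by funext t; rw [bnx_apply, Pi.add_apply, bnx_apply, bnx_apply, smul_add]
  map_smul' c x := by
    funext t; rw [bnx_apply, Pi.smul_apply, bnx_apply, smul_comm, RingHom.id_apply]

theorem bnx_mem {l m : ℕ} {x : Mt N} (hx : x ∈ LL g l) (hm : m ≤ D * (l + 1)) :
    bnx m x ∈ W g D l 0 := by
  refine Submodule.smul_mem _ _ ((Submodule.span_le.2 ?_ : _ ≤ _) (dpx_mem_span m x))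
  rintro f ⟨j, hj, rfl⟩
  refine mono_mem hx le_rfl (by omega) ?_
  have : D * (l + 1) ≤ (D + 1) * (l + 1) := Nat.mul_le_mul_right _ (Nat.le_succ D)
  omega

/-! ### Logarithms of elements of `Λ` -/

section logs

variable (hF : ∀ x ∈ g, x ∈ (J887.matFiltR N).F 1) (hg : ∀ x ∈ g, ∀ y ∈ g, br x y ∈ g)

include hF hg

/-- the constant functions on a point -/
theorem comm_log {l : ℕ} {x y : Mt N} (hx : x ∈ g) (hy : y ∈ LL g l) :
    ∃ z ∈ LL g (l + 1), z - br x y ∈ LL g (l + 2) ∧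
      Eu x * Eu y * (Eu x)⁻¹ * (Eu y)⁻¹ = Eu z := by
  -- transport of submodules
  let cn : Submodule ℝ (Mt N) → Submodule ℝ (Unit → Mt N) := fun K =>
    K.comap (LinearMap.proj (R := ℝ) (φ := fun _ : Unit => Mt N) ())
  have hcn : ∀ (K : Submodule ℝ (Mt N)) (f : Unit → Mt N), f ∈ cn K ↔ f () ∈ K := fun K f => Iff.rfl
  have hV : ∀ f ∈ cn g, f ∈ (filtI Unit N).F 1 := fun f hf => mem_filtI.2 fun _ => hF _ hf
  have hbL : ∀ (i j k : ℕ), k ≤ i + j + 1 → ∀ f ∈ cn (LL g i), ∀ f' ∈ cn (LL g j),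
      br f f' ∈ cn (LL g k) := fun i j k hk f hf f' hf' =>
    LL_anti hg hk (LL_br hg i j _ hf _ hf')
  have hle : ∀ i j, i ≤ j → cn (LL g j) ≤ cn (LL g i) := fun i j hij f hf => LL_anti hg hij hf
  set X : Unit → Mt N := fun _ => x with hX
  set Y : Unit → Mt N := fun _ => y with hY
  have hXm : X ∈ cn g := hx
  have hYm : Y ∈ cn (LL g l) := hy
  set Y' : Unit → Mt N := vl (ExI X) * Y * vl (ExI X)⁻¹ with hY'
  have hYV : Y ∈ cn g := hle 0 l (Nat.zero_le _) hYm
  have h1 : Y' - Y - br X Y ∈ cn (LL g (l + 2)) := by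
    have hN : Y' = ∑ k ∈ range (N + 1), ((k.factorial : ℚ))⁻¹ • (adr (-X))^[k] Y :=
      conj_eq hV hXm hYV
    have e : ∀ f : Unit → Mt N, adr (-X) f = br X f := by
      intro f; unfold adr br; noncomm_ring
    rcases Nat.eq_zero_or_pos N with h0 | h0
    · subst h0
      have hall : ∀ f : Unit → Mt 0, f = 0 := fun f => funext fun _ => Subsingleton.elim _ _
      rw [hall (Y' - Y - br X Y)]
      exact Submodule.zero_mem _
    · obtain ⟨n, rfl⟩ : ∃ n, N = n + 1 := ⟨N - 1, by omega⟩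
      rw [hN, sum_range_succ', sum_range_succ']
      simp only [Nat.factorial_zero, Nat.cast_one, inv_one, one_smul, Function.iterate_zero, id_eq,
        zero_add, Nat.factorial_one, Function.iterate_one, e, add_sub_cancel_right]
      refine Submodule.sum_mem _ fun k _ => bigM_smul_mem _ ?_ _
      have h2 : ∀ k : ℕ, (br X)^[k + 1 + 1] Y ∈ cn (LL g (l + 2)) := by
        intro k
        induction k with
        | zero =>
          rw [Function.iterate_succ_apply', Function.iterate_succ_apply', Function.iterate_zero,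
            id_eq]
          exact hbL 0 (l + 1) _ (by omega) _ hXm _ (hbL 0 l _ (by omega) _ hXm _ hYm)
        | succ k ih =>
          rw [Function.iterate_succ_apply']
          exact hbL 0 (l + 2) _ (by omega) _ hXm _ ih
      have h3 : ∀ (k : ℕ) (f : Unit → Mt (n + 1)), (adr (-X))^[k] f = (br X)^[k] f := by
        intro k
        induction k with
        | zero => intro f; rfl
        | succ k ih => intro f; rw [Function.iterate_succ_apply, Function.iterate_succ_apply, e, ih]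
      rw [h3]
      exact h2 k
  have h2 : Y' - Y ∈ cn (LL g (l + 1)) := by
    have := Submodule.add_mem _ (hle (l + 1) (l + 2) (by omega) h1)
      (hbL 0 l (l + 1) (by omega) X hXm Y hYm)
    rwa [sub_add_cancel] at this
  have h3 : Y' ∈ cn (LL g l) := by
    have := Submodule.add_mem _ (hle l (l + 1) (by omega) h2) hYm
    rwa [sub_add_cancel] at this
  have h3V : Y' ∈ cn g := hle 0 l (Nat.zero_le _) h3
  have hbr : br Y' (-Y) ∈ cn (LL g (l + 2)) := by
    have e : br Y' (-Y) = -(br (Y' - Y) Y) := by unfold br; noncomm_ring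
    rw [e]
    exact Submodule.neg_mem _ (hbL (l + 1) 0 _ (by omega) _ h2 _ hYV)
  obtain ⟨j, hj, h4⟩ := ExI_mul_add (V := cn g) (J := cn (LL g (l + 2))) hV
    (fun f hf f' hf' => hbL 0 0 0 (by omega) f hf f' hf') (hle 0 _ (Nat.zero_le _))
    (fun f hf f' hf' => hbL 0 (l + 2) _ (by omega) f hf f' hf') h3V (Submodule.neg_mem _ hYV) hbr
  have h5 : ExI X * ExI Y * (ExI X)⁻¹ = ExI Y' := ExI_conj (hV Y hYV) (ExI X) (hV Y' h3V)
  refine ⟨Y' () - y + j (), ?_, ?_, ?_⟩
  · exact Submodule.add_mem _ h2 (LL_anti hg (Nat.le_succ (l + 1)) hj)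
  · have := Submodule.add_mem _ h1 hj
    have e : Y' () - y + j () - br x y = (Y' - Y - br X Y + j) () := by
      simp only [Pi.add_apply, Pi.sub_apply, hX, hY, br, Pi.mul_apply]
      abel
    rw [e]
    exact this
  · have h6 : ExI X * ExI Y * (ExI X)⁻¹ * (ExI Y)⁻¹ = ExI (Y' + -Y + j) := by
      rw [h5, ExI_inv (hV Y hYV), h4]
    have h7 := congrFun h6 ()
    have e : Y' () - y + j () = (Y' + -Y + j) () := by
      simp only [Pi.add_apply, Pi.neg_apply, hY]
      abel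
    rw [e]
    exact h7

variable {Λ : Subgroup (Mt N)ˣ} (hsp : g ≤ Submodule.span ℝ {x | x ∈ g ∧ Eu x ∈ Λ})
include hsp

theorem LL_span_step (l : ℕ) :
    LL g l ≤ Submodule.span ℝ {x | x ∈ LL g l ∧ Eu x ∈ Λ} ⊔ LL g (l + 1) := by
  induction l with
  | zero => exact hsp.trans le_sup_left
  | succ l ih =>
    refine Submodule.span_le.2 ?_
    rintro _ ⟨x, hx, y, hy, rfl⟩
    have hy' : y ∈ Submodule.span ℝ ({y | y ∈ LL g l ∧ Eu y ∈ Λ} ∪
        ((LL g (l + 1) : Submodule ℝ (Mt N)) : Set (Mt N))) := by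
      rw [Submodule.span_union, Submodule.span_eq]
      exact ih hy
    refine br_mem_of_span ?_ (hsp hx) hy'
    rintro u ⟨hu, huΛ⟩ v hv
    rcases hv with ⟨hv, hvΛ⟩ | hv
    · obtain ⟨z, hz, hz2, hz3⟩ := comm_log hF hg hu hv
      have h1 : z ∈ Submodule.span ℝ {x | x ∈ LL g (l + 1) ∧ Eu x ∈ Λ} := by
        refine Submodule.subset_span ⟨hz, ?_⟩
        rw [← hz3]
        exact Λ.mul_mem (Λ.mul_mem (Λ.mul_mem huΛ hvΛ) (Λ.inv_mem huΛ)) (Λ.inv_mem hvΛ)
      have h2 : br u v = z - (z - br u v) := by abel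
      rw [h2]
      exact Submodule.sub_mem _ (Submodule.mem_sup_left h1) (Submodule.mem_sup_right hz2)
    · exact Submodule.mem_sup_right (LL_succ_mem hu hv)

theorem LL_span (l : ℕ) : LL g l ≤ Submodule.span ℝ {x | x ∈ LL g l ∧ Eu x ∈ Λ} := by
  have key : ∀ k l : ℕ, N ≤ l + k → LL g l ≤ Submodule.span ℝ {x | x ∈ LL g l ∧ Eu x ∈ Λ} := by
    intro k
    induction k with
    | zero =>
      intro l hl x hx
      rw [LL_bot hF (by omega) x hx]
      exact Submodule.zero_mem _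
    | succ k ih =>
      intro l hl
      refine (LL_span_step hF hg hsp l).trans (sup_le le_rfl ?_)
      refine (ih (l + 1) (by omega)).trans (Submodule.span_mono ?_)
      rintro x ⟨hx, hx2⟩
      exact ⟨LL_le_succ hg l hx, hx2⟩
  exact key N l (by omega)

theorem exists_family (l : ℕ) : ∃ (J : Type) (_ : Fintype J) (b : J → Mt N),
    (∀ j, b j ∈ LL g l) ∧ (∀ j, Eu (b j) ∈ Λ) ∧ LL g l ≤ Submodule.span ℝ (Set.range b) := by
  have h1 : (Submodule.span ℝ {x | x ∈ LL g l ∧ Eu x ∈ Λ}).FG := IsNoetherian.noetherian _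
  rw [Submodule.fg_span_iff_fg_span_finset_subset] at h1
  obtain ⟨s, hs, hs2⟩ := h1
  refine ⟨s, inferInstance, fun j => (j : Mt N), fun j => (hs j.2).1, fun j => (hs j.2).2, ?_⟩
  have : Set.range (fun j : s => (j : Mt N)) = (s : Set (Mt N)) := by simp
  rw [this, ← hs2]
  exact LL_span hF hg hsp l

end logs

end Pool.Agent.Helper75x.NR
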