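import Pool.Agent.Helper75x.NR.Cpt

/-!
# Compactness of the polynomial sequences modulo the polynomial sequences with values in `Λ`, II
-/

set_option autoImplicit false

namespace Pool.Agent.Helper75x.NR

open Pool.Agent.TH91.NB Pool.Agent.TH91.RF Finset Topology Filter

set_option maxHeartbeats 400000

variable {N : ℕ} {g : Submodule ℝ (Mt N)} {D : ℕ}

theorem W_le {l l' q q' : ℕ} (hl : l ≤ l') (hq : q ≤ q') {x : ℤ → Mt N} (hx : x ∈ W g D l' q') :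
    x ∈ W g D l q := W_mono hl hq hx

theorem W_br_le (hg : ∀ x ∈ g, ∀ y ∈ g, br x y ∈ g) {l l' q q' a b : ℕ} (ha : a ≤ l + l' + 1)
    (hb : b ≤ q + q') {x y : ℤ → Mt N} (hx : x ∈ W g D l q) (hy : y ∈ W g D l' q') :
    br x y ∈ W g D a b := W_mono ha hb (W_br hg hx hy)

attribute [local irreducible] W

section

variable (hF : ∀ x ∈ g, x ∈ (J887.matFiltR N).F 1) (hg : ∀ x ∈ g, ∀ y ∈ g, br x y ∈ g)

include hF

theorem W_F {l q : ℕ} {x : ℤ → Mt N} (hx : x ∈ W g D l q) : x ∈ (filtI ℤ N).F 1 :=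
  mem_filtI.2 (W_val hF hx)

include hg

theorem W_mul_add {l q : ℕ} {x y : ℤ → Mt N} (hx : x ∈ W g D 0 0) (hy : y ∈ W g D 0 0)
    (h : br x y ∈ W g D l q) : ∃ j ∈ W g D l q, ExI x * ExI y = ExI (x + y + j) := by
  have h1 : ∀ x ∈ W g D 0 0, x ∈ (filtI ℤ N).F 1 := fun x hx => W_F hF hx
  have h2 : ∀ x ∈ W g D 0 0, ∀ y ∈ W g D 0 0, br x y ∈ W g D 0 0 := fun x hx y hy =>
    W_br_le hg (Nat.zero_le _) (Nat.zero_le _) hx hy
  have h3 : W g D l q ≤ W g D 0 0 := W_mono (Nat.zero_le _) (Nat.zero_le _)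
  have h4 : ∀ x ∈ W g D 0 0, ∀ y ∈ W g D l q, br x y ∈ W g D l q := fun x hx y hy =>
    W_br_le hg (by omega) (by omega) hx hy
  exact ExI_mul_add h1 h2 h3 h4 hx hy h

/-- polynomial sequences -/
def P1 (D : ℕ) : Subgroup (ℤ → (Mt N)ˣ) where
  carrier := {u | ∃ x ∈ W g D 0 0, u = ExI x}
  one_mem' := ⟨0, Submodule.zero_mem _, ExI_zero.symm⟩
  mul_mem' := by
    rintro _ _ ⟨x, hx, rfl⟩ ⟨y, hy, rfl⟩
    obtain ⟨j, hj, h⟩ := W_mul_add (l := 0) (q := 0) hF hg hx hy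
      (W_br_le hg (Nat.zero_le _) (Nat.zero_le _) hx hy)
    exact ⟨_, Submodule.add_mem _ (Submodule.add_mem _ hx hy) hj, h⟩
  inv_mem' := by
    rintro _ ⟨x, hx, rfl⟩
    exact ⟨-x, Submodule.neg_mem _ hx, ExI_inv (W_F hF hx)⟩

omit hF hg in
theorem mem_P1 (hF : ∀ x ∈ g, x ∈ (J887.matFiltR N).F 1) (hg : ∀ x ∈ g, ∀ y ∈ g, br x y ∈ g)
    {u : ℤ → (Mt N)ˣ} : u ∈ P1 hF hg D ↔ ∃ x ∈ W g D 0 0, u = ExI x := Iff.rfl

/-- polynomial sequences with values in `Λ` -/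
def PL (D : ℕ) (Λ : Subgroup (Mt N)ˣ) : Subgroup (ℤ → (Mt N)ˣ) :=
  P1 hF hg D ⊓ Subgroup.pi Set.univ (fun _ => Λ)

omit hF hg in
theorem mem_PL (hF : ∀ x ∈ g, x ∈ (J887.matFiltR N).F 1) (hg : ∀ x ∈ g, ∀ y ∈ g, br x y ∈ g)
    {Λ : Subgroup (Mt N)ˣ} {u : ℤ → (Mt N)ˣ} :
    u ∈ PL hF hg D Λ ↔ u ∈ P1 hF hg D ∧ ∀ t, u t ∈ Λ := by
  unfold PL
  rw [Subgroup.mem_inf, Subgroup.mem_pi]
  simp

variable {Λ : Subgroup (Mt N)ˣ}

theorem red {ι : Type} [DecidableEq ι] (l : ℕ) (s : Finset ι) (c : ι → (ℤ → Mt N))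
    (hc : ∀ i, c i ∈ W g D l 0)
    (hΛ : ∀ i, ∀ (n : ℤ) (t : ℤ), Eu (((n : ℝ) • c i) t) ∈ Λ) (n : ι → ℤ) {x : ℤ → Mt N}
    (hx : x ∈ W g D l 0) :
    ∃ γ ∈ PL hF hg D Λ, ∃ j ∈ W g D (l + 1) 0,
      ExI x * γ = ExI (x - ∑ i ∈ s, (n i : ℝ) • c i + j) := by
  induction s using Finset.induction_on with
  | empty => exact ⟨1, Subgroup.one_mem _, 0, Submodule.zero_mem _, by simp⟩
  | insert i s hi ih =>
    obtain ⟨γ, hγ, j, hj, h⟩ := ih
    have h0 : ∀ x ∈ W g D l 0, x ∈ W g D 0 0 := fun x hx => W_le (Nat.zero_le _) le_rfl hx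
    have h1 : x - ∑ i ∈ s, (n i : ℝ) • c i + j ∈ W g D l 0 :=
      Submodule.add_mem _ (Submodule.sub_mem _ hx (Submodule.sum_mem _ fun i _ =>
        Submodule.smul_mem _ _ (hc i))) (W_le (Nat.le_succ l) le_rfl hj)
    have h2 : ((-n i : ℤ) : ℝ) • c i ∈ W g D l 0 := Submodule.smul_mem _ _ (hc i)
    obtain ⟨j', hj', h3⟩ := W_mul_add (l := l + 1) (q := 0) hF hg
      (h0 _ h1) (h0 _ h2) (W_br_le hg (by omega) le_rfl h1 h2)
    refine ⟨γ * ExI (((-n i : ℤ) : ℝ) • c i), Subgroup.mul_mem _ hγ ?_, j + j',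
      Submodule.add_mem _ hj hj', ?_⟩
    · exact (mem_PL hF hg).2 ⟨⟨_, h0 _ h2, rfl⟩, fun t => hΛ i _ t⟩
    · rw [← mul_assoc, h, h3, sum_insert hi]
      congr 1
      push_cast
      rw [neg_smul]
      abel

theorem decomp (l : ℕ) {J : Type} [Fintype J] (b : J → Mt N) (hb : ∀ j, b j ∈ LL g l)
    (hsp : LL g l ≤ Submodule.span ℝ (Set.range b)) {x : ℤ → Mt N} (hx : x ∈ W g D l 0) :
    ∃ r : Fin (D * (l + 1) + 1) × J → ℝ,
      x - ∑ i, r i • bnx (i.1 : ℕ) (b i.2) ∈ W g D (l + 1) 0 := by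
  have key : W g D l 0 ≤ Submodule.span ℝ (Set.range fun i : Fin (D * (l + 1) + 1) × J =>
      bnx (i.1 : ℕ) (b i.2)) ⊔ W g D (l + 1) 0 := by
    have hWd : W g D l 0 = Submodule.span ℝ (WS g D l 0) := by unfold W; rfl
    rw [hWd]
    refine Submodule.span_le.2 ?_
    rintro _ ⟨l', m, h1, h2, h3, u, hu, rfl⟩
    rcases Nat.lt_or_ge l l' with h4 | h4
    · exact Submodule.mem_sup_right (mono_mem hu h4 h2 h3)
    · have h5 : l = l' := le_antisymm h1 h4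
      subst h5
      refine Submodule.mem_sup_left ((Submodule.span_le.2 ?_ : _ ≤ _) (mono_mem_span m u))
      rintro _ ⟨j, hj, rfl⟩
      have h6 := Submodule.mem_map_of_mem (f := bnL j) (hsp hu)
      rw [Submodule.map_span] at h6
      have h7 : bnx j u ∈ Submodule.span ℝ (Set.range fun i : Fin (D * (l + 1) + 1) × J =>
          bnx (i.1 : ℕ) (b i.2)) := by
        refine Submodule.span_mono ?_ h6
        rintro _ ⟨_, ⟨k, rfl⟩, rfl⟩
        exact ⟨(⟨j, by omega⟩, k), rfl⟩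
      have h8 : dpx j u = (j.factorial : ℝ) • bnx j u := by
        unfold bnx
        rw [smul_smul, mul_inv_cancel₀ (by positivity), one_smul]
      rw [h8]
      exact Submodule.smul_mem _ _ h7
  obtain ⟨y, hy, z, hz, h⟩ := Submodule.mem_sup.1 (key hx)
  rw [Submodule.mem_span_range_iff_exists_fun] at hy
  obtain ⟨r, hr⟩ := hy
  refine ⟨r, ?_⟩
  rw [hr, ← h, add_sub_cancel_left]
  exact hz

variable (hsp : g ≤ Submodule.span ℝ {x | x ∈ g ∧ Eu x ∈ Λ})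
include hsp

theorem cpt_aux (k : ℕ) : ∀ l : ℕ, N ≤ l + k → ∃ C : Set (ℤ → (Mt N)ˣ), IsCompact C ∧
    (∀ c ∈ C, c ∈ P1 hF hg D) ∧
    ∀ x ∈ W g D l 0, ∃ c ∈ C, ∃ γ ∈ PL hF hg D Λ, ExI x = c * γ := by
  classical
  induction k with
  | zero =>
    intro l hl
    refine ⟨{1}, isCompact_singleton, ?_, ?_⟩
    · rintro c rfl
      exact Subgroup.one_mem _
    · intro x hx
      rw [W_bot_l hF (by omega) hx]
      exact ⟨1, rfl, 1, Subgroup.one_mem _, by rw [ExI_zero, mul_one]⟩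
  | succ k ih =>
    intro l hl
    obtain ⟨C, hC, hC2, hC3⟩ := ih (l + 1) (by omega)
    obtain ⟨J, hJ, b, hb, hbΛ, hbsp⟩ := exists_family hF hg hsp l
    set ι := Fin (D * (l + 1) + 1) × J with hι
    set c : ι → (ℤ → Mt N) := fun i => bnx (i.1 : ℕ) (b i.2) with hc
    have hcW : ∀ i, c i ∈ W g D l 0 := fun i => bnx_mem (hb i.2) (by omega)
    have h0 : ∀ x ∈ W g D l 0, x ∈ W g D 0 0 := fun x hx => W_le (Nat.zero_le _) le_rfl hx
    have hcΛ : ∀ i, ∀ (n : ℤ) (t : ℤ), Eu (((n : ℝ) • c i) t) ∈ Λ := by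
      intro i n t
      obtain ⟨z, hz⟩ := bnx_int (N := N) (i.1 : ℕ) t
      have h1 : ((n : ℝ) • c i) t = ((n * z : ℤ) : ℝ) • b i.2 := by
        rw [Pi.smul_apply, hc]
        simp only
        rw [hz, smul_smul]
        push_cast
        rfl
      rw [h1, ← Eu_zpow (hF _ (LL_anti hg (Nat.zero_le l) (hb i.2)))]
      exact Λ.zpow_mem (hbΛ i.2) _
    -- the compact set
    set Y : (ι → ℝ) → (ℤ → Mt N) := fun s => ∑ i, s i • c i with hY
    have hYW : ∀ s, Y s ∈ W g D l 0 := fun s => Submodule.sum_mem _ fun i _ =>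
      Submodule.smul_mem _ _ (hcW i)
    have hYc : Continuous Y := by
      refine continuous_finset_sum _ fun i _ => ?_
      exact (continuous_apply i).smul continuous_const
    have hEc : Continuous fun s => ExI (Y s) := continuous_coeI hYc fun s => W_F hF (hYW s)
    have hcube : IsCompact (Set.pi Set.univ fun _ : ι => Set.Icc (0 : ℝ) 1) :=
      isCompact_univ_pi fun _ => isCompact_Icc
    set C' : Set (ℤ → (Mt N)ˣ) := (fun p : (ι → ℝ) × (ℤ → (Mt N)ˣ) => ExI (Y p.1) * p.2) ''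
      ((Set.pi Set.univ fun _ : ι => Set.Icc (0 : ℝ) 1) ×ˢ C) with hC'
    refine ⟨C', ?_, ?_, ?_⟩
    · exact (hcube.prod hC).image ((hEc.comp continuous_fst).mul continuous_snd)
    · rintro _ ⟨⟨s, c0⟩, ⟨_, hc0⟩, rfl⟩
      exact Subgroup.mul_mem _ ⟨_, h0 _ (hYW s), rfl⟩ (hC2 c0 hc0)
    · intro x hx
      obtain ⟨r, hr⟩ := decomp hF hg l b hb hbsp hx
      obtain ⟨γ, hγ, j, hj, h1⟩ := red hF hg l Finset.univ c hcW hcΛ (fun i => ⌊r i⌋) hx
      set s : ι → ℝ := fun i => Int.fract (r i) with hs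
      -- the remainder
      have h2 : x - ∑ i, ((⌊r i⌋ : ℤ) : ℝ) • c i + j - Y s ∈ W g D (l + 1) 0 := by
        have h3 : x - ∑ i, ((⌊r i⌋ : ℤ) : ℝ) • c i + j - Y s = (x - ∑ i, r i • c i) + j := by
          have h4 : ∑ i, r i • c i = ∑ i, ((⌊r i⌋ : ℤ) : ℝ) • c i + Y s := by
            rw [hY]
            simp only
            rw [← sum_add_distrib]
            refine sum_congr rfl fun i _ => ?_
            rw [← add_smul, hs]
            simp only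
            rw [Int.floor_add_fract]
          rw [h4]
          abel
        rw [h3]
        exact Submodule.add_mem _ hr hj
      set w := x - ∑ i, ((⌊r i⌋ : ℤ) : ℝ) • c i + j with hw
      have hwW : w ∈ W g D l 0 := by
        have := Submodule.add_mem _ (W_le (Nat.le_succ l) le_rfl h2) (hYW s)
        rwa [sub_add_cancel] at this
      have h5 : br (-(Y s)) w ∈ W g D (l + 1) 0 := by
        have e : br (-(Y s)) w = -(br (Y s) (w - Y s)) := by unfold br; noncomm_ring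
        rw [e]
        exact Submodule.neg_mem _ (W_br_le hg (by omega) le_rfl (hYW s) h2)
      obtain ⟨j', hj', h6⟩ := W_mul_add hF hg
        (Submodule.neg_mem _ (h0 _ (hYW s))) (h0 _ hwW) h5
      have h7 : -(Y s) + w + j' ∈ W g D (l + 1) 0 := by
        rw [neg_add_eq_sub]
        exact Submodule.add_mem _ h2 hj'
      obtain ⟨c0, hc0, γ0, hγ0, h8⟩ := hC3 _ h7
      refine ⟨ExI (Y s) * c0, ⟨(s, c0), ⟨?_, hc0⟩, rfl⟩, γ0 * γ⁻¹,
        Subgroup.mul_mem _ hγ0 (Subgroup.inv_mem _ hγ), ?_⟩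
      · intro i _
        exact ⟨Int.fract_nonneg _, (Int.fract_lt_one _).le⟩
      · have h9 : ExI w = ExI (Y s) * (c0 * γ0) := by
          rw [← h8, ← h6, ← ExI_inv (W_F hF (hYW s)), mul_inv_cancel_left]
        calc ExI x = (ExI x * γ) * γ⁻¹ := by rw [mul_inv_cancel_right]
          _ = ExI (Y s) * c0 * (γ0 * γ⁻¹) := by
            rw [h1, h9]
            simp only [mul_assoc]

/-- **Compactness.** -/
theorem cpt : ∃ C : Set (ℤ → (Mt N)ˣ), IsCompact C ∧ (∀ c ∈ C, c ∈ P1 hF hg D) ∧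
    ∀ u ∈ P1 hF hg D, ∃ c ∈ C, ∃ γ ∈ PL hF hg D Λ, u = c * γ := by
  obtain ⟨C, h1, h2, h3⟩ := cpt_aux (D := D) hF hg hsp N 0 (by omega)
  refine ⟨C, h1, h2, ?_⟩
  rintro _ ⟨x, hx, rfl⟩
  exact h3 x hx

end

end Pool.Agent.Helper75x.NR
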