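import Pool.Agent.Helper75x.NR.LieG

/-!
# The elements of the group of polynomial sequences attached to a translation and polynomials
-/

set_option autoImplicit false

namespace Pool.Agent.Helper75x.NR

open Pool.Agent.TH91.NB Pool.Agent.TH91.RF Finset Topology Filter
open Pool.Agent.Helper509.RD

set_option maxHeartbeats 400000

variable {ι : Type} {N : ℕ}

/-- products of exponentials of elements of a Lie algebra -/
theorem Eu_mul_mem {K : Submodule ℝ (Mt N)} (hK : ∀ x ∈ K, x ∈ (J887.matFiltR N).F 1)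
    (hb : ∀ x ∈ K, ∀ y ∈ K, br x y ∈ K) {x y : Mt N} (hx : x ∈ K) (hy : y ∈ K) :
    ∃ z ∈ K, Eu x * Eu y = Eu z := by
  obtain ⟨z, hz, h⟩ := ExI_mul (I := Unit)
    (V := K.comap (LinearMap.proj (R := ℝ) (φ := fun _ : Unit => Mt N) ()))
    (fun f hf => mem_filtI.2 fun _ => hK _ hf) (fun f hf f' hf' => hb _ hf _ hf')
    (x := fun _ => x) (y := fun _ => y) hx hy
  exact ⟨z (), hz, congrFun h ()⟩

/-! ### polynomials -/

/-- the difference of the values of the polynomial -/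
def eZ (p : ι → Polynomial ℤ) (n : ℤ) (q : ι × ℤ) : ℤ :=
  (p q.1).eval (q.2 + n) - (p q.1).eval q.2

theorem eZ_add (p : ι → Polynomial ℤ) (n m : ℤ) (q : ι × ℤ) :
    eZ p (n + m) q = eZ p n q + eZ p m (q.1, q.2 + n) := by
  unfold eZ
  simp only
  rw [← add_assoc]
  ring

/-- the real polynomial `τ ↦ p (t + τ) - p t` -/
noncomputable def eP (p : ι → Polynomial ℤ) (q : ι × ℤ) : Polynomial ℝ :=
  ((p q.1).map (Int.castRingHom ℝ)).comp (Polynomial.X + Polynomial.C (q.2 : ℝ)) -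
    Polynomial.C (((p q.1).eval q.2 : ℤ) : ℝ)

theorem eval_map_int (P : Polynomial ℤ) (n : ℤ) :
    (P.map (Int.castRingHom ℝ)).eval (n : ℝ) = ((P.eval n : ℤ) : ℝ) := by
  rw [Polynomial.eval_map]
  have := Polynomial.eval₂_at_apply (p := P) (Int.castRingHom ℝ) n
  simpa using this

theorem eP_eval (p : ι → Polynomial ℤ) (q : ι × ℤ) (n : ℤ) :
    (eP p q).eval (n : ℝ) = (eZ p n q : ℝ) := by
  unfold eP eZ
  rw [Polynomial.eval_sub, Polynomial.eval_C, Polynomial.eval_comp, Polynomial.eval_add,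
    Polynomial.eval_X, Polynomial.eval_C, ← Int.cast_add, eval_map_int, Int.cast_sub, add_comm n]

theorem eP_zero (p : ι → Polynomial ℤ) (q : ι × ℤ) : (eP p q).eval 0 = 0 := by
  have := eP_eval p q 0
  rw [Int.cast_zero] at this
  rw [this]
  unfold eZ
  simp

theorem eP_deg {p : ι → Polynomial ℤ} {D : ℕ} (hD : ∀ i, (p i).natDegree ≤ D) (q : ι × ℤ) :
    (eP p q).natDegree ≤ D := by
  unfold eP
  refine (Polynomial.natDegree_sub_le _ _).trans (max_le ?_ ?_)
  · refine (Polynomial.natDegree_comp_le).trans ?_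
    have h1 : (Polynomial.X + Polynomial.C (q.2 : ℝ)).natDegree ≤ 1 := by
      rw [Polynomial.natDegree_X_add_C]
    calc _ ≤ D * 1 := Nat.mul_le_mul ((Polynomial.natDegree_map_le).trans (hD _)) h1
      _ = D := mul_one D
  · rw [Polynomial.natDegree_C]
    exact Nat.zero_le _

theorem eP_deriv (p : ι → Polynomial ℤ) (q : ι × ℤ) (n : ℤ) :
    (Polynomial.derivative (eP p q)).eval (n : ℝ) =
      (((Polynomial.derivative (p q.1)).eval (q.2 + n) : ℤ) : ℝ) := by
  unfold eP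
  rw [Polynomial.derivative_sub, Polynomial.derivative_C, sub_zero, Polynomial.derivative_comp,
    Polynomial.derivative_add, Polynomial.derivative_X, Polynomial.derivative_C, add_zero, one_mul,
    Polynomial.eval_comp, Polynomial.eval_add, Polynomial.eval_X, Polynomial.eval_C,
    Polynomial.derivative_map, ← Int.cast_add, eval_map_int, add_comm n]

/-! ### membership -/

variable {g : Submodule ℝ (Mt N)} {D : ℕ}

theorem poly_mem {f : Polynomial ℝ} (hf : f.natDegree ≤ D) {x : Mt N} (hx : x ∈ g) :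
    (fun t : ℤ => f.eval (t : ℝ) • x) ∈ W g D 0 0 := by
  have e : (fun t : ℤ => f.eval (t : ℝ) • x) =
      ∑ j ∈ Finset.range (D + 1), f.coeff j • mono j x := by
    funext t
    rw [Finset.sum_apply, Polynomial.eval_eq_sum_range' (Nat.lt_succ_of_le hf), Finset.sum_smul]
    refine Finset.sum_congr rfl fun j _ => ?_
    unfold mono
    rw [Pi.smul_apply, smul_smul]
  rw [e]
  refine Submodule.sum_mem _ fun j hj => Submodule.smul_mem _ _ ?_
  rw [Finset.mem_range] at hj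
  have h1 : x ∈ LL g 0 := hx
  refine mono_mem h1 le_rfl (by omega) ?_
  have : (D + 1) * (0 + 1) = D + 1 := by ring
  omega

/-- `t ↦ (p (t + n) - p t) M` -/
noncomputable def eM (p : ι → Polynomial ℤ) (M : Mt N) (n : ℤ) : ι × ℤ → Mt N :=
  fun q => (eZ p n q : ℝ) • M

theorem eM_mem {p : ι → Polynomial ℤ} (hD : ∀ i, (p i).natDegree ≤ D) {M : Mt N} (hM : M ∈ g)
    (n : ℤ) : eM p M n ∈ WI ι g D 0 0 := by
  intro i
  have h1 : ∀ t : ℤ, (eZ p n (i, t) : ℝ) =
      ((((p i).map (Int.castRingHom ℝ)).comp (Polynomial.X + Polynomial.C (n : ℝ)) -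
        (p i).map (Int.castRingHom ℝ))).eval (t : ℝ) := by
    intro t
    unfold eZ
    rw [Polynomial.eval_sub, Polynomial.eval_comp, Polynomial.eval_add, Polynomial.eval_X,
      Polynomial.eval_C, eval_map_int, ← Int.cast_add, eval_map_int, Int.cast_sub]
  have h2 : (fun t => eM p M n (i, t)) = fun t : ℤ =>
      ((((p i).map (Int.castRingHom ℝ)).comp (Polynomial.X + Polynomial.C (n : ℝ)) -
        (p i).map (Int.castRingHom ℝ))).eval (t : ℝ) • M := by
    funext t
    unfold eM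
    rw [h1]
  rw [h2]
  refine poly_mem ?_ hM
  refine (Polynomial.natDegree_sub_le _ _).trans (max_le ?_
    ((Polynomial.natDegree_map_le).trans (hD i)))
  refine (Polynomial.natDegree_comp_le).trans ?_
  have h1 : (Polynomial.X + Polynomial.C (n : ℝ)).natDegree ≤ 1 := by
    rw [Polynomial.natDegree_X_add_C]
  calc _ ≤ D * 1 := Nat.mul_le_mul ((Polynomial.natDegree_map_le).trans (hD _)) h1
    _ = D := mul_one D

/-- constant sequences -/
def Cs (ι : Type) (v : Mt N) : ι × ℤ → Mt N := fun _ => v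

theorem Cs_mem {v : Mt N} (hv : v ∈ g) : Cs ι v ∈ WI ι g D 0 0 := by
  intro i
  have : (fun t : ℤ => Cs ι v (i, t)) = fun t : ℤ => (Polynomial.C (1 : ℝ)).eval (t : ℝ) • v := by
    funext t
    rw [Polynomial.eval_C, one_smul]
    rfl
  rw [this]
  exact poly_mem (by rw [Polynomial.natDegree_C]; exact Nat.zero_le _) hv

theorem Cs_smul (s : ℝ) (v : Mt N) : Cs ι (s • v) = s • Cs ι v := rfl

/-- `t ↦ p' t • v` -/
noncomputable def Ys (p : ι → Polynomial ℤ) (v : Mt N) : ι × ℤ → Mt N :=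
  fun q => (((Polynomial.derivative (p q.1)).eval q.2 : ℤ) : ℝ) • v

theorem Ys_mem {p : ι → Polynomial ℤ} (hD : ∀ i, (p i).natDegree ≤ D) {v : Mt N} (hv : v ∈ g) :
    Ys p v ∈ WI ι g D 0 0 := by
  intro i
  have : (fun t : ℤ => Ys p v (i, t)) = fun t : ℤ =>
      ((Polynomial.derivative (p i)).map (Int.castRingHom ℝ)).eval (t : ℝ) • v := by
    funext t
    unfold Ys
    rw [eval_map_int]
  rw [this]
  refine poly_mem ((Polynomial.natDegree_map_le).trans ?_) hv
  exact (Polynomial.natDegree_derivative_le _).trans ((Nat.sub_le _ _).trans (hD i))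

theorem Ys_smul (p : ι → Polynomial ℤ) (s : ℝ) (v : Mt N) : Ys p (s • v) = s • Ys p v := by
  funext q
  unfold Ys
  rw [Pi.smul_apply, smul_comm]

theorem Ys_add (p : ι → Polynomial ℤ) (v w : Mt N) : Ys p (v + w) = Ys p v + Ys p w := by
  funext q
  unfold Ys
  rw [Pi.add_apply, smul_add]

theorem br_Ys_Cs (p : ι → Polynomial ℤ) (v w : Mt N) : br (Ys p v) (Cs ι w) = Ys p (br v w) := by
  funext q
  simp only [br, Ys, Cs, Pi.sub_apply, Pi.mul_apply]
  rw [smul_mul_assoc, mul_smul_comm, smul_sub]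

section grp

variable (hF : ∀ x ∈ g, x ∈ (J887.matFiltR N).F 1) (hg : ∀ x ∈ g, ∀ y ∈ g, br x y ∈ g)
variable {p : ι → Polynomial ℤ} (hD : ∀ i, (p i).natDegree ≤ D) {M : Mt N} (hM : M ∈ g)

/-- the element `w ↦ (t ↦ a ^ (p (t + n) - p t) w (t + n))` -/
noncomputable def RR (n : ℤ) : PH hF hg ι D :=
  ⟨⟨ExI (eM p M n), Multiplicative.ofAdd n⟩, ⟨eM p M n, eM_mem hD hM n, rfl⟩⟩

theorem RR_mul (n m : ℤ) :
    RR hF hg hD hM n * RR hF hg hD hM m = RR hF hg hD hM (n + m) := by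
  apply Subtype.ext
  refine SemidirectProduct.ext ?_ ?_
  · funext q
    change Eu ((eZ p n q : ℝ) • M) * Eu ((eZ p m (q.1, q.2 + n) : ℝ) • M) =
      Eu ((eZ p (n + m) q : ℝ) • M)
    rw [eZ_add, Int.cast_add, add_smul, Eu_add (smulR_mem (hF M hM) _) (smulR_mem (hF M hM) _)]
    exact ((Commute.refl M).smul_left _).smul_right _
  · rfl

theorem RR_zpow (n : ℤ) : (RR hF hg hD hM 1) ^ n = RR hF hg hD hM n := by
  let f : Multiplicative ℤ →* PH hF hg ι D :=
    MonoidHom.mk' (fun n => RR hF hg hD hM (Multiplicative.toAdd n)) (fun a b => by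
      rw [toAdd_mul, RR_mul])
  have h1 : f (Multiplicative.ofAdd 1) = RR hF hg hD hM 1 := rfl
  have h2 : f (Multiplicative.ofAdd n) = (f (Multiplicative.ofAdd 1)) ^ n := by
    rw [← map_zpow, ← ofAdd_zsmul, smul_eq_mul, mul_one]
  rw [← h1, ← h2]
  rfl

theorem RR_comm : Commute (RR hF hg hD hM 1) (Eh hF hg D (Cs ι M)) := by
  apply Subtype.ext
  rw [Subgroup.coe_mul, Subgroup.coe_mul, Eh_val hF hg (Cs_mem hM)]
  refine SemidirectProduct.ext ?_ ?_
  · funext q
    have h1 : ∀ r : ℝ, Commute (r • M) M := fun r => (Commute.refl M).smul_left r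
    change Eu ((eZ p 1 q : ℝ) • M) * Eu M = Eu M * Eu ((eZ p 1 (q.1, q.2 + 0) : ℝ) • M)
    rw [add_zero, ← Eu_add (smulR_mem (hF M hM) _) (hF M hM) (h1 _),
      ← Eu_add (hF M hM) (smulR_mem (hF M hM) _) (h1 _).symm, add_comm]
  · change Multiplicative.ofAdd (1 : ℤ) * 1 = 1 * Multiplicative.ofAdd (1 : ℤ)
    rw [mul_one, one_mul]

theorem AdP_RR (n : ℤ) (x : ι × ℤ → Mt N) (q : ι × ℤ) :
    AdP hF hg (RR hF hg hD hM n) x q =
      IsNilpotent.exp ((eP p q).eval (n : ℝ) • M) * x (q.1, q.2 + n) *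
        IsNilpotent.exp (-((eP p q).eval (n : ℝ) • M)) := by
  unfold AdP
  change (Eu ((eZ p n q : ℝ) • M) : Mt N) * x (q.1, q.2 + n) *
    (((Eu ((eZ p n q : ℝ) • M))⁻¹ : (Mt N)ˣ) : Mt N) = _
  rw [Eu_val (smulR_mem (hF M hM) _), Eu_inv_val (smulR_mem (hF M hM) _), eP_eval]

theorem AdP_RR_Cs (n : ℤ) (v : Mt N) :
    AdP hF hg (RR hF hg hD hM n) (Cs ι v) = fun q =>
      IsNilpotent.exp ((eP p q).eval (n : ℝ) • M) * v *
        IsNilpotent.exp (-((eP p q).eval (n : ℝ) • M)) := by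
  funext q
  rw [AdP_RR]
  rfl

theorem AdP_RR_Ys (n : ℤ) (v : Mt N) :
    AdP hF hg (RR hF hg hD hM n) (Ys p v) = YD M v (eP p) (n : ℝ) := by
  funext q
  rw [AdP_RR]
  unfold YD Ys
  rw [eP_deriv, mul_smul_comm, smul_mul_assoc]

theorem YD_zero (v : Mt N) : YD M v (eP p) 0 = Ys p v := by
  funext q
  unfold YD Ys
  have h := eP_deriv p q 0
  rw [Int.cast_zero, add_zero] at h
  rw [h, eP_zero, zero_smul, neg_zero, IsNilpotent.exp_zero, one_mul, mul_one]

end grp

end Pool.Agent.Helper75x.NR
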