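import Pool.Agent.Helper75x.NR.Lie
import Pool.Agent.TH91.RF.Lat

/-!
# The exponential of functions with values in strictly upper triangular matrices
-/

set_option autoImplicit false

namespace Pool.Agent.Helper75x.NR

open Pool.Agent.TH91.NB Pool.Agent.TH91.RF Pool.Agent.TH91.LG Finset Topology Filter

variable {N : ℕ} {I : Type}

/-- the exponential of a strictly upper triangular matrix, as a unit -/
noncomputable def Eu (x : Mt N) : (Mt N)ˣ := by
  classical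
  exact if h : x ∈ (J887.matFiltR N).F 1 then J1261.ue x h else 1

theorem Eu_val {x : Mt N} (h : x ∈ (J887.matFiltR N).F 1) : (Eu x : Mt N) = IsNilpotent.exp x := by
  classical
  unfold Eu
  rw [dif_pos h, J1261.ue_val]

theorem Eu_inv {x : Mt N} (h : x ∈ (J887.matFiltR N).F 1) : (Eu x)⁻¹ = Eu (-x) := by
  rw [inv_eq_iff_mul_eq_one]
  apply Units.ext
  rw [Units.val_mul, Eu_val h, Eu_val (Submodule.neg_mem _ h), Units.val_one]
  exact IsNilpotent.exp_mul_exp_neg_self ((J887.matFiltR N).nilp h)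

theorem Eu_inv_val {x : Mt N} (h : x ∈ (J887.matFiltR N).F 1) :
    (((Eu x)⁻¹ : (Mt N)ˣ) : Mt N) = IsNilpotent.exp (-x) := by
  rw [Eu_inv h, Eu_val (Submodule.neg_mem _ h)]

theorem Eu_zero : Eu (0 : Mt N) = 1 := by
  apply Units.ext
  rw [Eu_val (Submodule.zero_mem _), IsNilpotent.exp_zero, Units.val_one]

theorem smulR_mem {x : Mt N} {k : ℕ} (h : x ∈ (J887.matFiltR N).F k) (c : ℝ) :
    c • x ∈ (J887.matFiltR N).F k := (J887.FR N k).smul_mem c h

theorem Eu_add {x y : Mt N} (hx : x ∈ (J887.matFiltR N).F 1) (hy : y ∈ (J887.matFiltR N).F 1)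
    (h : Commute x y) : Eu (x + y) = Eu x * Eu y := by
  apply Units.ext
  rw [Units.val_mul, Eu_val hx, Eu_val hy, Eu_val (Submodule.add_mem _ hx hy)]
  exact IsNilpotent.exp_add_of_commute h ((J887.matFiltR N).nilp hx) ((J887.matFiltR N).nilp hy)

theorem Eu_zpow {x : Mt N} (h : x ∈ (J887.matFiltR N).F 1) (k : ℤ) : (Eu x) ^ k = Eu ((k : ℝ) • x) := by
  apply Units.ext
  rw [Eu_val (smulR_mem h _)]
  have h1 : Eu x = J1261.ue x h := Units.ext (Eu_val h)
  rw [h1, J1261.ue_zpow]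

theorem Eu_inj {x y : Mt N} (hx : x ∈ (J887.matFiltR N).F 1) (hy : y ∈ (J887.matFiltR N).F 1)
    (h : Eu x = Eu y) : x = y := by
  refine (J887.matFiltR N).exp_inj hx hy ?_
  rw [← Eu_val hx, ← Eu_val hy, h]

theorem continuous_Eu_comp {X : Type*} [TopologicalSpace X] {f : X → Mt N} (hf : Continuous f)
    (h : ∀ x, f x ∈ (J887.matFiltR N).F 1) : Continuous fun x => Eu (f x) := by
  rw [Units.continuous_iff]
  constructor
  · have : (Units.val ∘ fun x => Eu (f x)) = J887.Ex N ∘ f := by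
      funext x
      simp only [Function.comp_apply]
      rw [Eu_val (h x), (J887.matFiltR N).exp_eq (h x)]
      rfl
    rw [this]
    exact J887.Ex_continuous.comp hf
  · have : (fun x => (((Eu (f x))⁻¹ : (Mt N)ˣ) : Mt N)) = J887.Ex N ∘ (fun x => -(f x)) := by
      funext x
      simp only [Function.comp_apply]
      rw [Eu_inv_val (h x), (J887.matFiltR N).exp_eq (Submodule.neg_mem _ (h x))]
      rfl
    rw [this]
    exact J887.Ex_continuous.comp hf.neg

/-! ### functions -/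

/-- pointwise filtration -/
noncomputable def filtI (I : Type) (N : ℕ) : Filt (I → Mt N) N where
  F k := Submodule.pi Set.univ (fun _ => (J887.matFiltR N).F k)
  anti := by
    intro i j hij x hx
    rw [Submodule.mem_pi] at hx ⊢
    exact fun t ht => (J887.matFiltR N).anti hij (hx t ht)
  mul := by
    intro i j x y hx hy
    rw [Submodule.mem_pi] at hx hy ⊢
    exact fun t ht => (J887.matFiltR N).mul (hx t ht) (hy t ht)
  bot := by
    intro x hx
    rw [Submodule.mem_pi] at hx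
    funext t
    exact (J887.matFiltR N).bot _ (hx t (Set.mem_univ t))

theorem mem_filtI {k : ℕ} {x : I → Mt N} :
    x ∈ (filtI I N).F k ↔ ∀ t, x t ∈ (J887.matFiltR N).F k := by
  change x ∈ Submodule.pi Set.univ (fun _ => (J887.matFiltR N).F k) ↔ _
  rw [Submodule.mem_pi]
  simp

theorem exp_apply {x : I → Mt N} (hx : x ∈ (filtI I N).F 1) (t : I) :
    IsNilpotent.exp x t = IsNilpotent.exp (x t) :=
  ((filtI I N).nilp hx).map_exp (Pi.evalRingHom (fun _ => Mt N) t)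

/-- the exponential of a function -/
noncomputable def ExI (x : I → Mt N) : I → (Mt N)ˣ := fun t => Eu (x t)

/-- values of a function with values in the units -/
def vl (u : I → (Mt N)ˣ) : I → Mt N := fun t => (u t : Mt N)

theorem vl_inj {u v : I → (Mt N)ˣ} (h : vl u = vl v) : u = v := by
  funext t
  exact Units.ext (congrFun h t)

theorem vl_mul (u v : I → (Mt N)ˣ) : vl (u * v) = vl u * vl v := rfl

theorem vl_one : vl (1 : I → (Mt N)ˣ) = 1 := rfl

theorem vl_ExI {x : I → Mt N} (hx : x ∈ (filtI I N).F 1) : vl (ExI x) = IsNilpotent.exp x := by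
  funext t
  rw [exp_apply hx]
  exact Eu_val (mem_filtI.1 hx t)

theorem ExI_inv {x : I → Mt N} (hx : x ∈ (filtI I N).F 1) : (ExI x)⁻¹ = ExI (-x) := by
  funext t
  exact Eu_inv (mem_filtI.1 hx t)

theorem ExI_zero : ExI (0 : I → Mt N) = 1 := by
  funext t
  exact Eu_zero

theorem smulI_mem {x : I → Mt N} {k : ℕ} (h : x ∈ (filtI I N).F k) (c : ℝ) :
    c • x ∈ (filtI I N).F k := mem_filtI.2 fun t => smulR_mem (mem_filtI.1 h t) c

theorem ExI_nsmul {x : I → Mt N} (hx : x ∈ (filtI I N).F 1) (n : ℕ) :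
    ExI ((n : ℝ) • x) = ExI x ^ n := by
  funext t
  have := Eu_zpow (mem_filtI.1 hx t) (n : ℤ)
  rw [zpow_natCast] at this
  rw [Pi.pow_apply]
  unfold ExI
  rw [this, Pi.smul_apply]
  push_cast
  rfl

theorem ExI_conj {x : I → Mt N} (hx : x ∈ (filtI I N).F 1) (u : I → (Mt N)ˣ)
    (hu : vl u * x * vl u⁻¹ ∈ (filtI I N).F 1) : u * ExI x * u⁻¹ = ExI (vl u * x * vl u⁻¹) := by
  apply vl_inj
  rw [vl_ExI hu, vl_mul, vl_mul, vl_ExI hx]
  symm
  apply exp_conj
  · rw [← vl_mul, mul_inv_cancel, vl_one]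
  · rw [← vl_mul, inv_mul_cancel, vl_one]
  · exact (filtI I N).nilp hx

section lat

variable {V J : Submodule ℝ (I → Mt N)}

theorem bigM_smul_mem (K : Submodule ℝ (I → Mt N)) {x : I → Mt N} (hx : x ∈ K) (q : ℚ) :
    q • x ∈ K := by
  rw [← Rat.cast_smul_eq_qsmul ℝ]
  exact K.smul_mem _ hx

theorem latI (hV : ∀ x ∈ V, x ∈ (filtI I N).F 1) (hb : ∀ x ∈ V, ∀ y ∈ V, br x y ∈ V) :
    LieLat (filtI I N) V.toAddSubgroup :=
  ⟨hV, fun u hu v hv => bigM_smul_mem V (hb u hu v hv) _⟩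

theorem idlI (hJ : J ≤ V) (hb : ∀ x ∈ V, ∀ y ∈ J, br x y ∈ J) :
    LieIdl N V.toAddSubgroup J.toAddSubgroup :=
  ⟨hJ, fun u hu v hv => bigM_smul_mem J (hb u hu v hv) _⟩

theorem ExI_mul_add (hV : ∀ x ∈ V, x ∈ (filtI I N).F 1) (hb : ∀ x ∈ V, ∀ y ∈ V, br x y ∈ V)
    (hJ : J ≤ V) (hJb : ∀ x ∈ V, ∀ y ∈ J, br x y ∈ J) {x y : I → Mt N} (hx : x ∈ V) (hy : y ∈ V)
    (h : br x y ∈ J) : ∃ j ∈ J, ExI x * ExI y = ExI (x + y + j) := by
  obtain ⟨j, hj, h1⟩ := (latI hV hb).exp_mul_add (idlI hJ hJb) hx hy (bigM_smul_mem J h _)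
  refine ⟨j, hj, vl_inj ?_⟩
  rw [vl_mul, vl_ExI (hV x hx), vl_ExI (hV y hy),
    vl_ExI (hV _ (V.add_mem (V.add_mem hx hy) (hJ hj)))]
  exact h1

theorem ExI_mul (hV : ∀ x ∈ V, x ∈ (filtI I N).F 1) (hb : ∀ x ∈ V, ∀ y ∈ V, br x y ∈ V)
    {x y : I → Mt N} (hx : x ∈ V) (hy : y ∈ V) : ∃ z ∈ V, ExI x * ExI y = ExI z := by
  obtain ⟨j, hj, h⟩ := ExI_mul_add hV hb le_rfl hb hx hy (hb x hx y hy)
  exact ⟨_, V.add_mem (V.add_mem hx hy) hj, h⟩

/-- conjugation -/
theorem conj_eq (hV : ∀ x ∈ V, x ∈ (filtI I N).F 1) {w x : I → Mt N} (hw : w ∈ V) (hx : x ∈ V) :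
    vl (ExI w) * x * vl (ExI w)⁻¹ =
      ∑ k ∈ range (N + 1), ((k.factorial : ℚ))⁻¹ • (adr (-w))^[k] x := by
  have hw' := hV w hw
  rw [ExI_inv hw', vl_ExI hw', vl_ExI (Submodule.neg_mem _ hw')]
  rw [mul_assoc, (filtI I N).mul_exp (Submodule.neg_mem _ hw') (hV x hx), ← mul_assoc,
    IsNilpotent.exp_mul_exp_neg_self ((filtI I N).nilp hw'), one_mul]

theorem conj_sub_mem (hV : ∀ x ∈ V, x ∈ (filtI I N).F 1) {K K' : Submodule ℝ (I → Mt N)}
    (hK : K ≤ V) (hK' : K' ≤ K) (hb : ∀ x ∈ V, ∀ y ∈ K, br x y ∈ K') {w x : I → Mt N}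
    (hw : w ∈ V) (hx : x ∈ K) : vl (ExI w) * x * vl (ExI w)⁻¹ - x ∈ K' := by
  rw [conj_eq hV hw (hK hx), sum_range_succ']
  simp only [Nat.factorial_zero, Nat.cast_one, inv_one, one_smul, Function.iterate_zero, id_eq,
    add_sub_cancel_right]
  have h1 : ∀ k : ℕ, (adr (-w))^[k + 1] x ∈ K' := by
    intro k
    have e : ∀ y : I → Mt N, adr (-w) y = br w y := by
      intro y; unfold adr br; noncomm_ring
    induction k with
    | zero =>
      rw [Function.iterate_succ_apply', Function.iterate_zero, id_eq, e]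
      exact hb w hw x hx
    | succ k ih =>
      rw [Function.iterate_succ_apply', e]
      exact hb w hw _ (hK' ih)
  exact K'.sum_mem fun k _ => bigM_smul_mem K' (h1 k) _

end lat

/-! ### The Trotter formula -/

theorem continuous_coeI {X : Type*} [TopologicalSpace X] {f : X → I → Mt N} (hf : Continuous f)
    (h : ∀ x, f x ∈ (filtI I N).F 1) : Continuous fun x => ExI (f x) := by
  refine continuous_pi fun t => ?_
  exact continuous_Eu_comp ((continuous_apply t).comp hf) fun x => mem_filtI.1 (h x) t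

theorem tendsto_ExI {X : Type*} {l : Filter X} {f : X → I → Mt N} {a : I → Mt N}
    (hf : Tendsto f l (𝓝 a)) (h : ∀ x, f x ∈ (filtI I N).F 1) (ha : a ∈ (filtI I N).F 1) :
    Tendsto (fun x => ExI (f x)) l (𝓝 (ExI a)) := by
  have h1 : Continuous fun x : ((filtI I N).F 1 : Set (I → Mt N)) => ExI (x : I → Mt N) :=
    continuous_coeI continuous_subtype_val fun x => x.2
  have h2 : Tendsto (fun x => (⟨f x, h x⟩ : ((filtI I N).F 1 : Set (I → Mt N)))) l
      (𝓝 ⟨a, ha⟩) := tendsto_subtype_rng.2 hf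
  exact (h1.tendsto _).comp h2

theorem trotter {x y : I → Mt N} (hx : x ∈ (filtI I N).F 1) (hy : y ∈ (filtI I N).F 1) :
    Tendsto (fun n : ℕ => (ExI (((n : ℝ) + 1)⁻¹ • x) * ExI (((n : ℝ) + 1)⁻¹ • y)) ^ (n + 1)) atTop
      (𝓝 (ExI (x + y))) := by
  obtain ⟨Z, hZ0, hZ1, hZF, hZ, -⟩ := (filtI I N).bch hx hy
  have hF1 : ∀ n, Z n ∈ (filtI I N).F 1 := fun n => (filtI I N).anti (le_max_left _ _) (hZF n)
  -- the product
  have key : ∀ n : ℕ, (ExI (((n : ℝ) + 1)⁻¹ • x) * ExI (((n : ℝ) + 1)⁻¹ • y)) ^ (n + 1) =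
      ExI (∑ k ∈ range (N + 1), (((n : ℝ) + 1)⁻¹ ^ k * ((n : ℝ) + 1)) • Z k) := by
    intro n
    have hn : ((n : ℝ) + 1) ≠ 0 := by positivity
    have h1 := hZ (((n : ℚ) + 1)⁻¹)
    have c1 : ∀ z : I → Mt N, (((n : ℚ) + 1)⁻¹) • z = (((n : ℝ) + 1)⁻¹) • z := by
      intro z
      rw [← Rat.cast_smul_eq_qsmul ℝ]
      push_cast
      rfl
    have c2 : ∀ (k : ℕ) (z : I → Mt N), (((n : ℚ) + 1)⁻¹) ^ k • z = (((n : ℝ) + 1)⁻¹) ^ k • z := by
      intro k z
      rw [← Rat.cast_smul_eq_qsmul ℝ]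
      push_cast
      rfl
    rw [c1, c1, Finset.sum_congr rfl fun k _ => c2 k (Z k)] at h1
    have h2 : (∑ k ∈ range (N + 1), (((n : ℝ) + 1)⁻¹) ^ k • Z k) ∈ (filtI I N).F 1 :=
      Submodule.sum_mem _ fun k _ => smulI_mem (hF1 k) _
    have h3 : ExI (((n : ℝ) + 1)⁻¹ • x) * ExI (((n : ℝ) + 1)⁻¹ • y) =
        ExI (∑ k ∈ range (N + 1), (((n : ℝ) + 1)⁻¹) ^ k • Z k) := by
      apply vl_inj
      rw [vl_mul, vl_ExI (smulI_mem hx _), vl_ExI (smulI_mem hy _), vl_ExI h2, h1]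
    rw [h3, ← ExI_nsmul h2, smul_sum]
    congr 1
    refine sum_congr rfl fun k _ => ?_
    rw [smul_smul]
    push_cast
    rw [mul_comm]
  simp_rw [key]
  refine tendsto_ExI ?_ (fun n => Submodule.sum_mem _ fun k _ => smulI_mem (hF1 k) _)
    (Submodule.add_mem _ hx hy)
  have hinv : Tendsto (fun n : ℕ => ((n : ℝ) + 1)⁻¹) atTop (𝓝 0) := by
    simpa [one_div] using tendsto_one_div_add_atTop_nhds_zero_nat (𝕜 := ℝ)
  have h1 : ∀ k : ℕ, Tendsto (fun n : ℕ => (((n : ℝ) + 1)⁻¹ ^ k * ((n : ℝ) + 1)) • Z k) atTop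
      (𝓝 ((if k = 1 then (1 : ℝ) else 0) • Z k)) := by
    intro k
    rcases k with _ | _ | k
    · rw [hZ0]; simp
    · refine Tendsto.smul_const ?_ _
      have : (fun n : ℕ => ((n : ℝ) + 1)⁻¹ ^ (0 + 1) * ((n : ℝ) + 1)) = fun _ => 1 := by
        funext n
        have hn : ((n : ℝ) + 1) ≠ 0 := by positivity
        rw [zero_add, pow_one, inv_mul_cancel₀ hn]
      rw [this]
      simp
    · refine Tendsto.smul_const ?_ _
      have : (fun n : ℕ => ((n : ℝ) + 1)⁻¹ ^ (k + 1 + 1) * ((n : ℝ) + 1)) =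
          fun n : ℕ => (((n : ℝ) + 1)⁻¹) ^ (k + 1) := by
        funext n
        have hn : ((n : ℝ) + 1) ≠ 0 := by positivity
        rw [pow_succ, mul_assoc, inv_mul_cancel₀ hn, mul_one]
      rw [this, if_neg (by omega)]
      simpa using hinv.pow (k + 1)
  have h2 := tendsto_finset_sum (range (N + 1)) fun k _ => h1 k
  have e : ∑ k ∈ range (N + 1), (if k = 1 then (1 : ℝ) else 0) • Z k = x + y := by
    rcases Nat.eq_zero_or_pos N with h0 | h0
    · subst h0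
      have hx0 : x = 0 := (filtI I 0).bot x ((filtI I 0).anti (Nat.zero_le _) hx)
      have hy0 : y = 0 := (filtI I 0).bot y ((filtI I 0).anti (Nat.zero_le _) hy)
      rw [hx0, hy0]
      simp
    · rw [Finset.sum_eq_single 1]
      · rw [if_pos rfl, one_smul, hZ1]
      · intro k _ hk
        rw [if_neg hk, zero_smul]
      · intro h
        exact absurd (mem_range.2 (by omega)) h
  rw [e] at h2
  exact h2

end Pool.Agent.Helper75x.NR
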