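import Pool.Agent.Helper75x.NR.Exp

/-!
Project S04319 (MP_35c333_an), tasks F and G.

TASK F.  Data as in TaskB (`h`, `M`, `H`, `Λ`, `a = exp M`), `C : Mt N → Circle` (only its values on `h`
matter), additive and continuous on `h`, trivial on `[h, h]` and `[M, h]`, `C β ^ k = 1` whenever
`exp (M + β) ∈ Λ`, and `C β = C β'` if both `exp (M + β), exp (M + β') ∈ Λ`.  Then `C = 1` on `h`.

PAPER PROOF.  Let `gg = h ⊕ ℝ M` (a Lie algebra with `[gg, gg] ⊆ h`), `χ` a linear functional with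
`χ = 0` on `h`, `χ M = 1` (`M ∉ h` by `hind`), `C'(z) := C (z - χ z • M)` for `z ∈ gg`; `C'` is additive and
trivial on the ideal `h' = span ([h,h] ∪ [M,h])` of `gg`.  `ψ(u) := C'(Lg u)` (`J887.Lg N N`, continuous,
`Lg (exp z) = z`) satisfies `ψ(u v) = ψ(u) ψ(v)` on `exp gg` (`LieLat.exp_mul_add` with the ideal `h'`),
is continuous, `ψ(a) = C'(M) = C 0 = 1`, `ψ(exp (M + β)) = C β`.  Let `γ1 ∈ Λ`, `γ1 = exp (M + β1)`,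
`ω = C β1`, `ω ^ k = 1`.  If `γ ∈ Λ ∩ exp h` then `γ1 γ = exp (M + β)` with `β ∈ h`, so `ψ(γ1 γ) = ω`,
`ψ(γ) = 1`.  Every `γ ∈ Λ ≤ H` is `exp x exp (n M)`, `γ1 ^ (-n) γ ∈ exp h` (use `χ (Lg ·)`), so
`ψ(γ) = ω ^ n`, `ψ(γ) ^ k = 1`.  So `ψ ^ k = 1` on all `a ^ n γ`, hence on `H` (closure, continuity), so
`C x ^ k = 1` for all `x ∈ h`; replace `x` by `x / k`.

TASK G (forward times).  `P`, `Λ` as in TaskA1, `r`, `s` commuting.  If an open set `O` with `O Λ ⊆ O`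
contains some `r ^ n * s ^ m` then it contains one with `n > n0`.
PAPER PROOF.  `L = ⟨r, s⟩ = {r ^ n * s ^ m}`.  `D_n0 := closure {r ^ n s ^ m p : n > n0, p ∈ Λ}`, decreasing,
closed, right `Λ`-invariant; `D := ⋂ D_n0` is nonempty by compactness of `P / Λ`, closed,
right `Λ`-invariant and `L`-invariant.  Let `y ∈ D`; `y ∈ closure (L 1 Λ)`, so by TaskA1
`1 ∈ closure (L y Λ) ⊆ D`; so `L ⊆ D`, `r ^ n * s ^ m ∈ O ∩ D_n0`, and `O` is open.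
-/

set_option autoImplicit false

namespace Pool.Agent.Helper75x.NR

open Pool.Agent.TH91.NB Pool.Agent.TH91.RF Topology

def TaskF : Prop :=
  ∀ (N : ℕ) (h : Submodule ℝ (Mt N)) (M : Mt N) (H Λ : Subgroup (Mt N)ˣ) (a : (Mt N)ˣ),
    (∀ x ∈ h, x ∈ (J887.matFiltR N).F 1) → M ∈ (J887.matFiltR N).F 1 →
    (∀ x ∈ h, ∀ y ∈ h, x * y - y * x ∈ h) → (∀ x ∈ h, M * x - x * M ∈ h) →
    (∀ x ∈ h, ∀ s : ℝ, x = s • M → s = 0) →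
    (a : Mt N) = IsNilpotent.exp M →
    (∀ u : (Mt N)ˣ, u ∈ H ↔ ∃ x ∈ h, ∃ k : ℤ,
      (u : Mt N) = IsNilpotent.exp x * IsNilpotent.exp ((k : ℝ) • M)) →
    Λ ≤ H → (∀ u ∈ H, u ∈ closure {v | ∃ n : ℤ, ∃ γ ∈ Λ, v = a ^ n * γ}) →
    (∃ γ ∈ Λ, ∃ β ∈ h, (γ : Mt N) = IsNilpotent.exp (M + β)) →
    ∀ (C : Mt N → Circle), ContinuousOn C (h : Set (Mt N)) →
      (∀ x ∈ h, ∀ y ∈ h, C (x + y) = C x * C y) →
      (∀ x ∈ h, ∀ y ∈ h, C (x * y - y * x) = 1) → (∀ x ∈ h, C (M * x - x * M) = 1) →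
      ∀ k : ℕ, 0 < k →
      (∀ γ ∈ Λ, ∀ β ∈ h, (γ : Mt N) = IsNilpotent.exp (M + β) → C β ^ k = 1) →
      (∀ γ ∈ Λ, ∀ β ∈ h, ∀ γ' ∈ Λ, ∀ β' ∈ h, (γ : Mt N) = IsNilpotent.exp (M + β) →
        (γ' : Mt N) = IsNilpotent.exp (M + β') → C β = C β') →
      ∀ x ∈ h, C x = 1

def TaskG : Prop :=
  ∀ (P : Type) [Group P] [TopologicalSpace P] [IsTopologicalGroup P] [T2Space P]
    [Group.IsNilpotent P] (Λ : Subgroup P), IsClosed (Λ : Set P) → CompactSpace (P ⧸ Λ) →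
    ∀ (r s : P), Commute r s → ∀ O : Set P, IsOpen O → (∀ x ∈ O, ∀ p ∈ Λ, x * p ∈ O) →
      (∃ n m : ℤ, r ^ n * s ^ m ∈ O) → ∀ n0 : ℤ, ∃ n m : ℤ, n0 < n ∧ r ^ n * s ^ m ∈ O

end Pool.Agent.Helper75x.NR
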