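import Pool.Agent.Helper75x.NR.Elt
import Pool.Agent.Helper75x.NR.StmF
import Pool.Agent.Helper75x.NRA.A2

/-!
# The matrix form of the theorem
-/

set_option autoImplicit false

namespace Pool.Agent.Helper75x.NR

open Pool.Agent.TH91.NB Pool.Agent.TH91.RF Finset Topology Filter
open Pool.Agent.Helper509.RD

set_option maxHeartbeats 400000

variable {ι : Type} {N : ℕ}

/-! ### the Lie algebra `h ⊕ ℝ M` -/

/-- the Lie algebra generated by `h` and `M` -/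
def gM (h : Submodule ℝ (Mt N)) (M : Mt N) : Submodule ℝ (Mt N) := h ⊔ Submodule.span ℝ {M}

theorem mem_gM {h : Submodule ℝ (Mt N)} {M x : Mt N} :
    x ∈ gM h M ↔ ∃ y ∈ h, ∃ s : ℝ, x = y + s • M := by
  unfold gM
  rw [Submodule.mem_sup]
  constructor
  · rintro ⟨y, hy, z, hz, rfl⟩
    obtain ⟨s, rfl⟩ := Submodule.mem_span_singleton.1 hz
    exact ⟨y, hy, s, rfl⟩
  · rintro ⟨y, hy, s, rfl⟩
    exact ⟨y, hy, _, Submodule.mem_span_singleton.2 ⟨s, rfl⟩, rfl⟩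

section basic

variable {h : Submodule ℝ (Mt N)} {M : Mt N}

theorem h_le_gM : h ≤ gM h M := le_sup_left

theorem M_mem_gM : M ∈ gM h M := mem_gM.2 ⟨0, h.zero_mem, 1, by simp⟩

theorem gM_F (hh : ∀ x ∈ h, x ∈ (J887.matFiltR N).F 1) (hM : M ∈ (J887.matFiltR N).F 1) :
    ∀ x ∈ gM h M, x ∈ (J887.matFiltR N).F 1 := by
  intro x hx
  obtain ⟨y, hy, s, rfl⟩ := mem_gM.1 hx
  exact Submodule.add_mem _ (hh y hy) (smulR_mem hM s)

theorem gM_br (hbr : ∀ x ∈ h, ∀ y ∈ h, br x y ∈ h) (hbM : ∀ x ∈ h, br M x ∈ h) :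
    ∀ x ∈ gM h M, ∀ y ∈ gM h M, br x y ∈ gM h M := by
  intro x hx y hy
  obtain ⟨x', hx', s, rfl⟩ := mem_gM.1 hx
  obtain ⟨y', hy', t, rfl⟩ := mem_gM.1 hy
  have e : br (x' + s • M) (y' + t • M) = br x' y' + s • br M y' - t • br M x' := by
    rw [br_add_left, br_add_right, br_add_right, br_smul_left, br_smul_right, br_smul_right,
      br_smul_left, br_skew x' M]
    have : br M M = 0 := by unfold br; simp
    rw [this]
    simp only [smul_zero, add_zero, smul_neg]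
    abel
  rw [e]
  refine h_le_gM (Submodule.sub_mem _ (Submodule.add_mem _ (hbr x' hx' y' hy')
    (Submodule.smul_mem _ _ (hbM y' hy'))) (Submodule.smul_mem _ _ (hbM x' hx')))

end basic

/-- the data -/
structure MD (h : Submodule ℝ (Mt N)) (M : Mt N) (H Λ : Subgroup (Mt N)ˣ) (a : (Mt N)ˣ) : Prop where
  hh : ∀ x ∈ h, x ∈ (J887.matFiltR N).F 1
  hM : M ∈ (J887.matFiltR N).F 1
  hbr : ∀ x ∈ h, ∀ y ∈ h, br x y ∈ h
  hbM : ∀ x ∈ h, br M x ∈ h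
  hind : ∀ x ∈ h, ∀ s : ℝ, x = s • M → s = 0
  ha : (a : Mt N) = IsNilpotent.exp M
  hH : ∀ u : (Mt N)ˣ, u ∈ H ↔ ∃ x ∈ h, ∃ k : ℤ,
      (u : Mt N) = IsNilpotent.exp x * IsNilpotent.exp ((k : ℝ) • M)
  hΛH : Λ ≤ H
  hΛc : IsClosed (Λ : Set (Mt N)ˣ)
  hC : ∃ C : ℝ, ∀ u ∈ H, ∃ γ ∈ Λ, ∀ i j, |((u * γ : (Mt N)ˣ) : Mt N) i j| ≤ C
  hdense : ∀ u ∈ H, u ∈ closure {v | ∃ n : ℤ, ∃ γ ∈ Λ, v = a ^ n * γ}
  hγ : ∃ γ ∈ Λ, ∃ β ∈ h, (γ : Mt N) = IsNilpotent.exp (M + β)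

section md

variable {h : Submodule ℝ (Mt N)} {M : Mt N} {H Λ : Subgroup (Mt N)ˣ} {a : (Mt N)ˣ}
variable (md : MD h M H Λ a)

include md

theorem MD.gF : ∀ x ∈ gM h M, x ∈ (J887.matFiltR N).F 1 := gM_F md.hh md.hM

theorem MD.gb : ∀ x ∈ gM h M, ∀ y ∈ gM h M, br x y ∈ gM h M := gM_br md.hbr md.hbM

theorem MD.a_eq : a = Eu M := Units.ext (by rw [Eu_val md.hM, md.ha])

theorem MD.mem_H {u : (Mt N)ˣ} : u ∈ H ↔ ∃ x ∈ h, ∃ k : ℤ, u = Eu x * (Eu M) ^ k := by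
  rw [md.hH]
  constructor
  · rintro ⟨x, hx, k, hu⟩
    refine ⟨x, hx, k, Units.ext ?_⟩
    rw [hu, Units.val_mul, Eu_val (md.hh x hx), Eu_zpow md.hM, Eu_val (smulR_mem md.hM _)]
  · rintro ⟨x, hx, k, rfl⟩
    refine ⟨x, hx, k, ?_⟩
    rw [Units.val_mul, Eu_val (md.hh x hx), Eu_zpow md.hM, Eu_val (smulR_mem md.hM _)]

theorem MD.log_H {u : (Mt N)ˣ} (hu : u ∈ H) : ∃ z ∈ gM h M, u = Eu z := by
  obtain ⟨x, hx, k, rfl⟩ := md.mem_H.1 hu
  rw [Eu_zpow md.hM]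
  exact Eu_mul_mem md.gF md.gb (h_le_gM hx) (Submodule.smul_mem _ _ M_mem_gM)

theorem MD.span : gM h M ≤ Submodule.span ℝ {x | x ∈ gM h M ∧ Eu x ∈ Λ} := by
  obtain ⟨C, hC⟩ := md.hC
  have hΛ : ∀ γ ∈ Λ, ∃ y, SUp y ∧ (γ : Mt N) = IsNilpotent.exp y := by
    intro γ hγ
    obtain ⟨z, hz, rfl⟩ := md.log_H (md.hΛH hγ)
    exact ⟨z, J887.sup_iff.2 (md.gF z hz), Eu_val (md.gF z hz)⟩
  have hsub : Submodule.span ℝ {y | SUp y ∧ ∃ γ ∈ Λ, (γ : Mt N) = IsNilpotent.exp y} ≤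
      Submodule.span ℝ {x | x ∈ gM h M ∧ Eu x ∈ Λ} := by
    refine Submodule.span_mono ?_
    rintro y ⟨hy, γ, hγ, h1⟩
    obtain ⟨z, hz, rfl⟩ := md.log_H (md.hΛH hγ)
    have hy' := J887.sup_iff.1 hy
    have h2 : y = z := by
      refine (J887.matFiltR N).exp_inj hy' (md.gF z hz) ?_
      rw [← h1, Eu_val (md.gF z hz)]
    rw [h2]
    exact ⟨hz, hγ⟩
  have key : ∀ x : Mt N, x ∈ (J887.matFiltR N).F 1 → (∀ n : ℕ, Eu ((n : ℝ) • x) ∈ H) →
      x ∈ Submodule.span ℝ {x | x ∈ gM h M ∧ Eu x ∈ Λ} := by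
    intro x hx hn
    refine hsub (log_mem_span Λ hΛ x (J887.sup_iff.2 hx) C fun n => ?_)
    obtain ⟨γ, hγ, h1⟩ := hC _ (hn n)
    refine ⟨γ, hγ, fun i j => ?_⟩
    have := h1 i j
    rwa [Units.val_mul, Eu_val (smulR_mem hx _)] at this
  refine sup_le ?_ ?_
  · intro x hx
    refine key x (md.hh x hx) fun n => ?_
    exact md.mem_H.2 ⟨_, Submodule.smul_mem _ _ hx, 0, by rw [zpow_zero, mul_one]⟩
  · rw [Submodule.span_le, Set.singleton_subset_iff]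
    refine key M md.hM fun n => ?_
    refine md.mem_H.2 ⟨0, h.zero_mem, n, ?_⟩
    rw [Eu_zero, one_mul, Eu_zpow md.hM]
    push_cast
    rfl

/-! ### the subgroups -/

variable {p : ι → Polynomial ℤ} {D : ℕ} (hD : ∀ i, (p i).natDegree ≤ D)

/-- the subgroup `L` -/
noncomputable def LLg : Subgroup (PH md.gF md.gb ι D) :=
  Subgroup.closure {RR md.gF md.gb hD M_mem_gM 1, Eh md.gF md.gb D (Cs ι M)}

/-- the generators -/
noncomputable def gens : Set (PH md.gF md.gb ι D) :=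
  {RR md.gF md.gb hD M_mem_gM 1, Eh md.gF md.gb D (Cs ι M)} ∪
    ({x | ∃ v ∈ h, x = Eh md.gF md.gb D (Ys p v)} ∪ {x | ∃ v ∈ h, x = Eh md.gF md.gb D (Cs ι v)})

/-- the closed subgroup `G` -/
noncomputable def GG : Subgroup (PH md.gF md.gb ι D) :=
  (Subgroup.closure (gens md hD)).topologicalClosure

theorem isClosed_GG : IsClosed (GG md hD : Set (PH md.gF md.gb ι D)) :=
  Subgroup.isClosed_topologicalClosure _

theorem gens_sub : gens md hD ⊆ (GG md hD : Set (PH md.gF md.gb ι D)) :=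
  Set.Subset.trans Subgroup.subset_closure (Subgroup.le_topologicalClosure _)

theorem LLg_le : LLg md hD ≤ GG md hD := by
  unfold LLg
  rw [Subgroup.closure_le]
  exact Set.Subset.trans Set.subset_union_left (gens_sub md hD)

theorem Ys_KK {v : Mt N} (hv : v ∈ h) : Ys p v ∈ KK md.gF md.gb (GG md hD) := by
  refine (mem_KK _ _ (isClosed_GG md hD)).2 ⟨Ys_mem hD (h_le_gM hv), fun s => ?_⟩
  rw [← Ys_smul]
  exact gens_sub md hD (Or.inr (Or.inl ⟨_, Submodule.smul_mem _ s hv, rfl⟩))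

theorem Cs_KK {v : Mt N} (hv : v ∈ h) : Cs ι v ∈ KK md.gF md.gb (GG md hD) := by
  refine (mem_KK _ _ (isClosed_GG md hD)).2 ⟨Cs_mem (h_le_gM hv), fun s => ?_⟩
  rw [← Cs_smul]
  exact gens_sub md hD (Or.inr (Or.inr ⟨_, Submodule.smul_mem _ s hv, rfl⟩))

theorem RR_mem (n : ℤ) : RR md.gF md.gb hD M_mem_gM n ∈ GG md hD := by
  rw [← RR_zpow]
  exact (GG md hD).zpow_mem (gens_sub md hD (Or.inl (Or.inl rfl))) n

/-- topological generation -/
theorem top_gen (V : Set (PH md.gF md.gb ι D)) (hV : V ∈ 𝓝 1) (x : PH md.gF md.gb ι D)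
    (hx : x ∈ GG md hD) :
    x ∈ closure ((Subgroup.closure ((LLg md hD : Set (PH md.gF md.gb ι D)) ∪
      (V ∩ (GG md hD : Set (PH md.gF md.gb ι D)))) : Subgroup (PH md.gF md.gb ι D)) :
        Set (PH md.gF md.gb ι D)) := by
  set S := Subgroup.closure ((LLg md hD : Set (PH md.gF md.gb ι D)) ∪
      (V ∩ (GG md hD : Set (PH md.gF md.gb ι D)))) with hS
  have small : ∀ y : ι × ℤ → Mt N, y ∈ KK md.gF md.gb (GG md hD) → Eh md.gF md.gb D y ∈ S := by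
    intro y hy
    obtain ⟨hy1, hy2⟩ := (mem_KK _ _ (isClosed_GG md hD)).1 hy
    have hinv : Tendsto (fun n : ℕ => ((n : ℝ) + 1)⁻¹) atTop (𝓝 0) := by
      simpa [one_div] using tendsto_one_div_add_atTop_nhds_zero_nat (𝕜 := ℝ)
    have h1 : Tendsto (fun n : ℕ => ((n : ℝ) + 1)⁻¹ • y) atTop (𝓝 0) := by
      have := hinv.smul_const y
      rwa [zero_smul] at this
    have h2 := tendsto_Eh md.gF md.gb h1 (fun n => Submodule.smul_mem _ _ hy1)
      (Submodule.zero_mem _)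
    rw [Eh_zero] at h2
    obtain ⟨n, hn⟩ := (h2.eventually hV).exists
    have h3 : Eh md.gF md.gb D y = (Eh md.gF md.gb D (((n : ℝ) + 1)⁻¹ • y)) ^ (n + 1) := by
      rw [← Eh_nsmul _ _ (Submodule.smul_mem _ _ hy1), smul_smul]
      have : ((n + 1 : ℕ) : ℝ) * ((n : ℝ) + 1)⁻¹ = 1 := by
        push_cast
        exact mul_inv_cancel₀ (by positivity)
      rw [this, one_smul]
    rw [h3]
    exact S.pow_mem (Subgroup.subset_closure (Or.inr ⟨hn, hy2 _⟩)) _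
  have h1 : Subgroup.closure (gens md hD) ≤ S := by
    rw [Subgroup.closure_le]
    rintro y (hy | ⟨v, hv, rfl⟩ | ⟨v, hv, rfl⟩)
    · exact Subgroup.subset_closure (Or.inl (Subgroup.subset_closure hy))
    · exact small _ (Ys_KK md hD hv)
    · exact small _ (Cs_KK md hD hv)
  have h2 : x ∈ closure ((Subgroup.closure (gens md hD) : Subgroup (PH md.gF md.gb ι D)) :
      Set (PH md.gF md.gb ι D)) := hx
  exact closure_mono h1 h2

/-! ### the elements attached to `exp (M + β)` -/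

theorem stepD (tD : TaskD) (tD2 : TaskD2) {c : GG md hD →* Circle} (hc : Continuous c)
    {β : Mt N} (hβ : β ∈ h) :
    ∃ z ∈ KK md.gF md.gb (GG md hD), z - Ys p β ∈ K1 md.gF md.gb c ∧
      ∀ q : ι × ℤ, Eu (z q) * Eu ((eZ p 1 q : ℝ) • M) = Eu ((eZ p 1 q : ℝ) • (M + β)) := by
  have hG := isClosed_GG md hD
  have h1 : ∀ n : ℕ, YD M β (eP p) n = AdP md.gF md.gb (RR md.gF md.gb hD M_mem_gM n) (Ys p β) := by
    intro n
    rw [AdP_RR_Ys]
    norm_cast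
  obtain ⟨z, hz, hz1, hz2⟩ := tD N (ι × ℤ) (KK md.gF md.gb (GG md hD)) (K1 md.gF md.gb c)
    (fun x hx => WI_F md.gF ((mem_KK _ _ hG).1 hx).1) (K1_le _ _ hG hc)
    (fun x hx y hy => KK_br _ _ hG hc tD2 hx hy) M β md.hM (md.hh β hβ) D (eP p)
    (fun q => eP_deg hD q) (fun q => eP_zero p q)
    (fun n => by rw [h1]; exact AdP_KK _ _ hG (RR_mem md hD n) (Ys_KK md hD hβ))
    (fun n => by
      rw [h1, YD_zero]
      exact AdP_sub _ _ hG hc (RR_mem md hD n) (Ys_KK md hD hβ))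
  rw [YD_zero] at hz1
  refine ⟨z, hz, hz1, fun q => ?_⟩
  have hzF : z q ∈ (J887.matFiltR N).F 1 :=
    mem_filtI.1 (WI_F md.gF ((mem_KK _ _ hG).1 hz).1) q
  have h2 := hz2 q
  have h3 := eP_eval p q 1
  rw [Int.cast_one] at h3
  rw [h3] at h2
  have hM1 : (eZ p 1 q : ℝ) • M ∈ (J887.matFiltR N).F 1 := smulR_mem md.hM _
  apply Units.ext
  rw [Units.val_mul, Eu_val hzF, Eu_val hM1,
    Eu_val (smulR_mem (Submodule.add_mem _ md.hM (md.hh β hβ)) _), ← h2, mul_assoc,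
    IsNilpotent.exp_neg_mul_exp_self ((J887.matFiltR N).nilp hM1), mul_one]

/-- the element of the group attached to `b = exp (M + β)` -/
theorem exists_Rb (tD : TaskD) (tD2 : TaskD2) {c : GG md hD →* Circle} (hc : Continuous c)
    (hρ : cE md.gF md.gb c (RR md.gF md.gb hD M_mem_gM 1) = 1)
    {β : Mt N} (hβ : β ∈ h) :
    ∃ w ∈ GG md hD, cE md.gF md.gb c w = cE md.gF md.gb c (Eh md.gF md.gb D (Ys p β)) ∧
      (w : SD ι N).right = Multiplicative.ofAdd 1 ∧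
      ∀ q, (w : SD ι N).left q = (Eu (M + β)) ^ (eZ p 1 q) := by
  have hG := isClosed_GG md hD
  obtain ⟨z, hz, hz1, hz2⟩ := stepD md hD tD tD2 hc hβ
  have hzW := ((mem_KK _ _ hG).1 hz).1
  refine ⟨Eh md.gF md.gb D z * RR md.gF md.gb hD M_mem_gM 1,
    (GG md hD).mul_mem (KK_Eh _ _ hG hz) (RR_mem md hD 1), ?_, ?_, ?_⟩
  · rw [cE_mul _ _ (KK_Eh _ _ hG hz) (RR_mem md hD 1), hρ, mul_one]
    have e : z = Ys p β + (z - Ys p β) := by abel
    rw [e, cE_add _ _ hG hc (Ys_KK md hD hβ) (K1_le _ _ hG hc hz1)]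
    have h2 := ((mem_K1 _ _ hG hc).1 hz1).2 1
    rw [one_smul] at h2
    rw [h2, mul_one]
  · rw [Subgroup.coe_mul, Eh_val _ _ hzW]
    change 1 * Multiplicative.ofAdd (1 : ℤ) = _
    rw [one_mul]
  · intro q
    rw [Subgroup.coe_mul, Eh_val _ _ hzW]
    change Eu (z q) * Eu ((eZ p 1 (q.1, q.2 + 0) : ℝ) • M) = _
    rw [add_zero, Eu_zpow (Submodule.add_mem _ md.hM (md.hh β hβ))]
    exact hz2 q

/-- constant sequences with values in `H` -/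
theorem const_mem (u : H) : SemidirectProduct.inl (fun _ => (u : (Mt N)ˣ)) ∈
    PH md.gF md.gb ι D := by
  obtain ⟨z, hz, hu⟩ := md.log_H u.2
  refine ⟨Cs ι z, Cs_mem hz, ?_⟩
  funext q
  change (u : (Mt N)ˣ) = Eu z
  exact hu

/-- constant sequences with values in `H` -/
def Dl (ι : Type) (D : ℕ) (u : H) : PH md.gF md.gb ι D :=
  ⟨SemidirectProduct.inl (fun _ => (u : (Mt N)ˣ)), const_mem md u⟩

theorem Dl_mul (u v : H) : Dl md ι D (u * v) = Dl md ι D u * Dl md ι D v := by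
  apply Subtype.ext
  change SemidirectProduct.inl _ = SemidirectProduct.inl _ * SemidirectProduct.inl _
  rw [← map_mul]
  rfl

theorem continuous_Dl : Continuous (Dl md ι D) := by
  refine Continuous.subtype_mk (continuous_inl'.comp ?_) _
  exact continuous_pi fun _ => continuous_subtype_val

theorem Dl_Eu {x : Mt N} (hx : x ∈ h) (hu : Eu x ∈ H) :
    Dl md ι D ⟨Eu x, hu⟩ = Eh md.gF md.gb D (Cs ι x) := by
  apply Subtype.ext
  rw [Eh_val _ _ (Cs_mem (h_le_gM hx))]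
  rfl

theorem Dl_M (hu : Eu M ∈ H) : Dl md ι D ⟨Eu M, hu⟩ = Eh md.gF md.gb D (Cs ι M) := by
  apply Subtype.ext
  rw [Eh_val _ _ (Cs_mem M_mem_gM)]
  rfl

theorem Dl_zpow (u : H) (k : ℤ) : Dl md ι D (u ^ k) = (Dl md ι D u) ^ k := by
  let f : H →* PH md.gF md.gb ι D := MonoidHom.mk' (Dl md ι D) (Dl_mul md)
  exact map_zpow f u k

theorem EuM_mem : Eu M ∈ H := md.mem_H.2 ⟨0, h.zero_mem, 1, by rw [Eu_zero, one_mul, zpow_one]⟩

theorem Eu_mem {x : Mt N} (hx : x ∈ h) : Eu x ∈ H :=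
  md.mem_H.2 ⟨x, hx, 0, by rw [zpow_zero, mul_one]⟩

theorem Dl_mem (u : H) : Dl md ι D u ∈ GG md hD := by
  obtain ⟨x, hx, k, hu⟩ := md.mem_H.1 u.2
  have e : u = ⟨Eu x, Eu_mem md hx⟩ * (⟨Eu M, EuM_mem md⟩ : H) ^ k := by
    apply Subtype.ext
    rw [Subgroup.coe_mul, Subgroup.coe_zpow]
    exact hu
  rw [e, Dl_mul, Dl_zpow, Dl_Eu md hx, Dl_M]
  refine (GG md hD).mul_mem ?_ ((GG md hD).zpow_mem ?_ k)
  · exact gens_sub md hD (Or.inr (Or.inr ⟨x, hx, rfl⟩))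
  · exact gens_sub md hD (Or.inl (Or.inr rfl))

end md

end Pool.Agent.Helper75x.NR
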