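import Pool.Agent.TH91.LG.Asm

/-!
Project S04319 (MP_35c333_an), task B: the matrix model of a totally minimal nilsystem.

PAPER PROOF.  Rerun `lie_model` / `model_of_facts` (`TH91/LG/Asm.lean`, `TH515/J1261.lean`) keeping the
structure: `h := range R.ρ`, `M := R.M`, `H := {e X * m ^ k}` (`e X = exp (ρ X)`, `m = exp M`),
`φ : H →* G` continuous and open, `φ (e X * m ^ k) = L.c X 1 * g ^ k`, `φ m = g`.
`G` is a topological group, T2 (charted on a T1 space, topological group), `Γ` closed.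
`Λ := (Γ.comap φ).map H.subtype`, `a := m`, `B := {u ∈ H : φ u Γ ∉ U}`.
`H` is closed in the units (units with `Lg u ∈ ρ(E) + ℤ M` and unitriangular), so `Λ`, `B` are closed.
Boundedness: see `TH444/J1003.lean` (`nil_rec` derives the bound from `CompactSpace (G ⧸ Γ)`).
Density: `φ` open, orbit `g ^ n Γ` dense: for `W ∋ u` open in `H`, `φ(W) Γ` is open in `G/Γ`, contains
`g ^ n Γ`: `g ^ n = φ w γ'`, so `a ^ (-n) w ∈ φ⁻¹ Γ`.
`γ ∈ Λ ∩ a exp h`: `H_0 := exp (ρ E)` is an open normal subgroup of `H`; the `φ(H_0)`-orbits on `G/Γ` are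
open, permuted by `g`; by compactness `g ^ m` fixes the orbit of `Γ` for some `m > 0`, the orbit is clopen,
`g ^ m` is minimal, so `φ(H_0) Γ = G`, `g = φ (e X) γ'`, `e (-X) a ∈ Λ`, and `exp_mul_form` gives
`exp (M + β)`.
`h0`: `a ^ n` with `g ^ n Γ ∈ U` (density of the orbit).
-/

set_option autoImplicit false

namespace Pool.Agent.Helper75x.NR

open Topology Pool.Agent.TH91.NB

/-- From a totally minimal nilsystem and a nonempty open set to data on unitriangular matrices. -/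
def TaskB : Prop :=
  ∀ (E : Type) [NormedAddCommGroup E] [NormedSpace ℝ E] [FiniteDimensional ℝ E]
    (G : Type) [Group G] [TopologicalSpace G] [ChartedSpace E G]
    [LieGroup (modelWithCornersSelf ℝ E) ((⊤ : ℕ∞) : WithTop ℕ∞) G] [Group.IsNilpotent G]
    (Γ : Subgroup G), DiscreteTopology Γ → CompactSpace (G ⧸ Γ) →
    ∀ g : G, (∀ m : ℕ, 0 < m → ∀ x : G ⧸ Γ,
        Dense (Set.range (fun n : ℤ => (g ^ m) ^ n • x))) →
    ∀ U : Set (G ⧸ Γ), IsOpen U → U.Nonempty →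
    ∃ (N : ℕ) (h : Submodule ℝ (Matrix (Fin N) (Fin N) ℝ)) (M : Matrix (Fin N) (Fin N) ℝ)
      (H Λ : Subgroup (Matrix (Fin N) (Fin N) ℝ)ˣ) (B : Set (Matrix (Fin N) (Fin N) ℝ)ˣ)
      (a h0 : (Matrix (Fin N) (Fin N) ℝ)ˣ),
      (∀ x ∈ h, x ∈ (J887.matFiltR N).F 1) ∧ M ∈ (J887.matFiltR N).F 1 ∧
      (∀ x ∈ h, ∀ y ∈ h, x * y - y * x ∈ h) ∧ (∀ x ∈ h, M * x - x * M ∈ h) ∧
      (∀ x ∈ h, ∀ s : ℝ, x = s • M → s = 0) ∧
      (a : Matrix (Fin N) (Fin N) ℝ) = IsNilpotent.exp M ∧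
      (∀ u : (Matrix (Fin N) (Fin N) ℝ)ˣ, u ∈ H ↔ ∃ x ∈ h, ∃ k : ℤ,
        (u : Matrix (Fin N) (Fin N) ℝ) = IsNilpotent.exp x * IsNilpotent.exp ((k : ℝ) • M)) ∧
      Λ ≤ H ∧ IsClosed (Λ : Set (Matrix (Fin N) (Fin N) ℝ)ˣ) ∧
      (∃ C : ℝ, ∀ u ∈ H, ∃ γ ∈ Λ, ∀ i j,
        |((u * γ : (Matrix (Fin N) (Fin N) ℝ)ˣ) : Matrix (Fin N) (Fin N) ℝ) i j| ≤ C) ∧
      (∀ u ∈ H, u ∈ closure {v | ∃ n : ℤ, ∃ γ ∈ Λ, v = a ^ n * γ}) ∧
      (∃ γ ∈ Λ, ∃ β ∈ h, (γ : Matrix (Fin N) (Fin N) ℝ) = IsNilpotent.exp (M + β)) ∧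
      IsClosed B ∧ (∀ b ∈ B, ∀ γ ∈ Λ, b * γ ∈ B) ∧ h0 ∈ H ∧ h0 ∉ B ∧
      (∀ n : ℤ, a ^ n ∉ B → (g ^ n • ((1 : G) : G ⧸ Γ)) ∈ U)

end Pool.Agent.Helper75x.NR
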