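import Pool.Agent.Helper75x.NR.Mat
import Pool.Agent.Helper75x.NRB.Main

/-!
# Polynomial recurrence along progressions in totally minimal nilsystems
-/

set_option autoImplicit false

namespace Pool.Agent.Helper75x.NR

open Pool.Agent.TH91.NB Pool.Agent.TH91.RF Topology

theorem final (tA2 : TaskA2) (tD : TaskD) (tD1 : TaskD1) (tD2 : TaskD2) (tF : TaskF)
    (tG : TaskG) (E : Type) [NormedAddCommGroup E] [NormedSpace ℝ E] [FiniteDimensional ℝ E]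
    (G : Type) [Group G] [TopologicalSpace G] [ChartedSpace E G]
    [LieGroup (modelWithCornersSelf ℝ E) ((⊤ : ℕ∞) : WithTop ℕ∞) G] [Group.IsNilpotent G]
    (Γ : Subgroup G) (hΓd : DiscreteTopology Γ) (hΓc : CompactSpace (G ⧸ Γ))
    (g : G) (hmin : ∀ m : ℕ, 0 < m → ∀ x : G ⧸ Γ,
        Dense (Set.range (fun n : ℤ => (g ^ m) ^ n • x)))
    (d : ℕ) (p : Fin d → Polynomial ℤ) (hp0 : ∀ i, (p i).eval 0 = 0)
    (k : ℕ) (hk : 0 < k) (j : ℕ) (hj : j < k)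
    (U : Set (G ⧸ Γ)) (hU : IsOpen U) (hUne : U.Nonempty) :
    ∃ n : ℕ, 0 < n ∧ ∃ x ∈ U, ∀ i, g ^ ((p i).eval ((k : ℤ) * (n : ℤ) + (j : ℤ))) • x ∈ U := by
  obtain ⟨N, h, M, H, Λ, B, a, h0, hh, hM, hbr, hbM, hind, ha, hH, hΛH, hΛc, hC, hdense, hγ, hB,
    hBΛ, hh0, hh0B, hres⟩ := Pool.Agent.Helper75x.NRB.taskB E G Γ hΓd hΓc g hmin U hU hUne
  have md : MD h M H Λ a := ⟨hh, hM, hbr, hbM, hind, ha, hH, hΛH, hΛc, hC, hdense, hγ⟩
  obtain ⟨n, m, hn, ⟨q, hq⟩, hm, hi⟩ := matrix_form md tA2 tD tD1 tD2 tF tG p hp0 hk j hB hBΛ hh0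
    hh0B
  have hn' : n = k * q + j := by linarith
  have hq0 : 0 < q := by
    by_contra hq0
    push Not at hq0
    have h1 : (k : ℤ) * q ≤ 0 := mul_nonpos_of_nonneg_of_nonpos (by positivity) hq0
    have h2 : (j : ℤ) < k := by exact_mod_cast hj
    linarith
  lift q to ℕ using hq0.le
  refine ⟨q, by exact_mod_cast hq0, g ^ m • ((1 : G) : G ⧸ Γ), hres m hm, fun i => ?_⟩
  rw [← hn', ← mul_smul, ← zpow_add]
  exact hres _ (hi i)

end Pool.Agent.Helper75x.NR
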