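import Pool.Agent.Helper75x.NR.Cpt2
import Pool.Agent.Helper509.RD.TopSemi

/-!
# The group of polynomial sequences with the shift: topology, nilpotency, compact quotient
-/

set_option autoImplicit false

namespace Pool.Agent.Helper75x.NR

open Pool.Agent.TH91.NB Pool.Agent.TH91.RF Finset Topology Filter
open Pool.Agent.Helper509.RD
open scoped commutatorElement

set_option maxHeartbeats 400000

/-- functions on `ι × ℤ` with values in the units -/
abbrev SS (ι : Type) (N : ℕ) := ι × ℤ → (Mt N)ˣ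

variable {ι : Type} {N : ℕ}

/-- the shift of the indices -/
def shE (ι : Type) (n : ℤ) : ι × ℤ ≃ ι × ℤ where
  toFun p := (p.1, p.2 + n)
  invFun p := (p.1, p.2 - n)
  left_inv p := by simp
  right_inv p := by simp

/-- the shift, as an automorphism -/
def shA (n : ℤ) : SS ι N ≃* SS ι N where
  toFun u := fun p => u (p.1, p.2 + n)
  invFun u := fun p => u (p.1, p.2 - n)
  left_inv u := by funext p; simp
  right_inv u := by funext p; simp
  map_mul' u v := rfl

/-- the shift action -/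
def shφ (ι : Type) (N : ℕ) : Multiplicative ℤ →* MulAut (SS ι N) where
  toFun n := shA (Multiplicative.toAdd n)
  map_one' := by
    ext u p
    change ((u (p.1, p.2 + 0) : (Mt N)ˣ) : Mt N) _ _ = _
    simp
  map_mul' a b := by
    apply MulEquiv.ext
    intro u
    funext p
    change u (p.1, p.2 + Multiplicative.toAdd (a * b)) =
      u (p.1, p.2 + Multiplicative.toAdd a + Multiplicative.toAdd b)
    rw [toAdd_mul, add_assoc]

theorem shφ_apply (n : Multiplicative ℤ) (u : SS ι N) (p : ι × ℤ) :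
    shφ ι N n u p = u (p.1, p.2 + Multiplicative.toAdd n) := rfl

/-- the semidirect product -/
abbrev SD (ι : Type) (N : ℕ) := SS ι N ⋊[shφ ι N] Multiplicative ℤ

theorem continuous_shφ :
    Continuous (fun p : Multiplicative ℤ × SS ι N => shφ ι N p.1 p.2) := by
  rw [continuous_prod_of_discrete_left]
  intro n
  refine continuous_pi fun p => ?_
  exact continuous_apply (p.1, p.2 + Multiplicative.toAdd n)

instance : IsTopologicalGroup (SD ι N) := isTopologicalGroup_semi continuous_shφ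

/-! ### submodules -/

variable {g : Submodule ℝ (Mt N)} {D : ℕ}

/-- componentwise polynomial sequences -/
def WI (ι : Type) (g : Submodule ℝ (Mt N)) (D l q : ℕ) : Submodule ℝ (ι × ℤ → Mt N) where
  carrier := {x | ∀ i, (fun t => x (i, t)) ∈ W g D l q}
  add_mem' ha hb i := Submodule.add_mem _ (ha i) (hb i)
  zero_mem' i := Submodule.zero_mem _
  smul_mem' c x hx i := Submodule.smul_mem _ c (hx i)

theorem mem_WI {l q : ℕ} {x : ι × ℤ → Mt N} :
    x ∈ WI ι g D l q ↔ ∀ i, (fun t => x (i, t)) ∈ W g D l q := Iff.rfl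

/-- the shift of functions -/
def shX (n : ℤ) (x : ι × ℤ → Mt N) : ι × ℤ → Mt N := fun p => x (p.1, p.2 + n)

theorem shφ_ExI (n : Multiplicative ℤ) (x : ι × ℤ → Mt N) :
    shφ ι N n (ExI x) = ExI (shX (Multiplicative.toAdd n) x) := rfl

theorem WI_le {l l' q q' : ℕ} (hl : l ≤ l') (hq : q ≤ q') {x : ι × ℤ → Mt N}
    (hx : x ∈ WI ι g D l' q') : x ∈ WI ι g D l q := fun i => W_le hl hq (hx i)

theorem W01 {q : ℕ} {x : ℤ → Mt N} (hx : x ∈ W g D q 0) : x ∈ W g D q 1 := by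
  have h : W g D q 0 ≤ W g D q 1 := by
    refine Submodule.span_mono ?_
    rintro f ⟨k, m, h1, h2, h3, u, hu, rfl⟩
    refine ⟨k, m, h1, h2, ?_, u, hu, rfl⟩
    have : (D + 1) * (k + 1) = D * (k + 1) + (k + 1) := by ring
    omega
  exact h hx

theorem WI01 {q : ℕ} {x : ι × ℤ → Mt N} (hx : x ∈ WI ι g D q 0) : x ∈ WI ι g D q 1 :=
  fun i => W01 (hx i)

theorem WI_shift_sub {l q : ℕ} {x : ι × ℤ → Mt N} (hx : x ∈ WI ι g D l q) (n : ℤ) :
    shX n x - x ∈ WI ι g D l (q + 1) := fun i => W_shift_sub (hx i) n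

theorem WI_shift {l q : ℕ} {x : ι × ℤ → Mt N} (hx : x ∈ WI ι g D l q) (n : ℤ) :
    shX n x ∈ WI ι g D l q := fun i => W_shift (hx i) n

section

variable (hF : ∀ x ∈ g, x ∈ (J887.matFiltR N).F 1) (hg : ∀ x ∈ g, ∀ y ∈ g, br x y ∈ g)

include hF in
theorem WI_F {l q : ℕ} {x : ι × ℤ → Mt N} (hx : x ∈ WI ι g D l q) :
    x ∈ (filtI (ι × ℤ) N).F 1 :=
  mem_filtI.2 fun p => W_val hF (hx p.1) p.2

include hg in
theorem WI_br {l l' q q' a b : ℕ} (ha : a ≤ l + l' + 1) (hb : b ≤ q + q') {x y : ι × ℤ → Mt N}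
    (hx : x ∈ WI ι g D l q) (hy : y ∈ WI ι g D l' q') : br x y ∈ WI ι g D a b :=
  fun i => W_br_le hg ha hb (hx i) (hy i)

include hF hg

theorem WI_mul_add {l q : ℕ} {x y : ι × ℤ → Mt N} (hx : x ∈ WI ι g D 0 0)
    (hy : y ∈ WI ι g D 0 0) (h : br x y ∈ WI ι g D l q) :
    ∃ j ∈ WI ι g D l q, ExI x * ExI y = ExI (x + y + j) := by
  have h1 : ∀ x ∈ WI ι g D 0 0, x ∈ (filtI (ι × ℤ) N).F 1 := fun x hx => WI_F hF hx
  have h2 : ∀ x ∈ WI ι g D 0 0, ∀ y ∈ WI ι g D 0 0, br x y ∈ WI ι g D 0 0 :=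
    fun x hx y hy => WI_br hg (Nat.zero_le _) (Nat.zero_le _) hx hy
  have h3 : WI ι g D l q ≤ WI ι g D 0 0 := fun x hx => WI_le (Nat.zero_le _) (Nat.zero_le _) hx
  have h4 : ∀ x ∈ WI ι g D 0 0, ∀ y ∈ WI ι g D l q, br x y ∈ WI ι g D l q :=
    fun x hx y hy => WI_br hg (by omega) (by omega) hx hy
  exact ExI_mul_add h1 h2 h3 h4 hx hy h

/-- the group of polynomial sequences -/
def PI (ι : Type) (D : ℕ) : Subgroup (SS ι N) where
  carrier := {u | ∃ x ∈ WI ι g D 0 0, u = ExI x}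
  one_mem' := ⟨0, Submodule.zero_mem _, ExI_zero.symm⟩
  mul_mem' := by
    rintro _ _ ⟨x, hx, rfl⟩ ⟨y, hy, rfl⟩
    obtain ⟨j, hj, h⟩ := WI_mul_add (l := 0) (q := 0) hF hg hx hy
      (WI_br hg (Nat.zero_le _) (Nat.zero_le _) hx hy)
    exact ⟨_, Submodule.add_mem _ (Submodule.add_mem _ hx hy) hj, h⟩
  inv_mem' := by
    rintro _ ⟨x, hx, rfl⟩
    exact ⟨-x, Submodule.neg_mem _ hx, ExI_inv (WI_F hF hx)⟩

omit hF hg in
theorem mem_PI (hF : ∀ x ∈ g, x ∈ (J887.matFiltR N).F 1) (hg : ∀ x ∈ g, ∀ y ∈ g, br x y ∈ g)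
    {u : SS ι N} : u ∈ PI hF hg ι D ↔ ∃ x ∈ WI ι g D 0 0, u = ExI x := Iff.rfl

theorem PI_shift {u : SS ι N} (hu : u ∈ PI hF hg ι D) (n : Multiplicative ℤ) :
    shφ ι N n u ∈ PI hF hg ι D := by
  obtain ⟨x, hx, rfl⟩ := hu
  exact ⟨_, WI_shift hx _, shφ_ExI n x⟩

theorem mem_PI_iff {u : SS ι N} :
    u ∈ PI hF hg ι D ↔ ∀ i, (fun t => u (i, t)) ∈ P1 hF hg D := by
  constructor
  · rintro ⟨x, hx, rfl⟩ i
    exact ⟨_, hx i, rfl⟩
  · intro h
    choose x hx hx2 using h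
    refine ⟨fun p => x p.1 p.2, fun i => hx i, ?_⟩
    funext p
    exact congrFun (hx2 p.1) p.2

/-- the group of polynomial sequences with the shift -/
def PH (ι : Type) (D : ℕ) : Subgroup (SD ι N) where
  carrier := {x | x.left ∈ PI hF hg ι D}
  one_mem' := Subgroup.one_mem (PI hF hg ι D)
  mul_mem' := by
    intro x y hx hy
    exact Subgroup.mul_mem _ hx (PI_shift hF hg hy _)
  inv_mem' := by
    intro x hx
    exact PI_shift hF hg (Subgroup.inv_mem _ hx) _

omit hF hg in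
theorem mem_PH (hF : ∀ x ∈ g, x ∈ (J887.matFiltR N).F 1) (hg : ∀ x ∈ g, ∀ y ∈ g, br x y ∈ g)
    {x : SD ι N} : x ∈ PH hF hg ι D ↔ x.left ∈ PI hF hg ι D := Iff.rfl

/-- the central series -/
def QS (ι : Type) (D q : ℕ) : Subgroup (SD ι N) where
  carrier := {x | x.right = 1 ∧ ∃ y ∈ WI ι g D 0 q, x.left = ExI y}
  one_mem' := ⟨rfl, 0, Submodule.zero_mem _, ExI_zero.symm⟩
  mul_mem' := by
    rintro x x' ⟨hx1, y, hy, hx2⟩ ⟨hx1', y', hy', hx2'⟩
    obtain ⟨j, hj, h⟩ := WI_mul_add (l := 0) (q := q) hF hg (WI_le le_rfl (Nat.zero_le _) hy)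
      (WI_le le_rfl (Nat.zero_le _) hy') (WI_br hg (Nat.zero_le _) (by omega) hy hy')
    refine ⟨?_, y + y' + j, Submodule.add_mem _ (Submodule.add_mem _ hy hy') hj, ?_⟩
    · rw [SemidirectProduct.mul_right, hx1, hx1', one_mul]
    · rw [SemidirectProduct.mul_left, hx1, map_one, MulAut.one_apply, hx2, hx2', h]
  inv_mem' := by
    rintro x ⟨hx1, y, hy, hx2⟩
    refine ⟨?_, -y, Submodule.neg_mem _ hy, ?_⟩
    · rw [SemidirectProduct.inv_right, hx1, inv_one]
    · rw [SemidirectProduct.inv_left, hx1, inv_one, map_one, MulAut.one_apply, hx2, ExI_inv (WI_F hF hy)]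

theorem commutator_mem_QS (q : ℕ) (x h : SD ι N) (hx : x ∈ QS hF hg ι D q)
    (hh : h ∈ PH hF hg ι D) : ⁅x, h⁆ ∈ QS hF hg ι D (q + 1) := by
  obtain ⟨hx1, y, hy, hx2⟩ := hx
  obtain ⟨z, hz, hh2⟩ := hh
  have hy0 : y ∈ WI ι g D 0 0 := WI_le le_rfl (Nat.zero_le _) hy
  set n := h.right with hn
  set y' : ι × ℤ → Mt N := vl (ExI z) * shX (Multiplicative.toAdd n) y * vl (ExI z)⁻¹ with hy'
  have hsh : shX (Multiplicative.toAdd n) y ∈ WI ι g D 0 q := WI_shift hy _
  have h1 : y' - shX (Multiplicative.toAdd n) y ∈ WI ι g D 0 (q + 1) := by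
    refine conj_sub_mem (V := WI ι g D 0 0) (K := WI ι g D 0 q) (K' := WI ι g D 0 (q + 1))
      (fun x hx => WI_F hF hx) (fun x hx => WI_le le_rfl (Nat.zero_le _) hx)
      (fun x hx => WI_le le_rfl (Nat.le_succ _) hx) (fun x hx y hy => ?_) hz hsh
    exact WI_br hg (Nat.zero_le _) (by omega) (WI01 hx) hy
  have h2 : y' - y ∈ WI ι g D 0 (q + 1) := by
    have := Submodule.add_mem _ h1 (WI_shift_sub hy (Multiplicative.toAdd n))
    rwa [sub_add_sub_cancel] at this
  have h3 : y' ∈ WI ι g D 0 0 := by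
    have := Submodule.add_mem _ (WI_le le_rfl (Nat.zero_le _) h2) hy0
    rwa [sub_add_cancel] at this
  have h4 : br y (-y') ∈ WI ι g D 0 (q + 1) := by
    have e : br y (-y') = -(br y (y' - y)) := by unfold br; noncomm_ring
    rw [e]
    exact Submodule.neg_mem _ (WI_br hg (Nat.zero_le _) (by omega) (WI01 hy0) h2)
  obtain ⟨j, hj, h5⟩ := WI_mul_add hF hg hy0 (Submodule.neg_mem _ h3) h4
  refine ⟨?_, y + -y' + j, ?_, ?_⟩
  · rw [commutatorElement_def]
    simp only [SemidirectProduct.mul_right, SemidirectProduct.inv_right]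
    rw [hx1, one_mul, inv_one, mul_one, mul_inv_cancel]
  · refine Submodule.add_mem _ ?_ hj
    have e : y + -y' = -(y' - y) := by abel
    rw [e]
    exact Submodule.neg_mem _ h2
  · rw [← h5, commutatorElement_def]
    simp only [SemidirectProduct.mul_left, SemidirectProduct.mul_right,
      SemidirectProduct.inv_left, SemidirectProduct.inv_right]
    rw [hx1, hx2, hh2]
    simp only [one_mul, inv_one, mul_one, map_one, MulAut.one_apply]
    rw [← hn]
    have e1 : shφ ι N n (shφ ι N n⁻¹ (ExI z)⁻¹) = (ExI z)⁻¹ := by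
      rw [← MulAut.mul_apply, ← map_mul, mul_inv_cancel, map_one, MulAut.one_apply]
    rw [e1, mul_assoc, mul_assoc]
    congr 1
    rw [← mul_assoc, ExI_inv (WI_F hF hy0), shφ_ExI]
    have e2 : shX (Multiplicative.toAdd n) (-y) = -(shX (Multiplicative.toAdd n) y) := rfl
    rw [e2, ExI_conj (Submodule.neg_mem _ (WI_F hF hsh)) (ExI z) ?_]
    · congr 1
      rw [hy']
      noncomm_ring
    · have e3 : vl (ExI z) * -(shX (Multiplicative.toAdd n) y) * vl (ExI z)⁻¹ = -y' := by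
        rw [hy']; noncomm_ring
      rw [e3]
      exact Submodule.neg_mem _ (WI_F hF h3)

theorem isNilpotent_PH : Group.IsNilpotent (PH hF hg ι D) := by
  rw [Subgroup.isNilpotent_iff_lowerCentralSeries]
  have h1 : ∀ q : ℕ, (PH hF hg ι D).lowerCentralSeries (q + 1) ≤ QS hF hg ι D (q + 1) := by
    intro q
    induction q with
    | zero =>
      rw [Subgroup.lowerCentralSeries_succ, Subgroup.lowerCentralSeries_zero,
        Subgroup.commutator_le]
      intro x hx y hy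
      refine ⟨?_, ?_⟩
      · rw [commutatorElement_def]
        simp only [SemidirectProduct.mul_right, SemidirectProduct.inv_right]
        rw [mul_comm x.right y.right, mul_assoc, mul_assoc, mul_inv_cancel_left, mul_inv_cancel]
      · have h2 : ⁅x, y⁆ ∈ PH hF hg ι D := by
          rw [commutatorElement_def]
          exact Subgroup.mul_mem _ (Subgroup.mul_mem _ (Subgroup.mul_mem _ hx hy)
            (Subgroup.inv_mem _ hx)) (Subgroup.inv_mem _ hy)
        obtain ⟨z, hz, h3⟩ := h2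
        exact ⟨z, WI01 hz, h3⟩
    | succ q ih =>
      rw [Subgroup.lowerCentralSeries_succ, Subgroup.commutator_le]
      intro x hx y hy
      exact commutator_mem_QS hF hg (q + 1) x y (ih hx) hy
  refine ⟨(D + 1) * N + 1, ?_⟩
  rw [eq_bot_iff]
  intro x hx
  obtain ⟨h2, y, hy, h3⟩ := h1 _ hx
  have h4 : y = 0 := by
    funext p
    have := W_bot_q hF (by omega) (hy p.1)
    exact congrFun this p.2
  rw [h4, ExI_zero] at h3
  rw [Subgroup.mem_bot]
  exact SemidirectProduct.ext h3 h2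

/-- the cocompact subgroup -/
def LK (Λ : Subgroup (Mt N)ˣ) (ι : Type) (D : ℕ) (k : ℤ) : Subgroup (PH hF hg ι D) where
  carrier := {x | (∀ p, (x : SD ι N).left p ∈ Λ) ∧
    k ∣ Multiplicative.toAdd (x : SD ι N).right}
  one_mem' := ⟨fun p => Λ.one_mem, dvd_zero k⟩
  mul_mem' := by
    rintro x y ⟨hx1, hx2⟩ ⟨hy1, hy2⟩
    refine ⟨fun p => Λ.mul_mem (hx1 p) (hy1 _), ?_⟩
    exact dvd_add hx2 hy2
  inv_mem' := by
    rintro x ⟨hx1, hx2⟩
    refine ⟨fun p => Λ.inv_mem (hx1 _), ?_⟩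
    exact (dvd_neg).2 hx2

omit hF hg in
theorem mem_LK (hF : ∀ x ∈ g, x ∈ (J887.matFiltR N).F 1) (hg : ∀ x ∈ g, ∀ y ∈ g, br x y ∈ g)
    {Λ : Subgroup (Mt N)ˣ} {k : ℤ} {x : PH hF hg ι D} :
    x ∈ LK hF hg Λ ι D k ↔ (∀ p, (x : SD ι N).left p ∈ Λ) ∧
      k ∣ Multiplicative.toAdd (x : SD ι N).right := Iff.rfl

theorem isClosed_LK {Λ : Subgroup (Mt N)ˣ} (hΛ : IsClosed (Λ : Set (Mt N)ˣ)) (k : ℤ) :
    IsClosed (LK hF hg Λ ι D k : Set (PH hF hg ι D)) := by
  have h1 : (LK hF hg Λ ι D k : Set (PH hF hg ι D)) =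
      (⋂ p : ι × ℤ, (fun x : PH hF hg ι D => (x : SD ι N).left p) ⁻¹' (Λ : Set (Mt N)ˣ)) ∩
      (fun x : PH hF hg ι D => (x : SD ι N).right) ⁻¹' {n | k ∣ Multiplicative.toAdd n} := by
    ext x
    simp only [Set.mem_inter_iff, Set.mem_iInter, Set.mem_preimage, Set.mem_setOf_eq,
      SetLike.mem_coe]
    exact Iff.rfl
  rw [h1]
  refine IsClosed.inter (isClosed_iInter fun p => hΛ.preimage ?_) (IsClosed.preimage ?_ ?_)
  · exact (continuous_apply p).comp (continuous_left.comp continuous_subtype_val)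
  · exact continuous_right.comp continuous_subtype_val
  · exact isClosed_discrete _

theorem compact_quot {Λ : Subgroup (Mt N)ˣ}
    (hsp : g ≤ Submodule.span ℝ {x | x ∈ g ∧ Eu x ∈ Λ}) {k : ℤ} (hk : 0 < k) :
    CompactSpace (PH hF hg ι D ⧸ LK hF hg Λ ι D k) := by
  obtain ⟨C1, hC1, hC2, hC3⟩ := cpt (D := D) hF hg hsp
  -- the compact set of functions
  set CI : Set (SS ι N) := (fun v : ι → ℤ → (Mt N)ˣ => fun p : ι × ℤ => v p.1 p.2) ''
    (Set.pi Set.univ fun _ => C1) with hCI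
  have hCIc : IsCompact CI := by
    refine (isCompact_univ_pi fun _ => hC1).image ?_
    refine continuous_pi fun p => ?_
    exact (continuous_apply p.2).comp (continuous_apply p.1)
  set T : Set (Multiplicative ℤ) := Multiplicative.ofAdd '' (Set.Ico (0 : ℤ) k) with hT
  have hTc : IsCompact T := ((Set.finite_Ico (0 : ℤ) k).image _).isCompact
  set C : Set (SD ι N) := (fun q : SS ι N × Multiplicative ℤ => (⟨q.1, q.2⟩ : SD ι N)) ''
    (CI ×ˢ T) with hC
  have hCc : IsCompact C := (hCIc.prod hTc).image (continuous_mk continuous_fst continuous_snd)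
  have hCP : ∀ x ∈ C, x ∈ PH hF hg ι D := by
    rintro _ ⟨⟨u, n⟩, ⟨⟨v, hv, rfl⟩, _⟩, rfl⟩
    refine (mem_PI_iff hF hg).2 fun i => ?_
    exact hC2 _ (hv i (Set.mem_univ i))
  set C' : Set (PH hF hg ι D) := Subtype.val ⁻¹' C with hC'
  have hC'c : IsCompact C' := by
    have e : Subtype.val '' C' = C := by
      ext x
      constructor
      · rintro ⟨y, hy, rfl⟩
        exact hy
      · intro hx
        exact ⟨⟨x, hCP x hx⟩, hx, rfl⟩
    rw [Subtype.isCompact_iff, e]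
    exact hCc
  have hdec : ∀ x : PH hF hg ι D, ∃ c ∈ C', ∃ γ ∈ LK hF hg Λ ι D k, x = c * γ := by
    intro x
    have hx := (mem_PI_iff hF hg).1 x.2
    have h1 : ∀ i, ∃ c ∈ C1, ∃ γ ∈ PL hF hg D Λ, (fun t => (x : SD ι N).left (i, t)) = c * γ :=
      fun i => hC3 _ (hx i)
    choose c hc γ hγ hcγ using h1
    set n : ℤ := Multiplicative.toAdd (x : SD ι N).right with hn
    set n' : ℤ := n % k with hn'
    have hγ' := fun i => (mem_PL hF hg).1 (hγ i)
    set γ0 : SS ι N := fun p => γ p.1 p.2 with hγ0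
    have hγ0P : γ0 ∈ PI hF hg ι D := (mem_PI_iff hF hg).2 fun i => (hγ' i).1
    set c0 : SS ι N := fun p => c p.1 p.2 with hc0
    have hc0P : c0 ∈ PI hF hg ι D := (mem_PI_iff hF hg).2 fun i => hC2 _ (hc i)
    refine ⟨⟨⟨c0, Multiplicative.ofAdd n'⟩, hc0P⟩, ?_,
      ⟨⟨shφ ι N (Multiplicative.ofAdd (-n')) γ0, Multiplicative.ofAdd (n - n')⟩,
        PI_shift hF hg hγ0P _⟩, ?_, ?_⟩
    · refine ⟨(c0, Multiplicative.ofAdd n'), ⟨⟨c, fun i _ => hc i, rfl⟩, ?_⟩, rfl⟩
      exact ⟨n', ⟨Int.emod_nonneg _ hk.ne', Int.emod_lt_of_pos _ hk⟩, rfl⟩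
    · refine ⟨fun p => (hγ' _).2 _, ?_⟩
      exact Int.dvd_self_sub_emod
    · apply Subtype.ext
      refine SemidirectProduct.ext ?_ ?_
      · rw [Subgroup.coe_mul, SemidirectProduct.mul_left]
        simp only
        rw [← MulAut.mul_apply, ← map_mul, ← ofAdd_add, add_neg_cancel, ofAdd_zero, map_one,
          MulAut.one_apply]
        funext p
        exact congrFun (hcγ p.1) p.2
      · rw [Subgroup.coe_mul, SemidirectProduct.mul_right]
        simp only
        rw [← ofAdd_add, add_sub_cancel]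
        rfl
  refine ⟨?_⟩
  have h2 : (Set.univ : Set (PH hF hg ι D ⧸ LK hF hg Λ ι D k)) = QuotientGroup.mk '' C' := by
    symm
    rw [Set.eq_univ_iff_forall]
    intro y
    obtain ⟨x, rfl⟩ := QuotientGroup.mk_surjective y
    obtain ⟨c, hc, γ, hγ, h⟩ := hdec x
    refine ⟨c, hc, ?_⟩
    rw [QuotientGroup.eq, h]
    simpa using hγ
  rw [h2]
  exact hC'c.image QuotientGroup.continuous_mk

end

end Pool.Agent.Helper75x.NR
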