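import Pool.Agent.TH91.LG.Asm

/-!
# The lower central series of a Lie algebra of strictly upper triangular matrices, and the Lie
algebra of polynomial sequences
-/

set_option autoImplicit false

namespace Pool.Agent.Helper75x.NR

open Pool.Agent.TH91.NB Pool.Agent.TH91.RF

/-- real matrices -/
abbrev Mt (N : ℕ) := Matrix (Fin N) (Fin N) ℝ

variable {N : ℕ}

/-- the bracket -/
def br {R : Type*} [Ring R] (x y : R) : R := x * y - y * x

theorem br_add_left {R : Type*} [Ring R] (x x' y : R) : br (x + x') y = br x y + br x' y := by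
  unfold br; noncomm_ring

theorem br_add_right {R : Type*} [Ring R] (x y y' : R) : br x (y + y') = br x y + br x y' := by
  unfold br; noncomm_ring

theorem br_smul_left {R : Type*} [Ring R] [Algebra ℝ R] (c : ℝ) (x y : R) :
    br (c • x) y = c • br x y := by
  unfold br; rw [smul_mul_assoc, mul_smul_comm, smul_sub]

theorem br_smul_right {R : Type*} [Ring R] [Algebra ℝ R] (c : ℝ) (x y : R) :
    br x (c • y) = c • br x y := by
  unfold br; rw [smul_mul_assoc, mul_smul_comm, smul_sub]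

theorem br_zero_left {R : Type*} [Ring R] (y : R) : br 0 y = 0 := by
  unfold br; simp

theorem br_zero_right {R : Type*} [Ring R] (y : R) : br y 0 = 0 := by
  unfold br; simp

theorem br_skew {R : Type*} [Ring R] (x y : R) : br x y = - br y x := by
  unfold br; noncomm_ring

theorem br_jacobi {R : Type*} [Ring R] (x y z : R) : br (br x y) z = br x (br y z) - br y (br x z) := by
  unfold br; noncomm_ring

/-- span induction for brackets -/
theorem br_mem_of_span {R : Type*} [Ring R] [Algebra ℝ R] {S T : Set R} {K : Submodule ℝ R}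
    (h : ∀ x ∈ S, ∀ y ∈ T, br x y ∈ K) {x y : R} (hx : x ∈ Submodule.span ℝ S)
    (hy : y ∈ Submodule.span ℝ T) : br x y ∈ K := by
  induction hx using Submodule.span_induction with
  | mem x hx =>
    induction hy using Submodule.span_induction with
    | mem y hy => exact h x hx y hy
    | zero => rw [br_zero_right]; exact K.zero_mem
    | add y y' _ _ h1 h2 => rw [br_add_right]; exact K.add_mem h1 h2
    | smul c y _ h1 => rw [br_smul_right]; exact K.smul_mem c h1
  | zero => rw [br_zero_left]; exact K.zero_mem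
  | add x x' _ _ h1 h2 => rw [br_add_left]; exact K.add_mem h1 h2
  | smul c x _ h1 => rw [br_smul_left]; exact K.smul_mem c h1

/-- the lower central series -/
def LL (g : Submodule ℝ (Mt N)) : ℕ → Submodule ℝ (Mt N)
  | 0 => g
  | (l + 1) => Submodule.span ℝ {z | ∃ x ∈ g, ∃ y ∈ LL g l, z = br x y}

variable {g : Submodule ℝ (Mt N)}

theorem LL_succ_mem {l : ℕ} {x y : Mt N} (hx : x ∈ g) (hy : y ∈ LL g l) :
    br x y ∈ LL g (l + 1) := Submodule.subset_span ⟨x, hx, y, hy, rfl⟩

theorem LL_le_succ (hg : ∀ x ∈ g, ∀ y ∈ g, br x y ∈ g) (l : ℕ) : LL g (l + 1) ≤ LL g l := by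
  induction l with
  | zero =>
    refine Submodule.span_le.2 ?_
    rintro _ ⟨x, hx, y, hy, rfl⟩
    exact hg x hx y hy
  | succ l ih =>
    refine Submodule.span_le.2 ?_
    rintro _ ⟨x, hx, y, hy, rfl⟩
    exact LL_succ_mem hx (ih hy)

theorem LL_anti (hg : ∀ x ∈ g, ∀ y ∈ g, br x y ∈ g) {l m : ℕ} (h : l ≤ m) : LL g m ≤ LL g l := by
  induction h with
  | refl => exact le_rfl
  | step _ ih => exact (LL_le_succ hg _).trans ih

theorem LL_br (hg : ∀ x ∈ g, ∀ y ∈ g, br x y ∈ g) (i : ℕ) : ∀ (j : ℕ) (x : Mt N), x ∈ LL g i →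
    ∀ y ∈ LL g j, br x y ∈ LL g (i + j + 1) := by
  induction i with
  | zero =>
    intro j x hx y hy
    rw [Nat.zero_add]
    exact LL_succ_mem hx hy
  | succ i ih =>
    intro j x hx y hy
    have hx' : x ∈ Submodule.span ℝ {z | ∃ x ∈ g, ∃ y ∈ LL g i, z = br x y} := hx
    have hy' : y ∈ Submodule.span ℝ ((LL g j : Submodule ℝ (Mt N)) : Set (Mt N)) :=
      Submodule.subset_span hy
    refine br_mem_of_span ?_ hx' hy'
    rintro _ ⟨u, hu, v, hv, rfl⟩ w hw
    rw [br_jacobi]
    refine Submodule.sub_mem _ ?_ ?_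
    · have h1 := LL_succ_mem hu (ih j v hv w hw)
      rwa [show i + j + 1 + 1 = i + 1 + j + 1 by omega] at h1
    · have h1 := ih (j + 1) v hv _ (LL_succ_mem hu hw)
      rwa [show i + (j + 1) + 1 = i + 1 + j + 1 by omega] at h1

theorem LL_sub_F (hF : ∀ x ∈ g, x ∈ (J887.matFiltR N).F 1) (l : ℕ) :
    ∀ x ∈ LL g l, x ∈ (J887.matFiltR N).F (l + 1) := by
  induction l with
  | zero => exact hF
  | succ l ih =>
    intro x hx
    have h1 : LL g (l + 1) ≤ J887.FR N (l + 1 + 1) := by
      refine Submodule.span_le.2 ?_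
      rintro _ ⟨x, hx, y, hy, rfl⟩
      refine Submodule.sub_mem _ ?_ ?_
      · have := (J887.matFiltR N).mul (hF x hx) (ih y hy)
        rwa [show 1 + (l + 1) = l + 1 + 1 by omega] at this
      · exact (J887.matFiltR N).mul (ih y hy) (hF x hx)
    exact h1 hx

theorem LL_bot (hF : ∀ x ∈ g, x ∈ (J887.matFiltR N).F 1) {l : ℕ} (hl : N ≤ l + 1) :
    ∀ x ∈ LL g l, x = 0 := by
  intro x hx
  exact (J887.matFiltR N).eq_zero_of_le hl (LL_sub_F hF l x hx)

/-! ### polynomial sequences -/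

/-- the sequence `t ↦ t ^ m • x` -/
def mono (m : ℕ) (x : Mt N) : ℤ → Mt N := fun t => ((t : ℝ) ^ m) • x

/-- generators of the Lie algebra of polynomial sequences -/
def WS (g : Submodule ℝ (Mt N)) (D l q : ℕ) : Set (ℤ → Mt N) :=
  {f | ∃ l' m : ℕ, l ≤ l' ∧ m ≤ D * (l' + 1) ∧ m + q ≤ (D + 1) * (l' + 1) ∧
    ∃ x ∈ LL g l', f = mono m x}

/-- the Lie algebra of polynomial sequences, with its two filtrations -/
def W (g : Submodule ℝ (Mt N)) (D l q : ℕ) : Submodule ℝ (ℤ → Mt N) :=
  Submodule.span ℝ (WS g D l q)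

variable {D : ℕ}

theorem W_mono {l l' q q' : ℕ} (hl : l ≤ l') (hq : q ≤ q') : W g D l' q' ≤ W g D l q := by
  refine Submodule.span_mono ?_
  rintro f ⟨k, m, h1, h2, h3, x, hx, rfl⟩
  exact ⟨k, m, hl.trans h1, h2, by omega, x, hx, rfl⟩

theorem mono_mem {l q m l' : ℕ} {x : Mt N} (hx : x ∈ LL g l') (h1 : l ≤ l')
    (h2 : m ≤ D * (l' + 1)) (h3 : m + q ≤ (D + 1) * (l' + 1)) : mono m x ∈ W g D l q :=
  Submodule.subset_span ⟨l', m, h1, h2, h3, x, hx, rfl⟩

theorem W_br (hg : ∀ x ∈ g, ∀ y ∈ g, br x y ∈ g) {l l' q q' : ℕ} {x y : ℤ → Mt N}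
    (hx : x ∈ W g D l q) (hy : y ∈ W g D l' q') : br x y ∈ W g D (l + l' + 1) (q + q') := by
  refine br_mem_of_span ?_ hx hy
  rintro _ ⟨k, m, h1, h2, h3, u, hu, rfl⟩ _ ⟨k', m', h1', h2', h3', v, hv, rfl⟩
  have e : br (mono m u) (mono m' v) = mono (m + m') (br u v) := by
    funext t
    unfold br mono
    rw [Pi.sub_apply, Pi.mul_apply, Pi.mul_apply, smul_mul_smul_comm, smul_mul_smul_comm, pow_add,
      smul_sub, mul_comm ((t : ℝ) ^ m') ((t : ℝ) ^ m)]
  rw [e]
  refine mono_mem (LL_br hg k k' u hu v hv) (by omega) ?_ ?_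
  · calc m + m' ≤ D * (k + 1) + D * (k' + 1) := by omega
      _ = D * (k + k' + 1 + 1) := by ring
  · calc m + m' + (q + q') ≤ (D + 1) * (k + 1) + (D + 1) * (k' + 1) := by omega
      _ = (D + 1) * (k + k' + 1 + 1) := by ring

theorem W_val (hF : ∀ x ∈ g, x ∈ (J887.matFiltR N).F 1) {l q : ℕ} {x : ℤ → Mt N}
    (hx : x ∈ W g D l q) (t : ℤ) : x t ∈ (J887.matFiltR N).F 1 := by
  unfold W at hx
  induction hx using Submodule.span_induction with
  | mem x hx =>
    obtain ⟨k, m, h1, h2, h3, u, hu, rfl⟩ := hx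
    refine (J887.FR N 1).smul_mem _ ?_
    exact (J887.matFiltR N).anti (by omega) (LL_sub_F hF k u hu)
  | zero => exact Submodule.zero_mem _
  | add x y _ _ h1 h2 => exact Submodule.add_mem _ h1 h2
  | smul c x _ h1 => exact (J887.FR N 1).smul_mem _ h1

theorem W_bot_l (hF : ∀ x ∈ g, x ∈ (J887.matFiltR N).F 1) {l q : ℕ} (hl : N ≤ l + 1)
    {x : ℤ → Mt N} (hx : x ∈ W g D l q) : x = 0 := by
  unfold W at hx
  induction hx using Submodule.span_induction with
  | mem x hx =>
    obtain ⟨k, m, h1, h2, h3, u, hu, rfl⟩ := hx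
    have : u = 0 := LL_bot hF (by omega) u hu
    subst this
    funext t
    simp [mono]
  | zero => rfl
  | add x y _ _ h1 h2 => rw [h1, h2, add_zero]
  | smul c x _ h1 => rw [h1, smul_zero]

theorem W_bot_q (hF : ∀ x ∈ g, x ∈ (J887.matFiltR N).F 1) {l q : ℕ} (hq : (D + 1) * N < q)
    {x : ℤ → Mt N} (hx : x ∈ W g D l q) : x = 0 := by
  unfold W at hx
  induction hx using Submodule.span_induction with
  | mem x hx =>
    obtain ⟨k, m, h1, h2, h3, u, hu, rfl⟩ := hx
    have h4 : N ≤ k + 1 := by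
      by_contra h
      push Not at h
      have : (D + 1) * (k + 1) ≤ (D + 1) * N := Nat.mul_le_mul_left _ h.le
      omega
    have : u = 0 := LL_bot hF h4 u hu
    subst this
    funext t
    simp [mono]
  | zero => rfl
  | add x y _ _ h1 h2 => rw [h1, h2, add_zero]
  | smul c x _ h1 => rw [h1, smul_zero]

/-- the shift -/
def sh1 (n : ℤ) (x : ℤ → Mt N) : ℤ → Mt N := fun t => x (t + n)

theorem sh1_mono_sub (n : ℤ) (m : ℕ) (x : Mt N) :
    sh1 n (mono m x) - mono m x =
      ∑ j ∈ Finset.range m, ((n : ℝ) ^ (m - j) * (m.choose j : ℝ)) • mono j x := by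
  funext t
  rw [Pi.sub_apply, Finset.sum_apply]
  unfold sh1 mono
  rw [← sub_smul]
  simp only [Pi.smul_apply]
  simp_rw [smul_smul]
  rw [← Finset.sum_smul]
  congr 1
  push_cast
  rw [add_pow, Finset.sum_range_succ]
  simp only [Nat.sub_self, pow_zero, mul_one, Nat.choose_self, Nat.cast_one, add_sub_cancel_right]
  exact Finset.sum_congr rfl fun j _ => by ring

theorem W_shift_sub {l q : ℕ} {x : ℤ → Mt N} (hx : x ∈ W g D l q) (n : ℤ) :
    sh1 n x - x ∈ W g D l (q + 1) := by
  unfold W at hx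
  induction hx using Submodule.span_induction with
  | mem x hx =>
    obtain ⟨k, m, h1, h2, h3, u, hu, rfl⟩ := hx
    rw [sh1_mono_sub]
    refine Submodule.sum_mem _ fun j hj => Submodule.smul_mem _ _ ?_
    rw [Finset.mem_range] at hj
    exact mono_mem hu h1 (by omega) (by omega)
  | zero =>
    have : sh1 n (0 : ℤ → Mt N) - 0 = 0 := by funext t; simp [sh1]
    rw [this]; exact Submodule.zero_mem _
  | add x y _ _ h1 h2 =>
    have : sh1 n (x + y) - (x + y) = (sh1 n x - x) + (sh1 n y - y) := by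
      funext t; simp only [sh1, Pi.add_apply, Pi.sub_apply]; abel
    rw [this]; exact Submodule.add_mem _ h1 h2
  | smul c x _ h1 =>
    have : sh1 n (c • x) - c • x = c • (sh1 n x - x) := by
      funext t; simp only [sh1, Pi.smul_apply, Pi.sub_apply, smul_sub]
    rw [this]; exact Submodule.smul_mem _ _ h1

theorem W_shift {l q : ℕ} {x : ℤ → Mt N} (hx : x ∈ W g D l q) (n : ℤ) :
    sh1 n x ∈ W g D l q := by
  have h1 := Submodule.add_mem _ (W_mono le_rfl (Nat.le_succ q) (W_shift_sub hx n)) hx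
  rwa [sub_add_cancel] at h1

end Pool.Agent.Helper75x.NR
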