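import Pool.Agent.Helper75x.NR.Exp

/-!
Project S04319 (MP_35c333_an), task D: a Magnus-type lemma.

`N`, an index type `I`, the algebra `A = I → Mt N` (with the filtration `filtI I N` of `NR/Exp.lean`),
real subspaces `K1 ≤ K` of `A` with `[K, K] ⊆ K1`, strictly upper triangular `M`, `β` and polynomials
`ε t ∈ ℝ[X]` of bounded degree with `ε t (0) = 0`.  Put
`Y(τ) : t ↦ (ε t)'(τ) • (exp(ε t(τ) M) β exp(-ε t(τ) M))`.
If `Y(n) ∈ K` and `Y(n) - Y(0) ∈ K1` for all `n : ℕ`, then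
`exp(ε t(1) (M + β)) exp(-ε t(1) M) = exp(z t)` with `z ∈ K` and `z - Y(0) ∈ K1`.

PAPER PROOF.  Work in the ring `A[X]` with the filtration `F k = {f : all coefficients in F k}`
(`F N = 0`).  `ε`, seen in `A[X]` (coefficient `q` = `t ↦ coeff (ε t) q • 1`), is central.
`G := exp(ε (M+β)) exp(-ε M)`, `D = d/dX`: `D G = G Y` with `Y := ε' exp(ε M) β exp(-ε M) ∈ A[X]`
(`Filt.deriv_exp` in `TH91/RF/Bch.lean`, used as in `derivative_exp_monomial` of `Bch2.lean`; as `ε` is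
central `D exp(ε W) = exp(ε W) ε' W`).  `G = exp u` with `u ∈ F 1` (`Filt.exp_surj`,
`one_add_mul_mem`, `exp_sub_one_mem`); `G` has constant coefficient `1` (evaluate at `0`), so `u` has
constant coefficient `0` (`exp_inj` after evaluation).  `deriv_exp` gives
`D(exp u) = exp u * ∑ c_k (adr u)^[k] (D u)` with `c_0 = 1`, so `∑ c_k (adr u)^[k] (D u) = Y`.
The coefficients `Y_q` of `Y` are in `K`, and in `K1` for `q ≥ 1` (Vandermonde: `vdm_mem` in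
`TH91/RF/Core.lean`; `∑ n^q Y_q ∈ K` for all `n ∈ ℕ`, and `K` is a real subspace).  Compare the
coefficients of `X^q`: `(q+1) u_{q+1} = Y_q - ∑_{k ≥ 1} c_k [(adr u)^[k] (D u)]_q`; since `u_0 = 0` the
second term only involves `u_1, ..., u_q`, and it is a sum of (iterated) brackets of elements of `K`
once `u_1, ..., u_q ∈ K`, hence in `K1`.  So `u_q ∈ K`, `u_1 - Y_0 ∈ K1` and `u_q ∈ K1` for `q ≥ 2`;
evaluate at `X = 1`: `z := ∑ u_q`.
-/

set_option autoImplicit false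

namespace Pool.Agent.Helper75x.NR

open Pool.Agent.TH91.NB Pool.Agent.TH91.RF

/-- the sequence `Y(τ)` -/
noncomputable def YD {N : ℕ} {I : Type} (M β : Mt N) (ε : I → Polynomial ℝ) (τ : ℝ) : I → Mt N :=
  fun t => (Polynomial.derivative (ε t)).eval τ •
    (IsNilpotent.exp ((ε t).eval τ • M) * β * IsNilpotent.exp (-((ε t).eval τ • M)))

def TaskD : Prop :=
  ∀ (N : ℕ) (I : Type) (K K1 : Submodule ℝ (I → Mt N)),
    (∀ x ∈ K, x ∈ (filtI I N).F 1) → K1 ≤ K → (∀ x ∈ K, ∀ y ∈ K, br x y ∈ K1) →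
    ∀ (M β : Mt N), M ∈ (J887.matFiltR N).F 1 → β ∈ (J887.matFiltR N).F 1 →
    ∀ (d : ℕ) (ε : I → Polynomial ℝ), (∀ t, (ε t).natDegree ≤ d) → (∀ t, (ε t).eval 0 = 0) →
      (∀ n : ℕ, YD M β ε n ∈ K) → (∀ n : ℕ, YD M β ε n - YD M β ε 0 ∈ K1) →
      ∃ z ∈ K, z - YD M β ε 0 ∈ K1 ∧
        ∀ t, IsNilpotent.exp ((ε t).eval 1 • (M + β)) * IsNilpotent.exp (-((ε t).eval 1 • M)) =
          IsNilpotent.exp (z t)

/-- Vandermonde for subspaces -/
def TaskD0 : Prop :=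
  ∀ (A : Type) [AddCommGroup A] [Module ℝ A] (K : Submodule ℝ A) (d : ℕ) (z : ℕ → A),
    (∀ n : ℕ, ∑ q ∈ Finset.range (d + 1), ((n : ℝ) ^ q) • z q ∈ K) → ∀ q ≤ d, z q ∈ K

/-- derivative at `0` of `τ ↦ exp (ε(τ) M) v exp (-ε(τ) M)` -/
def TaskD1 : Prop :=
  ∀ (N : ℕ) (I : Type) (K : Submodule ℝ (I → Mt N)) (M v : Mt N),
    M ∈ (J887.matFiltR N).F 1 → v ∈ (J887.matFiltR N).F 1 →
    ∀ (d : ℕ) (ε : I → Polynomial ℝ), (∀ t, (ε t).natDegree ≤ d) → (∀ t, (ε t).eval 0 = 0) →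
      (∀ n : ℕ, (fun t => IsNilpotent.exp ((ε t).eval (n : ℝ) • M) * v *
        IsNilpotent.exp (-((ε t).eval (n : ℝ) • M))) ∈ K) →
      (fun t => (Polynomial.derivative (ε t)).eval 0 • br M v) ∈ K

/-- brackets from conjugation -/
def TaskD2 : Prop :=
  ∀ (N : ℕ) (I : Type) (K : Submodule ℝ (I → Mt N)) (x y : I → Mt N),
    x ∈ (filtI I N).F 1 → y ∈ (filtI I N).F 1 →
      (∀ n : ℕ, IsNilpotent.exp ((n : ℝ) • x) * y * IsNilpotent.exp (-((n : ℝ) • x)) - y ∈ K) →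
      br x y ∈ K

end Pool.Agent.Helper75x.NR
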