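import Pool.Agent.Helper75x.NR.Grp
import Pool.Agent.Helper75x.NR.StmD

/-!
# The Lie algebra of a closed subgroup of the group of polynomial sequences, and characters
-/

set_option autoImplicit false

namespace Pool.Agent.Helper75x.NR

open Pool.Agent.TH91.NB Pool.Agent.TH91.RF Finset Topology Filter
open Pool.Agent.Helper509.RD

set_option maxHeartbeats 400000

variable {ι : Type} {N : ℕ} {g : Submodule ℝ (Mt N)} {D : ℕ}
variable (hF : ∀ x ∈ g, x ∈ (J887.matFiltR N).F 1) (hg : ∀ x ∈ g, ∀ y ∈ g, br x y ∈ g)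

open Classical in
/-- the exponential with values in the group -/
noncomputable def Eh (D : ℕ) (x : ι × ℤ → Mt N) : PH hF hg ι D :=
  if h : x ∈ WI ι g D 0 0 then ⟨SemidirectProduct.inl (ExI x), ⟨x, h, rfl⟩⟩ else 1

theorem Eh_val {x : ι × ℤ → Mt N} (hx : x ∈ WI ι g D 0 0) :
    ((Eh hF hg D x : PH hF hg ι D) : SD ι N) = SemidirectProduct.inl (ExI x) := by
  classical
  unfold Eh
  rw [dif_pos hx]

theorem Eh_mul {x y z : ι × ℤ → Mt N} (hx : x ∈ WI ι g D 0 0) (hy : y ∈ WI ι g D 0 0)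
    (hz : z ∈ WI ι g D 0 0) (h : ExI x * ExI y = ExI z) :
    Eh hF hg D x * Eh hF hg D y = Eh hF hg D z := by
  apply Subtype.ext
  rw [Subgroup.coe_mul, Eh_val hF hg hx, Eh_val hF hg hy, Eh_val hF hg hz, ← map_mul, h]

theorem Eh_zero : Eh hF hg D (0 : ι × ℤ → Mt N) = 1 := by
  apply Subtype.ext
  rw [Eh_val hF hg (Submodule.zero_mem _), ExI_zero, map_one, Subgroup.coe_one]

theorem Eh_inv {x : ι × ℤ → Mt N} (hx : x ∈ WI ι g D 0 0) :
    (Eh hF hg D x)⁻¹ = Eh hF hg D (-x) := by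
  rw [inv_eq_iff_mul_eq_one, Eh_mul hF hg hx (Submodule.neg_mem _ hx) (Submodule.zero_mem _),
    Eh_zero]
  rw [← ExI_inv (WI_F hF hx), mul_inv_cancel, ExI_zero]

theorem Eh_nsmul {x : ι × ℤ → Mt N} (hx : x ∈ WI ι g D 0 0) (n : ℕ) :
    Eh hF hg D ((n : ℝ) • x) = Eh hF hg D x ^ n := by
  apply Subtype.ext
  rw [Subgroup.coe_pow, Eh_val hF hg (Submodule.smul_mem _ _ hx), Eh_val hF hg hx, ← map_pow,
    ExI_nsmul (WI_F hF hx)]

theorem tendsto_Eh {X : Type*} {l : Filter X} {f : X → ι × ℤ → Mt N} {a : ι × ℤ → Mt N}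
    (hf : Tendsto f l (𝓝 a)) (h : ∀ x, f x ∈ WI ι g D 0 0) (ha : a ∈ WI ι g D 0 0) :
    Tendsto (fun x => Eh hF hg D (f x)) l (𝓝 (Eh hF hg D a)) := by
  rw [tendsto_subtype_rng, Eh_val hF hg ha]
  have e : (fun x => ((Eh hF hg D (f x) : PH hF hg ι D) : SD ι N)) =
      SemidirectProduct.inl ∘ fun x => ExI (f x) := by
    funext x
    exact Eh_val hF hg (h x)
  rw [e]
  exact (continuous_inl'.tendsto _).comp
    (tendsto_ExI hf (fun x => WI_F hF (h x)) (WI_F hF ha))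

theorem tendsto_trotter {x y : ι × ℤ → Mt N} (hx : x ∈ WI ι g D 0 0) (hy : y ∈ WI ι g D 0 0) :
    Tendsto (fun n : ℕ => (Eh hF hg D (((n : ℝ) + 1)⁻¹ • x) *
      Eh hF hg D (((n : ℝ) + 1)⁻¹ • y)) ^ (n + 1)) atTop (𝓝 (Eh hF hg D (x + y))) := by
  rw [tendsto_subtype_rng, Eh_val hF hg (Submodule.add_mem _ hx hy)]
  have e : (fun n : ℕ => (((Eh hF hg D (((n : ℝ) + 1)⁻¹ • x) *
      Eh hF hg D (((n : ℝ) + 1)⁻¹ • y)) ^ (n + 1) : PH hF hg ι D) : SD ι N)) =
      SemidirectProduct.inl ∘ fun n : ℕ => (ExI (((n : ℝ) + 1)⁻¹ • x) *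
        ExI (((n : ℝ) + 1)⁻¹ • y)) ^ (n + 1) := by
    funext n
    rw [Subgroup.coe_pow, Subgroup.coe_mul, Eh_val hF hg (Submodule.smul_mem _ _ hx),
      Eh_val hF hg (Submodule.smul_mem _ _ hy), Function.comp_apply, map_pow, map_mul]
  rw [e]
  exact (continuous_inl'.tendsto _).comp (trotter (WI_F hF hx) (WI_F hF hy))

/-- the adjoint action -/
def AdP (w : PH hF hg ι D) (x : ι × ℤ → Mt N) : ι × ℤ → Mt N :=
  vl (w : SD ι N).left * shX (Multiplicative.toAdd (w : SD ι N).right) x *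
    vl ((w : SD ι N).left)⁻¹

theorem AdP_mem (w : PH hF hg ι D) {x : ι × ℤ → Mt N} (hx : x ∈ WI ι g D 0 0) :
    AdP hF hg w x ∈ WI ι g D 0 0 := by
  obtain ⟨z, hz, hw⟩ := w.2
  unfold AdP
  rw [hw]
  have hsh : shX (Multiplicative.toAdd (w : SD ι N).right) x ∈ WI ι g D 0 0 := WI_shift hx _
  have h1 := conj_sub_mem (V := WI ι g D 0 0) (K := WI ι g D 0 0) (K' := WI ι g D 0 0)
      (fun x hx => WI_F hF hx) le_rfl le_rfl
      (fun x hx y hy => WI_br hg (Nat.zero_le _) (Nat.zero_le _) hx hy) hz hsh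
  have := Submodule.add_mem _ h1 hsh
  rwa [sub_add_cancel] at this

theorem AdP_smul (w : PH hF hg ι D) (s : ℝ) (x : ι × ℤ → Mt N) :
    AdP hF hg w (s • x) = s • AdP hF hg w x := by
  unfold AdP
  have : shX (Multiplicative.toAdd (w : SD ι N).right) (s • x) =
      s • shX (Multiplicative.toAdd (w : SD ι N).right) x := rfl
  rw [this, mul_smul_comm, smul_mul_assoc]

theorem conj_Eh (w : PH hF hg ι D) {x : ι × ℤ → Mt N} (hx : x ∈ WI ι g D 0 0) :
    w * Eh hF hg D x * w⁻¹ = Eh hF hg D (AdP hF hg w x) := by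
  apply Subtype.ext
  rw [Subgroup.coe_mul, Subgroup.coe_mul, Subgroup.coe_inv, Eh_val hF hg hx,
    Eh_val hF hg (AdP_mem hF hg w hx)]
  set n := (w : SD ι N).right with hn
  refine SemidirectProduct.ext ?_ ?_
  · simp only [SemidirectProduct.mul_left, SemidirectProduct.mul_right,
      SemidirectProduct.inv_left, SemidirectProduct.left_inl, SemidirectProduct.right_inl, mul_one]
    rw [← hn]
    have e1 : shφ ι N n (shφ ι N n⁻¹ ((w : SD ι N).left)⁻¹) = ((w : SD ι N).left)⁻¹ := by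
      rw [← MulAut.mul_apply, ← map_mul, mul_inv_cancel, map_one, MulAut.one_apply]
    rw [e1, shφ_ExI]
    rw [ExI_conj (WI_F hF (WI_shift hx _)) _ (WI_F hF (AdP_mem hF hg w hx))]
    rfl
  · simp only [SemidirectProduct.mul_right, SemidirectProduct.inv_right,
      SemidirectProduct.right_inl, mul_one, mul_inv_cancel]

section G

variable (G : Subgroup (PH hF hg ι D)) (hG : IsClosed (G : Set (PH hF hg ι D)))

/-- the Lie algebra of `G` -/
def KK : Submodule ℝ (ι × ℤ → Mt N) where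
  carrier := {x | x ∈ WI ι g D 0 0 ∧ IsClosed (G : Set (PH hF hg ι D)) ∧
    ∀ s : ℝ, Eh hF hg D (s • x) ∈ G} ∪ {0}
  zero_mem' := Or.inr rfl
  add_mem' := by
    rintro x y hx hy
    rcases hy with hy | hy
    swap
    · rw [Set.mem_singleton_iff] at hy
      rwa [hy, add_zero]
    rcases hx with hx | hx
    swap
    · rw [Set.mem_singleton_iff] at hx
      rw [hx, zero_add]
      exact Or.inl hy
    obtain ⟨hx1, hG, hx2⟩ := hx
    obtain ⟨hy1, _, hy2⟩ := hy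
    refine Or.inl ⟨Submodule.add_mem _ hx1 hy1, hG, fun s => ?_⟩
    rw [smul_add]
    refine hG.mem_of_tendsto (tendsto_trotter hF hg (Submodule.smul_mem _ s hx1)
      (Submodule.smul_mem _ s hy1)) (Eventually.of_forall fun n => ?_)
    refine G.pow_mem (G.mul_mem ?_ ?_) _
    · rw [smul_smul]; exact hx2 _
    · rw [smul_smul]; exact hy2 _
  smul_mem' := by
    rintro c x hx
    rcases hx with hx | hx
    swap
    · rw [Set.mem_singleton_iff] at hx
      rw [hx, smul_zero]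
      exact Or.inr rfl
    obtain ⟨hx1, hG, hx2⟩ := hx
    refine Or.inl ⟨Submodule.smul_mem _ _ hx1, hG, fun s => ?_⟩
    rw [smul_smul]
    exact hx2 _

variable {G}

include hG in
theorem mem_KK {x : ι × ℤ → Mt N} :
    x ∈ KK hF hg G ↔ x ∈ WI ι g D 0 0 ∧ ∀ s : ℝ, Eh hF hg D (s • x) ∈ G := by
  constructor
  · rintro (⟨h1, _, h2⟩ | h)
    · exact ⟨h1, h2⟩
    · rw [Set.mem_singleton_iff] at h
      subst h
      refine ⟨Submodule.zero_mem _, fun s => ?_⟩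
      rw [smul_zero, Eh_zero]
      exact G.one_mem
  · rintro ⟨h1, h2⟩
    exact Or.inl ⟨h1, hG, h2⟩

include hG in
theorem KK_Eh {x : ι × ℤ → Mt N} (hx : x ∈ KK hF hg G) : Eh hF hg D x ∈ G := by
  have := ((mem_KK hF hg hG).1 hx).2 1
  rwa [one_smul] at this

include hG in
theorem AdP_KK {w : PH hF hg ι D} (hw : w ∈ G) {x : ι × ℤ → Mt N} (hx : x ∈ KK hF hg G) :
    AdP hF hg w x ∈ KK hF hg G := by
  obtain ⟨h1, h2⟩ := (mem_KK hF hg hG).1 hx
  refine (mem_KK hF hg hG).2 ⟨AdP_mem hF hg w h1, fun s => ?_⟩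
  rw [← AdP_smul, ← conj_Eh hF hg w (Submodule.smul_mem _ _ h1)]
  exact G.mul_mem (G.mul_mem hw (h2 s)) (G.inv_mem hw)

variable (c : G →* Circle) (hc : Continuous c)

open Classical in
/-- the character, extended by `1` -/
noncomputable def cE (x : PH hF hg ι D) : Circle := if h : x ∈ G then c ⟨x, h⟩ else 1

variable {c}

theorem cE_eq {x : PH hF hg ι D} (h : x ∈ G) : cE hF hg c x = c ⟨x, h⟩ := by
  classical
  unfold cE
  rw [dif_pos h]

theorem cE_mul {x y : PH hF hg ι D} (hx : x ∈ G) (hy : y ∈ G) :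
    cE hF hg c (x * y) = cE hF hg c x * cE hF hg c y := by
  rw [cE_eq hF hg (G.mul_mem hx hy), cE_eq hF hg hx, cE_eq hF hg hy, ← map_mul]
  rfl

theorem cE_one : cE hF hg c 1 = 1 := by
  rw [cE_eq hF hg G.one_mem]
  exact map_one c

theorem cE_inv {x : PH hF hg ι D} (hx : x ∈ G) : cE hF hg c x⁻¹ = (cE hF hg c x)⁻¹ := by
  rw [eq_inv_iff_mul_eq_one, ← cE_mul hF hg (G.inv_mem hx) hx, inv_mul_cancel, cE_one]

theorem cE_pow {x : PH hF hg ι D} (hx : x ∈ G) (n : ℕ) :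
    cE hF hg c (x ^ n) = cE hF hg c x ^ n := by
  induction n with
  | zero => rw [pow_zero, pow_zero, cE_one]
  | succ n ih => rw [pow_succ, pow_succ, cE_mul hF hg (G.pow_mem hx n) hx, ih]

theorem cE_conj {w x : PH hF hg ι D} (hw : w ∈ G) (hx : x ∈ G) :
    cE hF hg c (w * x * w⁻¹) = cE hF hg c x := by
  rw [cE_mul hF hg (G.mul_mem hw hx) (G.inv_mem hw), cE_mul hF hg hw hx, cE_inv hF hg hw]
  rw [mul_comm (cE hF hg c w), mul_assoc, mul_inv_cancel, mul_one]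

include hc in
theorem tendsto_cE {X : Type*} {l : Filter X} {f : X → PH hF hg ι D} {a : PH hF hg ι D}
    (hf : Tendsto f l (𝓝 a)) (h : ∀ x, f x ∈ G) (ha : a ∈ G) :
    Tendsto (fun x => cE hF hg c (f x)) l (𝓝 (cE hF hg c a)) := by
  have h1 : Tendsto (fun x => (⟨f x, h x⟩ : G)) l (𝓝 ⟨a, ha⟩) := tendsto_subtype_rng.2 hf
  have h2 := (hc.tendsto _).comp h1
  rw [cE_eq hF hg ha]
  refine h2.congr fun x => ?_
  rw [cE_eq hF hg (h x)]
  rfl

include hG hc in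
theorem cE_add {x y : ι × ℤ → Mt N} (hx : x ∈ KK hF hg G) (hy : y ∈ KK hF hg G) :
    cE hF hg c (Eh hF hg D (x + y)) = cE hF hg c (Eh hF hg D x) * cE hF hg c (Eh hF hg D y) := by
  obtain ⟨hx1, hx2⟩ := (mem_KK hF hg hG).1 hx
  obtain ⟨hy1, hy2⟩ := (mem_KK hF hg hG).1 hy
  have h1 := tendsto_cE (c := c) hF hg hc (tendsto_trotter hF hg hx1 hy1)
    (fun n => G.pow_mem (G.mul_mem (hx2 _) (hy2 _)) _)
    (KK_Eh hF hg hG (Submodule.add_mem _ hx hy))
  have h2 : ∀ n : ℕ, cE hF hg c ((Eh hF hg D (((n : ℝ) + 1)⁻¹ • x) *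
      Eh hF hg D (((n : ℝ) + 1)⁻¹ • y)) ^ (n + 1)) =
      cE hF hg c (Eh hF hg D x) * cE hF hg c (Eh hF hg D y) := by
    intro n
    have e : ∀ z : ι × ℤ → Mt N, z ∈ WI ι g D 0 0 →
        Eh hF hg D (((n : ℝ) + 1)⁻¹ • z) ^ (n + 1) = Eh hF hg D z := by
      intro z hz
      rw [← Eh_nsmul hF hg (Submodule.smul_mem _ _ hz), smul_smul]
      congr 1
      have : ((n + 1 : ℕ) : ℝ) * ((n : ℝ) + 1)⁻¹ = 1 := by
        push_cast
        exact mul_inv_cancel₀ (by positivity)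
      rw [this, one_smul]
    rw [cE_pow hF hg (G.mul_mem (hx2 _) (hy2 _)), cE_mul hF hg (hx2 _) (hy2 _), mul_pow,
      ← cE_pow hF hg (hx2 _), ← cE_pow hF hg (hy2 _), e x hx1, e y hy1]
  simp only [h2] at h1
  exact tendsto_nhds_unique h1 tendsto_const_nhds |>.symm ▸ rfl

variable (c) in
/-- the kernel of the character on the Lie algebra -/
def K1 : Submodule ℝ (ι × ℤ → Mt N) where
  carrier := {x | x ∈ KK hF hg G ∧ (IsClosed (G : Set (PH hF hg ι D)) ∧ Continuous c ∧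
    ∀ s : ℝ, cE hF hg c (Eh hF hg D (s • x)) = 1)} ∪ {0}
  zero_mem' := Or.inr rfl
  add_mem' := by
    rintro x y hx hy
    rcases hy with hy | hy
    swap
    · rw [Set.mem_singleton_iff] at hy
      rwa [hy, add_zero]
    rcases hx with hx | hx
    swap
    · rw [Set.mem_singleton_iff] at hx
      rw [hx, zero_add]
      exact Or.inl hy
    obtain ⟨hx1, hG, hc, hx2⟩ := hx
    obtain ⟨hy1, _, _, hy2⟩ := hy
    refine Or.inl ⟨Submodule.add_mem _ hx1 hy1, hG, hc, fun s => ?_⟩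
    rw [smul_add, cE_add hF hg hG hc (Submodule.smul_mem _ _ hx1) (Submodule.smul_mem _ _ hy1),
      hx2, hy2, one_mul]
  smul_mem' := by
    rintro r x hx
    rcases hx with hx | hx
    swap
    · rw [Set.mem_singleton_iff] at hx
      rw [hx, smul_zero]
      exact Or.inr rfl
    obtain ⟨hx1, hG, hc, hx2⟩ := hx
    refine Or.inl ⟨Submodule.smul_mem _ _ hx1, hG, hc, fun s => ?_⟩
    rw [smul_smul]
    exact hx2 _

include hG hc in
theorem mem_K1 {x : ι × ℤ → Mt N} :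
    x ∈ K1 hF hg c ↔ x ∈ KK hF hg G ∧ ∀ s : ℝ, cE hF hg c (Eh hF hg D (s • x)) = 1 := by
  constructor
  · rintro (⟨h1, _, _, h2⟩ | h)
    · exact ⟨h1, h2⟩
    · rw [Set.mem_singleton_iff] at h
      subst h
      refine ⟨Submodule.zero_mem _, fun s => ?_⟩
      rw [smul_zero, Eh_zero, cE_one]
  · rintro ⟨h1, h2⟩
    exact Or.inl ⟨h1, hG, hc, h2⟩

include hG hc in
theorem K1_le : K1 hF hg c ≤ KK hF hg G := fun _ hx => ((mem_K1 hF hg hG hc).1 hx).1

include hG hc in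
theorem AdP_sub {w : PH hF hg ι D} (hw : w ∈ G) {x : ι × ℤ → Mt N} (hx : x ∈ KK hF hg G) :
    AdP hF hg w x - x ∈ K1 hF hg c := by
  have h1 := AdP_KK hF hg hG hw hx
  refine (mem_K1 hF hg hG hc).2 ⟨Submodule.sub_mem _ h1 hx, fun s => ?_⟩
  have hsx := Submodule.smul_mem _ s hx
  rw [smul_sub, sub_eq_add_neg, cE_add hF hg hG hc (Submodule.smul_mem _ _ h1)
    (Submodule.neg_mem _ hsx), ← AdP_smul,
    ← conj_Eh hF hg w ((mem_KK hF hg hG).1 hsx).1, cE_conj hF hg hw (KK_Eh hF hg hG hsx),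
    ← Eh_inv hF hg ((mem_KK hF hg hG).1 hsx).1, cE_inv hF hg (KK_Eh hF hg hG hsx), mul_inv_cancel]

include hG hc in
theorem AdP_K1 {w : PH hF hg ι D} (hw : w ∈ G) {x : ι × ℤ → Mt N} (hx : x ∈ K1 hF hg c) :
    AdP hF hg w x ∈ K1 hF hg c := by
  have := Submodule.add_mem _ (AdP_sub hF hg hG hc hw (K1_le hF hg hG hc hx)) hx
  rwa [sub_add_cancel] at this

include hG hc in
theorem KK_br (hD2 : TaskD2) {x y : ι × ℤ → Mt N} (hx : x ∈ KK hF hg G)
    (hy : y ∈ KK hF hg G) : br x y ∈ K1 hF hg c := by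
  have hx1 := ((mem_KK hF hg hG).1 hx).1
  have hy1 := ((mem_KK hF hg hG).1 hy).1
  refine hD2 N (ι × ℤ) (K1 hF hg c) x y (WI_F hF hx1) (WI_F hF hy1) fun n => ?_
  have hnx := Submodule.smul_mem _ (n : ℝ) hx
  have h1 := AdP_sub (c := c) hF hg hG hc (KK_Eh hF hg hG hnx) hy
  have hn1 := ((mem_KK hF hg hG).1 hnx).1
  have e : AdP hF hg (Eh hF hg D ((n : ℝ) • x)) y =
      IsNilpotent.exp ((n : ℝ) • x) * y * IsNilpotent.exp (-((n : ℝ) • x)) := by
    unfold AdP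
    rw [Eh_val hF hg hn1]
    simp only [SemidirectProduct.left_inl, SemidirectProduct.right_inl, toAdd_one]
    have e1 : shX 0 y = y := by
      funext p
      unfold shX
      rw [add_zero]
    rw [e1, ExI_inv (WI_F hF hn1), vl_ExI (WI_F hF hn1),
      vl_ExI (Submodule.neg_mem _ (WI_F hF hn1))]
  rwa [e] at h1

end G

end Pool.Agent.Helper75x.NR
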