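import Pool.Agent.Helper75x.NR.Chr

/-!
# The matrix form of the recurrence theorem
-/

set_option autoImplicit false

namespace Pool.Agent.Helper75x.NR

open Pool.Agent.TH91.NB Pool.Agent.TH91.RF Finset Topology Filter
open Pool.Agent.Helper509.RD

set_option maxHeartbeats 400000

variable {ι : Type} {N : ℕ}
variable {h : Submodule ℝ (Mt N)} {M : Mt N} {H Λ : Subgroup (Mt N)ˣ} {a : (Mt N)ˣ}
variable (md : MD h M H Λ a)
variable {p : ι → Polynomial ℤ} {D : ℕ} (hD : ∀ i, (p i).natDegree ≤ D)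

/-- density of `L` in `G` modulo the cocompact subgroup -/
theorem dens (tA2 : TaskA2) (tD : TaskD) (tD1 : TaskD1) (tD2 : TaskD2) (tF : TaskF)
    {k : ℕ} (hk : 0 < k) {x : PH md.gF md.gb ι D} (hx : x ∈ GG md hD) :
    x ∈ closure {z : PH md.gF md.gb ι D | ∃ l ∈ LLg md hD, ∃ q ∈ LK md.gF md.gb Λ ι D k,
      z = l * q} := by
  have : Group.IsNilpotent (PH md.gF md.gb ι D) := isNilpotent_PH _ _
  refine tA2 (PH md.gF md.gb ι D) (LK md.gF md.gb Λ ι D k) (isClosed_LK _ _ md.hΛc _)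
    (compact_quot _ _ md.span (by exact_mod_cast hk)) (LLg md hD) (GG md hD) (LLg_le md hD)
    (fun V hV x hx => top_gen md hD V hV x hx) ?_ x hx
  intro c hc hcL hcΛ g
  exact char_trivial md hD hc hcL hcΛ tD tD1 tD2 tF hk g

/-- elements of `L` -/
theorem mem_LLg {x : PH md.gF md.gb ι D} (hx : x ∈ LLg md hD) :
    ∃ n m : ℤ, x = (RR md.gF md.gb hD M_mem_gM 1) ^ n * (Eh md.gF md.gb D (Cs ι M)) ^ m := by
  have hcomm := RR_comm md.gF md.gb hD (M := M) M_mem_gM
  induction hx using Subgroup.closure_induction with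
  | mem y hy =>
    rcases hy with rfl | hy
    · exact ⟨1, 0, by rw [zpow_one, zpow_zero, mul_one]⟩
    · rw [Set.mem_singleton_iff] at hy
      subst hy
      exact ⟨0, 1, by rw [zpow_one, zpow_zero, one_mul]⟩
  | one => exact ⟨0, 0, by rw [zpow_zero, zpow_zero, mul_one]⟩
  | mul y z _ _ hy hz =>
    obtain ⟨n, m, rfl⟩ := hy
    obtain ⟨n', m', rfl⟩ := hz
    refine ⟨n + n', m + m', ?_⟩
    have h1 := (hcomm.zpow_zpow n' m).eq
    rw [zpow_add, zpow_add, mul_assoc, mul_assoc]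
    congr 1
    rw [← mul_assoc, ← h1, mul_assoc]
  | inv y _ hy =>
    obtain ⟨n, m, rfl⟩ := hy
    refine ⟨-n, -m, ?_⟩
    have h1 := (hcomm.zpow_zpow (-n) (-m)).eq
    rw [mul_inv_rev, ← zpow_neg, ← zpow_neg, h1]

/-- the components of the elements of `L` -/
theorem LLg_left (n m : ℤ) (q : ι × ℤ) :
    (((RR md.gF md.gb hD M_mem_gM 1) ^ n * (Eh md.gF md.gb D (Cs ι M)) ^ m :
      PH md.gF md.gb ι D) : SD ι N).left q = a ^ (eZ p n q + m) ∧
    (((RR md.gF md.gb hD M_mem_gM 1) ^ n * (Eh md.gF md.gb D (Cs ι M)) ^ m :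
      PH md.gF md.gb ι D) : SD ι N).right = Multiplicative.ofAdd n := by
  rw [RR_zpow, ← Dl_M md (EuM_mem md), ← Dl_zpow]
  constructor
  · change Eu ((eZ p n q : ℝ) • M) * (((⟨Eu M, EuM_mem md⟩ : H) ^ m : H) : (Mt N)ˣ) = _
    rw [Subgroup.coe_zpow, ← Eu_zpow md.hM]
    change Eu M ^ _ * Eu M ^ m = _
    rw [← zpow_add]
    exact congrArg (fun z => z ^ (eZ p n q + m)) md.a_eq.symm
  · change Multiplicative.ofAdd n * 1 = _
    rw [mul_one]

include md in
/-- the matrix form of the theorem -/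
theorem matrix_form (tA2 : TaskA2) (tD : TaskD) (tD1 : TaskD1) (tD2 : TaskD2) (tF : TaskF)
    (tG : TaskG) {d : ℕ} (p : Fin d → Polynomial ℤ) (hp0 : ∀ i, (p i).eval 0 = 0)
    {k : ℕ} (hk : 0 < k) (j : ℕ) {B : Set (Mt N)ˣ} (hB : IsClosed B)
    (hBΛ : ∀ b ∈ B, ∀ γ ∈ Λ, b * γ ∈ B) {h0 : (Mt N)ˣ} (hh0 : h0 ∈ H) (hh0B : h0 ∉ B) :
    ∃ n m : ℤ, (k : ℤ) < n ∧ (k : ℤ) ∣ n - j ∧ a ^ m ∉ B ∧
      ∀ i, a ^ ((p i).eval n + m) ∉ B := by
  classical
  set P : Option (Fin d) → Polynomial ℤ := fun o => o.elim 0 p with hP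
  set D : ℕ := Finset.univ.sup fun i => (P i).natDegree with hDdef
  have hD : ∀ i, (P i).natDegree ≤ D := fun i =>
    Finset.le_sup (f := fun i => (P i).natDegree) (Finset.mem_univ i)
  have hP0 : ∀ i, (P i).eval 0 = 0 := by
    intro i
    cases i with
    | none => simp [hP]
    | some i => simpa [hP] using hp0 i
  -- the element `w1`
  obtain ⟨γ1, hγ1, β1, hβ1, hγβ⟩ := md.hγ
  obtain ⟨w1, hw1, -, hw3, hw4⟩ := exists_Rb md hD tD tD2 (c := 1) continuous_const
    (by
      rw [cE_eq _ _ (RR_mem md hD 1)]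
      rfl) hβ1
  have hw5 : w1 ∈ LK md.gF md.gb Λ (Option (Fin d)) D 1 := by
    refine (mem_LK _ _).2 ⟨fun q => ?_, one_dvd _⟩
    have e : Eu (M + β1) = γ1 :=
      Units.ext (by rw [Eu_val (Submodule.add_mem _ md.hM (md.hh β1 hβ1)), hγβ])
    rw [hw4, e]
    exact Λ.zpow_mem hγ1 _
  set O : Set (PH md.gF md.gb (Option (Fin d)) D) :=
    {x | (k : ℤ) ∣ Multiplicative.toAdd (x : SD (Option (Fin d)) N).right - j ∧
      ∀ i, (x : SD (Option (Fin d)) N).left (i, 0) ∉ B} with hO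
  have hOo : IsOpen O := by
    have e : O = (fun x : PH md.gF md.gb (Option (Fin d)) D =>
        (x : SD (Option (Fin d)) N).right) ⁻¹' {n | (k : ℤ) ∣ Multiplicative.toAdd n - j} ∩
        ⋂ i, (fun x : PH md.gF md.gb (Option (Fin d)) D =>
          (x : SD (Option (Fin d)) N).left (i, 0)) ⁻¹' Bᶜ := by
      ext x
      simp only [Set.mem_inter_iff, Set.mem_iInter, Set.mem_preimage]
      exact Iff.rfl
    rw [e]
    refine IsOpen.inter (IsOpen.preimage ?_ (isOpen_discrete _))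
      (isOpen_iInter_of_finite fun i => hB.isOpen_compl.preimage ?_)
    · exact continuous_right.comp continuous_subtype_val
    · exact (continuous_apply (i, (0 : ℤ))).comp (continuous_left.comp continuous_subtype_val)
  have hOΛ : ∀ x ∈ O, ∀ q ∈ LK md.gF md.gb Λ (Option (Fin d)) D k, x * q ∈ O := by
    rintro x ⟨hx1, hx2⟩ q hq
    obtain ⟨hq1, hq2⟩ := (mem_LK _ _).1 hq
    refine ⟨?_, fun i hi => hx2 i ?_⟩
    · rw [Subgroup.coe_mul, SemidirectProduct.mul_right, toAdd_mul]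
      have e : Multiplicative.toAdd (x : SD (Option (Fin d)) N).right +
          Multiplicative.toAdd (q : SD (Option (Fin d)) N).right - j =
          (Multiplicative.toAdd (x : SD (Option (Fin d)) N).right - j) +
          Multiplicative.toAdd (q : SD (Option (Fin d)) N).right := by ring
      rw [e]
      exact dvd_add hx1 hq2
    · have h1 := hBΛ _ hi _ (Λ.inv_mem (hq1
        (i, 0 + Multiplicative.toAdd (x : SD (Option (Fin d)) N).right)))
      have e : ((x * q : PH md.gF md.gb (Option (Fin d)) D) : SD (Option (Fin d)) N).left (i, 0) =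
          (x : SD (Option (Fin d)) N).left (i, 0) * (q : SD (Option (Fin d)) N).left
            (i, 0 + Multiplicative.toAdd (x : SD (Option (Fin d)) N).right) := rfl
      rw [e, mul_inv_cancel_right] at h1
      exact h1
  set x0 : PH md.gF md.gb (Option (Fin d)) D := Dl md (Option (Fin d)) D ⟨h0, hh0⟩ * w1 ^ j with hx0
  have hx0G : x0 ∈ GG md hD := (GG md hD).mul_mem (Dl_mem md hD _) ((GG md hD).pow_mem hw1 j)
  have hr : ∀ n : ℕ, Multiplicative.toAdd
      ((w1 ^ n : PH md.gF md.gb (Option (Fin d)) D) : SD (Option (Fin d)) N).right = n := by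
    intro n
    induction n with
    | zero => rfl
    | succ n ih =>
      rw [pow_succ, Subgroup.coe_mul, SemidirectProduct.mul_right, toAdd_mul, ih, hw3]
      simp
  have hx0O : x0 ∈ O := by
    refine ⟨?_, fun i hi => hh0B ?_⟩
    · have e : Multiplicative.toAdd (x0 : SD (Option (Fin d)) N).right = j := by
        rw [hx0, Subgroup.coe_mul, SemidirectProduct.mul_right, toAdd_mul, hr]
        change 0 + (j : ℤ) = j
        rw [zero_add]
      rw [e, sub_self]
      exact dvd_zero _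
    · have h1 := ((mem_LK _ _).1 ((LK md.gF md.gb Λ (Option (Fin d)) D 1).pow_mem hw5 j)).1 (i, 0)
      have e : (x0 : SD (Option (Fin d)) N).left (i, 0) = h0 *
          ((w1 ^ j : PH md.gF md.gb (Option (Fin d)) D) : SD (Option (Fin d)) N).left (i, 0) := by
        change h0 * ((w1 ^ j : PH md.gF md.gb (Option (Fin d)) D) : SD (Option (Fin d)) N).left
          (i, 0 + 0) = _
        rw [add_zero]
      have h2 := hBΛ _ hi _ (Λ.inv_mem h1)
      rwa [e, mul_inv_cancel_right] at h2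
  -- density
  have h1 := dens md hD tA2 tD tD1 tD2 tF hk hx0G
  rw [mem_closure_iff] at h1
  obtain ⟨z, hzO, l, hl, q, hq, rfl⟩ := h1 O hOo hx0O
  have hlO : l ∈ O := by
    have := hOΛ _ hzO _ ((LK md.gF md.gb Λ (Option (Fin d)) D k).inv_mem hq)
    rwa [mul_inv_cancel_right] at this
  obtain ⟨n, m, rfl⟩ := mem_LLg md hD hl
  have : Group.IsNilpotent (PH md.gF md.gb (Option (Fin d)) D) := isNilpotent_PH _ _
  obtain ⟨n, m, hn, hnm⟩ := tG (PH md.gF md.gb (Option (Fin d)) D)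
    (LK md.gF md.gb Λ (Option (Fin d)) D k) (isClosed_LK _ _ md.hΛc _)
    (compact_quot _ _ md.span (by exact_mod_cast hk)) _ _ (RR_comm md.gF md.gb hD M_mem_gM) O hOo
    hOΛ ⟨n, m, hlO⟩ k
  obtain ⟨h2, h3⟩ := hnm
  have h4 := LLg_left md hD n m
  have hpe : ∀ i, eZ P n (i, 0) = (P i).eval n := by
    intro i
    unfold eZ
    simp only
    rw [zero_add, hP0, sub_zero]
  refine ⟨n, m, hn, ?_, ?_, fun i => ?_⟩
  · rw [(h4 (none, 0)).2] at h2
    exact h2
  · have h5 := h3 none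
    rw [(h4 (none, 0)).1, hpe] at h5
    simpa [hP] using h5
  · have h5 := h3 (some i)
    rw [(h4 (some i, 0)).1, hpe] at h5
    exact h5

end Pool.Agent.Helper75x.NR
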