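import Mathlib

/-!
Project S04319 (MP_35c333_an), task A: density of `L` in `G` modulo a cocompact subgroup of a
nilpotent topological group (a Parry-type criterion).

PAPER PROOF. Write `C_i` for the lower central series of `P` (`C_0 = P`, `C_{i+1} = [C_i, P]`,
`C_c = 1`), `N_i := closure (C_i Λ)` (closed subgroups, `N_0 = P`, `N_c = Λ`, decreasing).
(a) `g x g⁻¹ x⁻¹ ∈ C_{i+1} ⊆ N_{i+1}` for `x ∈ C_i`.  (b) `N_i` normalises `N_{i+1}` and
`[N_i, N_i] ⊆ N_{i+1}` (true for elements of `C_i · Λ`, then take closures).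
(c) If `Y` is closed with `Y M = Y` (`M` a closed subgroup containing `Λ`) and `A` closed with
`M A = A`, then `Y A` is closed: `{(yM, g) : y ∈ Y, y⁻¹ g ∈ A}` is closed in `(P/M) × P` and the
projection along the compact `P/M` is closed.

A1 (distality). By induction on `i` show: for `K ≤ P`, `y ∈ closure (K x N_i) → x ∈ closure (K y N_i)`.
`i = 0` trivial.  Step: let `D` be a minimal nonempty closed subset of `closure (K y N_{i+1})` with
`K D = D = D N_{i+1}` (Zorn, compactness of `P/N_{i+1}`).  `D N_i` is closed by (c), `K`-invariant, and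
`d ∈ D` lies in `closure (K x N_i)`, so by induction `x ∈ closure (K d N_i) ⊆ D N_i`, `x = d n`.  As `n`
normalises `N_{i+1}`, `D n` is also minimal and contains `x`; hence `closure (K x N_{i+1}) = D n` and
it is minimal, it contains `y`, so `closure (K y N_{i+1}) = D n ∋ x`.

A2. Show by induction on `i`: `G ⊆ closure (L N_i)`.  `i = 0` trivial.  Step: `Y := closure (L N_{i+1})`,
`W := closure (G N_{i+1})`.  By A1 (for each level) both are minimal (for `L` resp. `G`).
`S_W := W ∩ N_i`, `S_Y := Y ∩ N_i` are closed subgroups of `N_i`, `W k = W` for `k ∈ S_W`, `Y k = Y` for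
`k ∈ S_Y`, and if `y, y k ∈ Y` with `k ∈ N_i` then `k ∈ S_Y` (`Y k` and `Y` are minimal and meet; `1 ∈ Y`).
`W = Y S_W`: `w ∈ W ⊆ closure (G N_i) = closure (L N_i) ⊆ Y N_i` (closed), `w = y k`, and then
`W k = closure (G y k N_{i+1}) = W` as `y k = w ∈ W`.
Suppose `S_Y ≠ S_W`.  `S_W / S_Y` is a compact Hausdorff abelian group (commutators are in
`N_{i+1} ⊆ S_Y`), so there is a continuous character `χ : S_W → Circle`, `χ ≠ 1`, `χ = 1` on `S_Y`
(`Pool.Agent.TH264.Bridge` in `TH264/Bridge/PW.lean`: characters separate points).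
`φ : W → Circle`, `φ (y k) = χ k` is well defined and continuous (preimages of closed sets are
`Y · χ⁻¹(C)`, closed by (c)); `φ (l w) = φ w` for `l ∈ L`, `φ (w k) = φ w χ k` for `k ∈ S_W`.
Good elements: `O := {g ∈ G : ∃ c, ∀ w ∈ W, φ (g w) = c φ w}`, a closed subgroup of `G`, containing `L`.
Let `G_j` be the lower central series of `G`, `G_c = 1`.  Claim `G_j ⊆ O` for all `j`, downwards.
 (1) If `G_{j+1} ⊆ O` then small elements of `G_j` are in `O`: for `g` near `1` (compactness of `W/Λ`),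
 `ψ(w) := φ(g w)/φ(w)` is within `1/2` of `1` on `W`.  `ψ (l w) = c_l ψ(w)` with
 `c_l` the constant of `[l⁻¹, g] ∈ G_{j+1}`; so `ψ(l^n w) = c_l^n ψ(w)`, `|c_l^n - 1| ≤ 1` for all `n`, so
 `c_l = 1` (if `|z^n - 1| ≤ 1` for all `n` then `z = 1`: `x_n = Re z^(2^n) ≥ 1/2`,
 `1 - x_{n+1} = 2 (1 - x_n)(1 + x_n) ≥ 3 (1 - x_n)`).  So `ψ` is `L`-invariant and `S_W`-right invariant
 and continuous: constant on `L N_{i+1}`, on `Y`, on `Y S_W = W`.  So `g ∈ O`.
 (2) `G_j` is topologically generated: for every `V ∈ 𝓝 1`,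
 `G_j ⊆ closure ⟨(V ∩ G_j) ∪ (L ∩ G_j) ∪ G_{j+1}⟩` (induction on `j`: for fixed `l ∈ L` look at
 `{x ∈ G_j : [x, l] ∈ T}`, then for fixed `x ∈ G_j` at `{y ∈ G : [x, y] ∈ T}`, where
 `T = G ∩ closure ⟨(V ∩ G_{j+1}) ∪ (L ∩ G_{j+1}) ∪ G_{j+2}⟩`; both are closed subgroups of `G_j` resp. `G`
 as commutators are bilinear modulo `G_{j+2}`).
 (1) and (2) give `G_j ⊆ O`.
So `φ (g w) = c(g) φ(w)` on `W` for all `g ∈ G`; `c(g) = φ(g)` is a continuous character of `G`, trivial
on `L` and on `Λ ∩ G`; so `c = 1`, `φ = 1` on `G N_{i+1}`, on `W`, and `χ = φ` on `S_W`: contradiction.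
So `S_Y = S_W`, `W = Y S_W = Y`.
-/

set_option autoImplicit false

namespace Pool.Agent.Helper75x.NR

open Topology Pointwise

/-- Distality of subgroups of nilpotent groups acting on compact quotients. -/
def TaskA1 : Prop :=
  ∀ (P : Type) [Group P] [TopologicalSpace P] [IsTopologicalGroup P] [T2Space P]
    [Group.IsNilpotent P] (Λ : Subgroup P), IsClosed (Λ : Set P) → CompactSpace (P ⧸ Λ) →
    ∀ (K : Subgroup P) (x y : P),
      y ∈ closure {z : P | ∃ l ∈ K, ∃ p ∈ Λ, z = l * x * p} →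
      x ∈ closure {z : P | ∃ l ∈ K, ∃ p ∈ Λ, z = l * y * p}

/-- The criterion: if `G` is topologically generated by `L` and small elements, and no nontrivial
continuous character of `G` is trivial on `L` and on `Λ ∩ G`, then `G ⊆ closure (L Λ)`. -/
def TaskA2 : Prop :=
  ∀ (P : Type) [Group P] [TopologicalSpace P] [IsTopologicalGroup P] [T2Space P]
    [Group.IsNilpotent P] (Λ : Subgroup P), IsClosed (Λ : Set P) → CompactSpace (P ⧸ Λ) →
    ∀ (L G : Subgroup P), L ≤ G →
      (∀ V ∈ 𝓝 (1 : P), ∀ x ∈ G,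
        x ∈ closure ((Subgroup.closure ((L : Set P) ∪ (V ∩ (G : Set P))) : Subgroup P) : Set P)) →
      (∀ c : G →* Circle, Continuous c → (∀ g : G, (g : P) ∈ L → c g = 1) →
        (∀ g : G, (g : P) ∈ Λ → c g = 1) → ∀ g : G, c g = 1) →
      ∀ x ∈ G, x ∈ closure {z : P | ∃ l ∈ L, ∃ p ∈ Λ, z = l * p}

end Pool.Agent.Helper75x.NR
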